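import Mathlib
import Pool.Agent.H176M.Cnd

set_option autoImplicit false

/-!
# Numbers with prime rough part in aligned short intervals: the asymptotic formula in the mean
-/

namespace Pool.Agent.H176R

open Pool.Agent.H176M

open Finset Filter
open Pool.Agent.H305R2 (roughPart roughPart_mul SM SMz SM_pos mem_SMz sum_rough_eq ZZ ZZ_nonneg ZZ_le_exp
  VV sum_le_VV)
open Pool.Agent.W66 (VV_le_log)

theorem rough_aligned (hS : SilS) (ε : ℝ) (hε : 0 < ε) (hε1 : ε ≤ 1 / 12) (c A Λ : ℕ) : ∃ L₀ : ℕ,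
    ∀ ω : ℕ, L₀ ≤ ω → ∀ ℓ : ℕ, ℓ ≤ Λ * ω → ω ≤ Λ * ℓ → ∀ r : ℕ, r ≤ ω → (ω : ℝ) / 2 ≤ r → (r : ℝ) ≤ (2 / 3 - ε) * ω → ∀ Q H0 H1 : ℕ,
    2 ^ r ≤ 2 ^ c * Q → Q ≤ 2 ^ (r + c) → H0 ≤ H1 → H1 ≤ Q → Q ≤ 50 * H0 →
    ∑ H ∈ Ico H0 H1, |(RC ℓ (2 ^ (ω - r)) H : ℝ) - 2 ^ (ω - r) * nu ℓ (Mb ε ω) (2 ^ (ω - r)) H| ≤
      2 ^ ω / (ω : ℝ) ^ A := by
  obtain ⟨e, he16⟩ := exists_nat_ge (16 / ε)
  have heε : 4 / (e : ℝ) ≤ ε / 4 := by
    have h1 : 0 < 16 / ε := by positivity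
    have h2 : (0 : ℝ) < e := by linarith
    rw [div_le_div_iff₀ h2 (by norm_num)]
    rw [div_le_iff₀ hε] at he16
    linarith
  have he4 : 4 ≤ e := by
    have h1 : (16 : ℝ) * 12 ≤ 16 / ε := by
      rw [le_div_iff₀ hε]
      linarith
    have : (4 : ℝ) ≤ e := by linarith
    exact_mod_cast this
  have he0 : (0 : ℝ) < e := by exact_mod_cast (by omega : 0 < e)
  obtain ⟨X₀, hone⟩ := one_m hS e (A + 3) he4
  obtain ⟨CV, hCV, hVev⟩ := VV_le_log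
  -- eventual conditions
  have hlin : ∀ C : ℝ, ∀ᶠ ω : ℕ in atTop, C ≤ (ω : ℝ) := fun C =>
    tendsto_natCast_atTop_atTop.eventually_ge_atTop C
  have hexp : ∀ (δ : ℝ), 0 < δ → ∀ (n : ℕ) (C : ℝ), 0 < C → ∀ᶠ ω : ℕ in atTop,
      C * (ω : ℝ) ^ n ≤ (2 : ℝ) ^ (δ * ω) := by
    intro δ hδ n C hC
    have h1 := (isLittleO_pow_exp_pos_mul_atTop n (b := δ * Real.log 2)
      (by have := Real.log_pos one_lt_two; positivity)).bound (show (0 : ℝ) < 1 / C by positivity)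
    have h2 := tendsto_natCast_atTop_atTop (R := ℝ) |>.eventually h1
    filter_upwards [h2] with ω hω
    rw [Real.norm_of_nonneg (by positivity), Real.norm_of_nonneg (by positivity), one_div,
      inv_mul_eq_div, le_div_iff₀ hC] at hω
    have e1 : (2 : ℝ) ^ (δ * ω) = Real.exp (δ * Real.log 2 * ω) := by
      rw [Real.rpow_def_of_pos (by norm_num)]
      congr 1
      ring
    rw [e1]
    linarith
  have hZZ := ZZ_le_exp (c := ε * Real.log 2 / (16 * (Λ + 1))) (by have := Real.log_pos one_lt_two; positivity)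
  obtain ⟨L₁, hL⟩ := eventually_atTop.1 ((hlin (4 * (c + 2) / ε)).and ((hlin (16 * c + 100)).and
    ((hexp (1 / 4) (by norm_num) 0 (X₀ + 201 : ℝ) (by positivity)).and
    ((hexp (1 / 8) (by norm_num) (A + 1) (6 * 2 ^ c) (by positivity)).and
    ((hexp (ε / 16) (by positivity) (A + 1) (2 ^ c * 2) (by positivity)).and
    (hZZ.and (hVev.and ((hlin (2 ^ (c + 1) * 3 ^ (A + 3) * (CV * (Λ + 1)))).and
    (hexp (1 / 4) (by norm_num) 1 (2 * (Λ + 1)) (by positivity))))))))))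
  refine ⟨Λ * L₁ + Λ + L₁ + 3, fun ω hω ℓ hℓω hωℓ r hrω hr1 hr2 Q H0 H1 hQ1 hQ2 hH hH1 hH0 => ?_⟩
  obtain ⟨l1, l2, l3, l4, l5, _, _, l8, l9⟩ := hL ω (by omega)
  have hℓL : L₁ + 1 ≤ ℓ := by
    by_contra hcon
    have h1 : Λ * ℓ ≤ Λ * L₁ := Nat.mul_le_mul_left _ (by omega)
    omega
  obtain ⟨_, _, _, _, _, l6, l7, _, _⟩ := hL ℓ (by omega)
  have hℓr : (ℓ : ℝ) ≤ Λ * ω := by exact_mod_cast hℓω
  have hℓ0 : (0 : ℝ) < ℓ := by exact_mod_cast (by omega : 0 < ℓ)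
  have hΛ0 : (0 : ℝ) ≤ Λ := Nat.cast_nonneg Λ
  have hω3 : (3 : ℝ) ≤ ω := by exact_mod_cast (by omega : 3 ≤ ω)
  have hω0 : (0 : ℝ) < ω := by linarith
  set j := ⌊ε * ω / 4⌋₊ with hj
  have hj1 : (j : ℝ) ≤ ε * ω / 4 := Nat.floor_le (by positivity)
  have hj2 : ε * ω / 4 < j + 1 := Nat.lt_floor_add_one _
  have hjs : (j : ℝ) ≤ ω / 48 := by
    have : ε * ω ≤ 1 / 12 * ω := mul_le_mul_of_nonneg_right hε1 hω0.le
    linarith
  set k := ω - r with hk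
  have hkr : (k : ℝ) = ω - r := by rw [hk, Nat.cast_sub hrω]
  have hk1 : (1 / 3 + ε) * ω ≤ k := by rw [hkr]; linarith
  have hk2 : (k : ℝ) ≤ ω / 2 := by rw [hkr]; linarith
  have hM : Mb ε ω = 2 ^ j := rfl
  set M := 2 ^ j with hMd
  rw [hM]
  set K := 2 ^ k with hK
  set X := Q * K with hX
  have hK1 : 1 ≤ K := Nat.one_le_two_pow
  have hM1 : 1 ≤ M := Nat.one_le_two_pow
  have hjk : j ≤ k := by
    have : (j : ℝ) ≤ k := by
      have : 0 ≤ ε * ω := by positivity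
      linarith
    exact_mod_cast this
  have hXhiN : X ≤ 2 ^ (ω + c) := by
    calc X ≤ 2 ^ (r + c) * K := Nat.mul_le_mul_right _ hQ2
      _ = 2 ^ (ω + c) := by
        rw [hK, ← pow_add]
        congr 1
        omega
  have hXloN : 2 ^ ω ≤ 2 ^ c * X := by
    calc 2 ^ ω = 2 ^ r * K := by
          rw [hK, ← pow_add]
          congr 1
          omega
      _ ≤ (2 ^ c * Q) * K := Nat.mul_le_mul_right _ hQ1
      _ = 2 ^ c * X := by rw [hX]; ring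
  have hH1K : H1 * K ≤ X := Nat.mul_le_mul_right _ hH1
  have hH0K : X ≤ 50 * (H0 * K) := by
    calc X ≤ 50 * H0 * K := Nat.mul_le_mul_right _ hH0
      _ = 50 * (H0 * K) := by ring
  have hH01 : 1 ≤ H0 := by
    by_contra h
    have h0 : H0 = 0 := by omega
    have hQ0 : Q = 0 := by omega
    rw [hQ0, mul_zero] at hQ1
    have : 0 < 2 ^ r := by positivity
    omega
  have hc16 : 16 * (c : ℝ) + 100 ≤ ω := l2
  have hXhi : (X : ℝ) ≤ (2 : ℝ) ^ ((ω : ℝ) + c) := by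
    have h1 : (X : ℝ) ≤ ((2 ^ (ω + c) : ℕ) : ℝ) := by exact_mod_cast hXhiN
    refine h1.trans (le_of_eq ?_)
    push_cast; rw [two_pow_cast]; push_cast; rfl
  have hXlo : (2 : ℝ) ^ ((ω : ℝ) - c) ≤ X := by
    have h1 : ((2 ^ ω : ℕ) : ℝ) ≤ ((2 ^ c * X : ℕ) : ℝ) := by exact_mod_cast hXloN
    push_cast at h1
    rw [Real.rpow_sub (by norm_num), Real.rpow_natCast, Real.rpow_natCast, div_le_iff₀ (by positivity)]
    linarith
  have hKr : (K : ℝ) = (2 : ℝ) ^ (k : ℝ) := by rw [hK]; push_cast; exact two_pow_cast k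
  have hMr : (M : ℝ) = (2 : ℝ) ^ (j : ℝ) := by rw [hMd]; push_cast; exact two_pow_cast j
  have hX0 : (0 : ℝ) < X := lt_of_lt_of_le (by positivity) hXlo
  have hXe : (X : ℝ) ≤ 2 ^ ω * 2 ^ c := by
    have h1 : (X : ℝ) ≤ ((2 ^ (ω + c) : ℕ) : ℝ) := by exact_mod_cast hXhiN
    push_cast at h1
    rw [pow_add] at h1
    exact h1
  have hM0 : (0 : ℝ) < M := by exact_mod_cast hM1
  -- conditions for every m ≤ M
  have hcondA : ∀ m : ℕ, 1 ≤ m → m ≤ M → (X₀ + 201) * m ≤ X := by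
    intro m hm hmM
    have h1 : ((X₀ + 201 : ℕ) : ℝ) * m ≤ X := by
      have h2 : (m : ℝ) ≤ 2 ^ (j : ℝ) := by rw [← hMr]; exact_mod_cast hmM
      have h3 : ((X₀ + 201 : ℕ) : ℝ) ≤ 2 ^ ((1 / 4 : ℝ) * ω) := by
        push_cast
        simpa using l3
      calc ((X₀ + 201 : ℕ) : ℝ) * m ≤ 2 ^ ((1 / 4 : ℝ) * ω) * 2 ^ (j : ℝ) :=
            mul_le_mul h3 h2 (by positivity) (by positivity)
        _ = 2 ^ ((1 / 4 : ℝ) * ω + j) := by rw [← Real.rpow_add (by norm_num)]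
        _ ≤ 2 ^ ((ω : ℝ) - c) := by
            apply Real.rpow_le_rpow_of_exponent_le (by norm_num)
            have : (0 : ℝ) ≤ c := Nat.cast_nonneg c
            linarith
        _ ≤ X := hXlo
    exact_mod_cast h1
  have hcondB : ∀ m : ℕ, 1 ≤ m → m ≤ M → (2 * (X : ℝ)) ^ (1 / 3 + 4 / e : ℝ) ≤ ((K / m : ℕ) : ℝ) := by
    intro m hm hmM
    have h1 : K / M ≤ K / m := Nat.div_le_div_left hmM (by omega)
    have h2 : K / M = 2 ^ (k - j) := by rw [hK, hMd]; exact Nat.pow_div hjk (by norm_num)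
    have h3 : ((2 ^ (k - j) : ℕ) : ℝ) ≤ ((K / m : ℕ) : ℝ) := by rw [← h2]; exact_mod_cast h1
    refine le_trans ?_ h3
    have h4 : 2 * (X : ℝ) ≤ 2 ^ ((ω : ℝ) + c + 1) := by
      rw [Real.rpow_add (by norm_num) ((ω : ℝ) + c) 1, Real.rpow_one]; linarith
    refine le_trans (Real.rpow_le_rpow (by positivity) h4 (by positivity)) ?_
    rw [← Real.rpow_mul (by norm_num)]
    push_cast
    rw [two_pow_cast, Nat.cast_sub hjk]
    apply Real.rpow_le_rpow_of_exponent_le (by norm_num)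
    have h5 : (1 / 3 + 4 / (e : ℝ)) ≤ 1 / 3 + ε / 4 := by linarith
    have h6 : (0 : ℝ) ≤ (ω : ℝ) + c + 1 := by positivity
    have h7 := mul_le_mul_of_nonneg_left h5 h6
    have h8 : ((c : ℝ) + 2) ≤ ε * ω / 4 := by
      rw [div_le_iff₀ hε] at l1
      linarith
    have h9 : ((ω : ℝ) + c + 1) * (1 / 3 + ε / 4) = ω * (1 / 3 + ε / 4) + (c + 1) * (1 / 3 + ε / 4) := by ring
    have h10 : ((c : ℝ) + 1) * (1 / 3 + ε / 4) ≤ c + 1 := by
      have : (1 / 3 + ε / 4) ≤ 1 := by linarith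
      have h0 : (0 : ℝ) ≤ (c : ℝ) + 1 := by positivity
      nlinarith
    have h11 : (ω : ℝ) * (1 / 3 + ε / 4) = ω / 3 + ε * ω / 4 := by ring
    have h12 : (1 / 3 + ε) * ω = ω / 3 + ε * ω := by ring
    have h13 : 0 ≤ ε * ω := by positivity
    linarith
  have hcondC : ∀ m : ℕ, 1 ≤ m → m ≤ M → ((K : ℕ) : ℝ) ≤ ((X / m : ℕ) : ℝ) ^ (9 / 10 : ℝ) := by
    intro m hm hmM
    have h3 : (2 : ℝ) ^ ((3 / 4 : ℝ) * ω) ≤ ((X / m : ℕ) : ℝ) := by
      have hm0 : (0 : ℝ) < m := by exact_mod_cast hm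
      have g1 : X < (X / m) * m + m := Nat.lt_div_mul_add (by omega)
      have g2 : (X : ℝ) ≤ (((X / m : ℕ) : ℝ) + 1) * m := by
        have : X ≤ (X / m + 1) * m := by
          have : (X / m + 1) * m = (X / m) * m + m := by ring
          omega
        exact_mod_cast this
      have g3 : (m : ℝ) ≤ 2 ^ (j : ℝ) := by rw [← hMr]; exact_mod_cast hmM
      have g4 : (2 : ℝ) ^ ((7 / 8 : ℝ) * ω) ≤ ((X / m : ℕ) : ℝ) + 1 := by
        have g5 : (2 : ℝ) ^ ((7 / 8 : ℝ) * ω) * m ≤ (((X / m : ℕ) : ℝ) + 1) * m := by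
          refine le_trans ?_ g2
          calc (2 : ℝ) ^ ((7 / 8 : ℝ) * ω) * m ≤ 2 ^ ((7 / 8 : ℝ) * ω) * 2 ^ (j : ℝ) :=
                mul_le_mul_of_nonneg_left g3 (by positivity)
            _ = 2 ^ ((7 / 8 : ℝ) * ω + j) := by rw [← Real.rpow_add (by norm_num)]
            _ ≤ 2 ^ ((ω : ℝ) - c) := by
                apply Real.rpow_le_rpow_of_exponent_le (by norm_num)
                linarith
            _ ≤ X := hXlo
        exact le_of_mul_le_mul_right g5 hm0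
      have g6 : (2 : ℝ) ^ ((3 / 4 : ℝ) * ω) + 1 ≤ 2 ^ ((7 / 8 : ℝ) * ω) := by
        have g7 : (2 : ℝ) ^ ((7 / 8 : ℝ) * ω) = 2 ^ ((3 / 4 : ℝ) * ω) * 2 ^ ((1 / 8 : ℝ) * ω) := by
          rw [← Real.rpow_add (by norm_num)]; congr 1; ring
        have g8 : (2 : ℝ) ≤ 2 ^ ((1 / 8 : ℝ) * ω) := by
          calc (2 : ℝ) = 2 ^ (1 : ℝ) := (Real.rpow_one 2).symm
            _ ≤ _ := by
              apply Real.rpow_le_rpow_of_exponent_le (by norm_num)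
              have : (0 : ℝ) ≤ c := Nat.cast_nonneg c
              linarith
        have g9 : (1 : ℝ) ≤ 2 ^ ((3 / 4 : ℝ) * ω) := Real.one_le_rpow (by norm_num) (by positivity)
        rw [g7]
        nlinarith
      linarith
    refine le_trans ?_ (Real.rpow_le_rpow (by positivity) h3 (by norm_num))
    rw [← Real.rpow_mul (by norm_num), hKr]
    apply Real.rpow_le_rpow_of_exponent_le (by norm_num)
    linarith
  -- the decomposition
  have hbigM : ∀ H ∈ Ico H0 H1, (ℓ + 1) * M ≤ H * K - 1 := by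
    intro H hHm
    rw [mem_Ico] at hHm
    have h1 : H0 * K ≤ H * K := Nat.mul_le_mul_right _ hHm.1
    have h2 : ((50 * ((ℓ + 1) * M) + 50 : ℕ) : ℝ) ≤ X := by
      have h3 : (2 : ℝ) * (Λ + 1) * ω ≤ 2 ^ ((1 / 4 : ℝ) * ω) := by simpa using l9
      have h4 : (M : ℝ) ≤ 2 ^ ((1 / 48 : ℝ) * ω) := by
        rw [hMr]
        apply Real.rpow_le_rpow_of_exponent_le (by norm_num)
        linarith
      have h5 : (201 : ℝ) ≤ 2 ^ ((1 / 4 : ℝ) * ω) := by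
        have : ((X₀ : ℝ) + 201) * (ω : ℝ) ^ 0 ≤ 2 ^ ((1 / 4 : ℝ) * ω) := l3
        rw [pow_zero, mul_one] at this
        have h0 : (0 : ℝ) ≤ X₀ := Nat.cast_nonneg _
        linarith
      have hM1r : (1 : ℝ) ≤ M := by exact_mod_cast hM1
      push_cast
      have h60 : (ℓ : ℝ) + 1 ≤ (Λ + 1) * ω := by nlinarith
      have h61 : ((ℓ : ℝ) + 1) * M ≤ (Λ + 1) * ω * M := mul_le_mul_of_nonneg_right h60 (by positivity)
      have h62 : (1 : ℝ) ≤ (Λ + 1) * ω * M := by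
        have h63 : (1 : ℝ) ≤ (Λ + 1) * ω := by nlinarith
        nlinarith
      have h6 : 50 * (((ℓ : ℝ) + 1) * M) + 50 ≤ 201 * (2 * (Λ + 1) * ω * M) := by nlinarith
      refine h6.trans ?_
      calc 201 * (2 * (Λ + 1) * (ω : ℝ) * M) ≤ 2 ^ ((1 / 4 : ℝ) * ω) * (2 ^ ((1 / 4 : ℝ) * ω) * 2 ^ ((1 / 48 : ℝ) * ω)) := by
            apply mul_le_mul h5 _ (by positivity) (by positivity)
            exact mul_le_mul h3 h4 (by positivity) (by positivity)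
        _ = 2 ^ ((1 / 4 : ℝ) * ω + ((1 / 4 : ℝ) * ω + (1 / 48 : ℝ) * ω)) := by
            rw [← Real.rpow_add (by norm_num), ← Real.rpow_add (by norm_num)]
        _ ≤ 2 ^ ((ω : ℝ) - c) := by
            apply Real.rpow_le_rpow_of_exponent_le (by norm_num)
            have : (0 : ℝ) ≤ c := Nat.cast_nonneg c
            linarith
        _ ≤ X := hXlo
    have h3 : 50 * ((ℓ + 1) * M) + 50 ≤ X := by exact_mod_cast h2
    omega
  have hstep : ∀ H ∈ Ico H0 H1, |(RC ℓ K H : ℝ) - 2 ^ k * nu ℓ M K H| ≤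
      ∑ s ∈ SMz ℓ M, |(pc ((H * K - 1) / s) (((H + 1) * K - 1) / s) : ℝ) -
        K / (s * Real.log ((H : ℝ) * K / s))| + TC ℓ M K H := by
    intro H hHm
    have h1 := RC_eq (ℓ := ℓ) (M := M) (K := K) (H := H) (by rw [mem_Ico] at hHm; omega) hK1 (hbigM H hHm)
    have h2 : (2 : ℝ) ^ k * nu ℓ M K H = ∑ s ∈ SMz ℓ M, (K : ℝ) / (s * Real.log ((H : ℝ) * K / s)) := by
      unfold nu
      rw [mul_sum]
      refine sum_congr rfl fun s _ => ?_
      rw [hK]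
      push_cast
      ring
    rw [h1, h2]
    have h3 : ∑ s ∈ SMz ℓ (M : ℝ), (pc ((H * K - 1) / s) (((H + 1) * K - 1) / s) : ℝ) + TC ℓ M K H -
        ∑ s ∈ SMz ℓ (M : ℝ), (K : ℝ) / (s * Real.log ((H : ℝ) * K / s)) =
        ∑ s ∈ SMz ℓ (M : ℝ), ((pc ((H * K - 1) / s) (((H + 1) * K - 1) / s) : ℝ) -
          K / (s * Real.log ((H : ℝ) * K / s))) + TC ℓ M K H := by
      rw [sum_sub_distrib]; ring
    rw [h3]
    refine (abs_add_le _ _).trans ?_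
    rw [abs_of_nonneg (show (0 : ℝ) ≤ TC ℓ M K H from Nat.cast_nonneg _)]
    have := abs_sum_le_sum_abs (fun s => (pc ((H * K - 1) / s) (((H + 1) * K - 1) / s) : ℝ) -
          K / (s * Real.log ((H : ℝ) * K / s))) (SMz ℓ (M : ℝ))
    linarith
  refine (sum_le_sum hstep).trans ?_
  rw [sum_add_distrib, sum_comm]
  -- the terms
  have hper : ∀ s ∈ SMz ℓ (M : ℝ), ∑ H ∈ Ico H0 H1, |(pc ((H * K - 1) / s) (((H + 1) * K - 1) / s) : ℝ) -
      K / (s * Real.log ((H : ℝ) * K / s))| ≤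
      (2 ^ ω * 2 ^ (c + 1) * 3 ^ (A + 3) / (ω : ℝ) ^ (A + 3)) * (s : ℝ)⁻¹ + 6 * 2 ^ (r + c) := by
    intro s hs
    rw [mem_SMz (by positivity)] at hs
    have hs0 := SM_pos hs.1
    have hsM : s ≤ M := by exact_mod_cast hs.2
    have hA := hcondA s hs0 hsM
    have h1 := hone X K s hs0 (le_trans (Nat.mul_le_mul_right _ (by omega)) hA) (hcondB s hs0 hsM)
      (hcondC s hs0 hsM) H0 H1 hH1K hH0K
    refine h1.trans ?_
    have hsr : (0 : ℝ) < s := by exact_mod_cast hs0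
    have hXs : (X : ℝ) / s ≤ ((X / s + 1 : ℕ) : ℝ) := by
      have h3 : X < (X / s) * s + s := Nat.lt_div_mul_add (by omega)
      rw [div_le_iff₀ hsr]
      have h4 : X ≤ (X / s + 1) * s := by
        have : (X / s + 1) * s = (X / s) * s + s := by ring
        omega
      exact_mod_cast h4
    have hXs2 : ((X / s + 1 : ℕ) : ℝ) ≤ 2 * (X / s) := by
      push_cast
      have h3 : ((X / s : ℕ) : ℝ) ≤ X / s := Nat.cast_div_le
      have h4 : (1 : ℝ) ≤ X / s := by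
        rw [le_div_iff₀ hsr, one_mul]
        have : s ≤ X := le_trans (Nat.le_mul_of_pos_left s (by omega)) hA
        exact_mod_cast this
      linarith
    have hlog : (ω : ℝ) / 3 ≤ Real.log ((X / s + 1 : ℕ) : ℝ) := by
      have h3 : (2 : ℝ) ^ ((ω : ℝ) / 2) ≤ ((X / s + 1 : ℕ) : ℝ) := by
        refine le_trans ?_ hXs
        rw [le_div_iff₀ hsr]
        have h4 : (s : ℝ) ≤ 2 ^ (j : ℝ) := by rw [← hMr]; exact hs.2
        calc (2 : ℝ) ^ ((ω : ℝ) / 2) * s ≤ 2 ^ ((ω : ℝ) / 2) * 2 ^ (j : ℝ) :=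
              mul_le_mul_of_nonneg_left h4 (by positivity)
          _ = 2 ^ ((ω : ℝ) / 2 + j) := by rw [← Real.rpow_add (by norm_num)]
          _ ≤ 2 ^ ((ω : ℝ) - c) := by
              apply Real.rpow_le_rpow_of_exponent_le (by norm_num)
              have : (0 : ℝ) ≤ c := Nat.cast_nonneg c
              linarith
          _ ≤ X := hXlo
      have h5 := Real.log_le_log (by positivity) h3
      rw [Real.log_rpow (by norm_num)] at h5
      have h6 := Real.log_two_gt_d9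
      nlinarith
    have hden : ((ω : ℝ) / 3) ^ (A + 3) ≤ (Real.log ((X / s + 1 : ℕ) : ℝ)) ^ (A + 3) :=
      pow_le_pow_left₀ (by positivity) hlog _
    have g1 : ((X / s + 1 : ℕ) : ℝ) / (Real.log ((X / s + 1 : ℕ) : ℝ)) ^ (A + 3) ≤
        (2 ^ ω * 2 ^ (c + 1) * 3 ^ (A + 3) / (ω : ℝ) ^ (A + 3)) * (s : ℝ)⁻¹ := by
      calc ((X / s + 1 : ℕ) : ℝ) / (Real.log ((X / s + 1 : ℕ) : ℝ)) ^ (A + 3) ≤
            (2 * (X / s)) / ((ω : ℝ) / 3) ^ (A + 3) := div_le_div₀ (by positivity) hXs2 (by positivity) hden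
        _ ≤ (2 * ((2 ^ ω * 2 ^ c) / s)) / ((ω : ℝ) / 3) ^ (A + 3) := by gcongr
        _ = _ := by
            rw [div_pow, pow_add 2 c 1]
            field_simp
    have g2 : 6 * (((H1 - H0 : ℕ) : ℝ)) ≤ 6 * 2 ^ (r + c) := by
      have : ((H1 - H0 : ℕ) : ℝ) ≤ ((2 ^ (r + c) : ℕ) : ℝ) := by exact_mod_cast (by omega : H1 - H0 ≤ 2 ^ (r + c))
      push_cast at this
      linarith
    linarith
  have hTC := TC_total (ℓ := ℓ) (M := M) (K := K) hM1 hH hH1K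
  refine (add_le_add (sum_le_sum hper) hTC).trans ?_
  rw [sum_add_distrib, ← mul_sum, sum_const, nsmul_eq_mul]
  have hV : ∑ s ∈ SMz ℓ (M : ℝ), (s : ℝ)⁻¹ ≤ (CV * (Λ + 1)) * ω := by
    refine (sum_le_VV ℓ _ fun n hn => ((mem_SMz (by positivity)).1 hn).1).trans (l7.trans ?_)
    rw [mul_assoc]
    apply mul_le_mul_of_nonneg_left _ hCV.le
    have := Real.log_le_sub_one_of_pos hℓ0
    nlinarith
  have hcardM : ((SMz ℓ (M : ℝ)).card : ℝ) ≤ M := by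
    have : (SMz ℓ (M : ℝ)).card ≤ (Icc 1 M).card := by
      apply card_le_card
      intro s hs
      rw [mem_SMz (by positivity)] at hs
      rw [mem_Icc]
      exact ⟨SM_pos hs.1, by exact_mod_cast hs.2⟩
    rw [Nat.card_Icc, Nat.add_sub_cancel] at this
    exact_mod_cast this
  -- three bounds
  have hωA : (0 : ℝ) < (ω : ℝ) ^ A := by positivity
  have p1 : (2 ^ ω * 2 ^ (c + 1) * 3 ^ (A + 3) / (ω : ℝ) ^ (A + 3)) * ∑ s ∈ SMz ℓ (M : ℝ), (s : ℝ)⁻¹ ≤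
      2 ^ ω / (ω : ℝ) ^ (A + 1) := by
    calc _ ≤ (2 ^ ω * 2 ^ (c + 1) * 3 ^ (A + 3) / (ω : ℝ) ^ (A + 3)) * ((CV * (Λ + 1)) * ω) :=
          mul_le_mul_of_nonneg_left hV (by positivity)
      _ = 2 ^ ω * (2 ^ (c + 1) * 3 ^ (A + 3) * (CV * (Λ + 1))) / (ω : ℝ) ^ (A + 2) := by
          rw [show A + 3 = (A + 2) + 1 by ring, pow_succ (ω : ℝ) (A + 2)]
          field_simp
      _ ≤ 2 ^ ω * ω / (ω : ℝ) ^ (A + 2) := by gcongr
      _ = 2 ^ ω / (ω : ℝ) ^ (A + 1) := by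
          rw [show A + 2 = (A + 1) + 1 by ring, pow_succ (ω : ℝ) (A + 1)]
          field_simp
  have p2 : ((SMz ℓ (M : ℝ)).card : ℝ) * (6 * 2 ^ (r + c)) ≤ 2 ^ ω / (ω : ℝ) ^ (A + 1) := by
    rw [le_div_iff₀ (by positivity)]
    calc ((SMz ℓ (M : ℝ)).card : ℝ) * (6 * 2 ^ (r + c)) * (ω : ℝ) ^ (A + 1)
        ≤ M * (6 * 2 ^ (r + c)) * (ω : ℝ) ^ (A + 1) := by gcongr
      _ = M * 2 ^ r * (6 * 2 ^ c * (ω : ℝ) ^ (A + 1)) := by rw [pow_add]; ring
      _ ≤ 2 ^ (j : ℝ) * 2 ^ (r : ℝ) * 2 ^ ((1 / 8 : ℝ) * ω) := by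
          rw [hMr, ← two_pow_cast r]
          exact mul_le_mul_of_nonneg_left l4 (by positivity)
      _ = 2 ^ ((j : ℝ) + r + (1 / 8 : ℝ) * ω) := by
          rw [← Real.rpow_add (by norm_num), ← Real.rpow_add (by norm_num)]
      _ ≤ 2 ^ (ω : ℝ) := by
          apply Real.rpow_le_rpow_of_exponent_le (by norm_num)
          have : 0 ≤ ε * ω := by positivity
          linarith
      _ = 2 ^ ω := (two_pow_cast ω).symm
  have p3 : (X : ℝ) * ((M : ℝ) ^ (-(1 / 2) : ℝ) * ZZ ℓ) ≤ 2 ^ ω / (ω : ℝ) ^ (A + 1) := by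
    rw [le_div_iff₀ (by positivity)]
    have q1 : (M : ℝ) ^ (-(1 / 2) : ℝ) ≤ 2 * 2 ^ (-(ε * ω / 8)) := by
      rw [hMr, ← Real.rpow_mul (by norm_num)]
      have : (2 : ℝ) * 2 ^ (-(ε * ω / 8)) = 2 ^ (1 + -(ε * ω / 8)) := by
        rw [Real.rpow_add (by norm_num), Real.rpow_one]
      rw [this]
      apply Real.rpow_le_rpow_of_exponent_le (by norm_num)
      linarith
    have q2 : ZZ ℓ ≤ 2 ^ (ε * ω / 16) := by
      refine l6.trans ?_
      rw [Real.rpow_def_of_pos (by norm_num)]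
      apply Real.exp_le_exp.2
      have hl2 := Real.log_pos one_lt_two
      calc ε * Real.log 2 / (16 * (Λ + 1)) * ℓ ≤ ε * Real.log 2 / (16 * (Λ + 1)) * ((Λ + 1) * ω) := by
            apply mul_le_mul_of_nonneg_left _ (by positivity)
            nlinarith
        _ = Real.log 2 * (ε * ω / 16) := by field_simp
    calc (X : ℝ) * ((M : ℝ) ^ (-(1 / 2) : ℝ) * ZZ ℓ) * (ω : ℝ) ^ (A + 1)
        ≤ 2 ^ ω * 2 ^ c * ((2 * 2 ^ (-(ε * ω / 8))) * 2 ^ (ε * ω / 16)) * (ω : ℝ) ^ (A + 1) := by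
          gcongr
          all_goals first | exact ZZ_nonneg ℓ | exact mul_nonneg (by positivity) (ZZ_nonneg ℓ)
      _ = 2 ^ ω * (2 ^ (-(ε * ω / 8)) * 2 ^ (ε * ω / 16)) * (2 ^ c * 2 * (ω : ℝ) ^ (A + 1)) := by ring
      _ ≤ 2 ^ ω * (2 ^ (-(ε * ω / 8)) * 2 ^ (ε * ω / 16)) * 2 ^ (ε / 16 * ω) := by
          exact mul_le_mul_of_nonneg_left l5 (by positivity)
      _ = 2 ^ ω * (2 ^ (-(ε * ω / 8) + ε * ω / 16 + ε / 16 * ω)) := by
          rw [Real.rpow_add (by norm_num), Real.rpow_add (by norm_num)]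
          ring
      _ = 2 ^ ω := by
          rw [show -(ε * ω / 8) + ε * ω / 16 + ε / 16 * ω = 0 by ring, Real.rpow_zero, mul_one]
  have p4 : 3 * ((2 : ℝ) ^ ω / (ω : ℝ) ^ (A + 1)) ≤ 2 ^ ω / (ω : ℝ) ^ A := by
    rw [pow_succ, ← mul_div_assoc, div_le_div_iff₀ (by positivity) (by positivity)]
    have : (0 : ℝ) < 2 ^ ω := by positivity
    nlinarith [mul_pos this hωA]
  linarith

end Pool.Agent.H176R
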