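import Mathlib
import Pool.Agent.H176R.Rgh3
import Pool.Agent.H305R2.Mean

set_option autoImplicit false

/-!
# The conditional means given the leading digits
-/

namespace Pool.Agent.H176R

open Pool.Agent.H176M

open Finset Filter MeasureTheory
open Pool.Agent.H305R2 (roughPart SM SMz SM_pos mem_SMz VV sum_le_VV NN ff FF FF_sub FF_mono FF_sub_le LL LL_eq
  LL_nonneg LL_le_one ff_nonneg ff_le_one measurable_ff integrableOn_ff mem_Ioc_log)
open Pool.Agent.W66 (VV_le_log)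

/-- the density is at most `C log ω / ω`, and varies slowly -/
lemma nu_bounds (ε : ℝ) (hε : 0 < ε) (hε1 : ε ≤ 1 / 12) (c Λ : ℕ) : ∃ C : ℝ, 0 < C ∧ ∃ L₀ : ℕ, ∀ ω : ℕ, L₀ ≤ ω →
    ∀ ℓ : ℕ, ℓ ≤ Λ * ω → ω ≤ Λ * ℓ → ∀ K H : ℕ, 2 ^ ω ≤ 2 ^ c * (H * K) →
    (0 ≤ nu ℓ (Mb ε ω) K H ∧ nu ℓ (Mb ε ω) K H ≤ C * (Real.log ω / ω)) ∧
    ∀ H' : ℕ, 2 ^ ω ≤ 2 ^ c * (H' * K) → H ≤ 100 * H' → H' ≤ 100 * H →
      |nu ℓ (Mb ε ω) K H - nu ℓ (Mb ε ω) K H'| ≤ C * (Real.log ω / (ω : ℝ) ^ 2) := by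
  obtain ⟨CV, hCV, hVev⟩ := VV_le_log
  obtain ⟨L₁, hL⟩ := eventually_atTop.1 (hVev.and (tendsto_natCast_atTop_atTop.eventually_ge_atTop
    (16 * (c : ℝ) + 100 + Λ)))
  refine ⟨16 * CV * 10, by positivity, Λ * L₁ + Λ + L₁ + 1, fun ω hω ℓ hℓω hωℓ K H hH => ?_⟩
  obtain ⟨_, l20⟩ := hL ω (by omega)
  have hΛ0 : (0 : ℝ) ≤ Λ := Nat.cast_nonneg Λ
  have l2 : 16 * (c : ℝ) + 100 ≤ ω := by linarith
  have hℓL : L₁ + 1 ≤ ℓ := by
    by_contra hcon
    have h1 : Λ * ℓ ≤ Λ * L₁ := Nat.mul_le_mul_left _ (by omega)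
    omega
  obtain ⟨l10, _⟩ := hL ℓ (by omega)
  have hℓr : (ℓ : ℝ) ≤ Λ * ω := by exact_mod_cast hℓω
  have hℓ0 : (0 : ℝ) < ℓ := by exact_mod_cast (by omega : 0 < ℓ)
  have l1 : VV ℓ ≤ 2 * CV * Real.log ω := by
    refine l10.trans ?_
    have hω1 : (0 : ℝ) < ω := by exact_mod_cast (by omega : 0 < ω)
    have hcc : (0 : ℝ) ≤ c := Nat.cast_nonneg c
    have h1 : Real.log ℓ ≤ 2 * Real.log ω := by
      have h2 : (ℓ : ℝ) ≤ ω ^ 2 := by nlinarith
      have h3 := Real.log_le_log hℓ0 h2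
      rw [Real.log_pow] at h3
      push_cast at h3
      exact h3
    nlinarith
  have hω0 : (0 : ℝ) < ω := by exact_mod_cast (by omega : 0 < ω)
  have hc0 : (0 : ℝ) ≤ c := Nat.cast_nonneg c
  -- lower bound of the logarithms
  have hlog : ∀ H' : ℕ, 2 ^ ω ≤ 2 ^ c * (H' * K) → ∀ s ∈ SMz ℓ ((Mb ε ω : ℕ) : ℝ),
      (0 : ℝ) < s ∧ (ω : ℝ) / 4 ≤ Real.log ((H' : ℝ) * K / s) ∧ (0 : ℝ) < H' ∧ (0 : ℝ) < K := by
    intro H' hH' s hs
    rw [mem_SMz (by positivity)] at hs
    have hs0 : (0 : ℝ) < s := by exact_mod_cast SM_pos hs.1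
    have h1 : ((2 ^ ω : ℕ) : ℝ) ≤ ((2 ^ c * (H' * K) : ℕ) : ℝ) := by exact_mod_cast hH'
    push_cast at h1
    have h3 : (0 : ℝ) < (H' : ℝ) * K := by
      by_contra hcon
      have : (H' : ℝ) * K = 0 := le_antisymm (not_lt.1 hcon) (by positivity)
      rw [this, mul_zero] at h1
      have : (0 : ℝ) < 2 ^ ω := by positivity
      linarith
    have hH'0 : (0 : ℝ) < H' := by
      by_contra hcon
      have : (H' : ℝ) = 0 := le_antisymm (not_lt.1 hcon) (by positivity)
      rw [this, zero_mul] at h3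
      exact lt_irrefl _ h3
    have hK0 : (0 : ℝ) < K := pos_of_mul_pos_right h3 hH'0.le
    refine ⟨hs0, ?_, hH'0, hK0⟩
    have h2 : (s : ℝ) ≤ 2 ^ ((1 / 48 : ℝ) * ω) := by
      refine hs.2.trans ?_
      unfold Mb
      push_cast
      rw [two_pow_cast]
      apply Real.rpow_le_rpow_of_exponent_le (by norm_num)
      refine (Nat.floor_le (by positivity)).trans ?_
      have : ε * ω ≤ 1 / 12 * ω := mul_le_mul_of_nonneg_right hε1 hω0.le
      linarith
    have h4 : (2 : ℝ) ^ ((ω : ℝ) / 2) ≤ (H' : ℝ) * K / s := by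
      rw [le_div_iff₀ hs0]
      have h5 : (2 : ℝ) ^ ((ω : ℝ) - c) ≤ (H' : ℝ) * K := by
        rw [Real.rpow_sub (by norm_num), Real.rpow_natCast, Real.rpow_natCast, div_le_iff₀ (by positivity)]
        linarith
      calc (2 : ℝ) ^ ((ω : ℝ) / 2) * s ≤ 2 ^ ((ω : ℝ) / 2) * 2 ^ ((1 / 48 : ℝ) * ω) :=
            mul_le_mul_of_nonneg_left h2 (by positivity)
        _ = 2 ^ ((ω : ℝ) / 2 + (1 / 48 : ℝ) * ω) := by rw [← Real.rpow_add (by norm_num)]
        _ ≤ 2 ^ ((ω : ℝ) - c) := by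
            apply Real.rpow_le_rpow_of_exponent_le (by norm_num)
            linarith
        _ ≤ (H' : ℝ) * K := h5
    have h6 := Real.log_le_log (by positivity) h4
    rw [Real.log_rpow (by norm_num)] at h6
    have h7 := Real.log_two_gt_d9
    nlinarith
  have hVV : ∑ s ∈ SMz ℓ ((Mb ε ω : ℕ) : ℝ), (s : ℝ)⁻¹ ≤ 2 * CV * Real.log ω :=
    (sum_le_VV ℓ _ fun n hn => ((mem_SMz (by positivity)).1 hn).1).trans l1
  have hll : 0 ≤ Real.log ω := Real.log_natCast_nonneg ω
  refine ⟨⟨?_, ?_⟩, ?_⟩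
  · unfold nu
    refine sum_nonneg fun s hs => ?_
    obtain ⟨g1, g2, _, _⟩ := hlog H hH s hs
    have : 0 ≤ Real.log ((H : ℝ) * K / s) := by linarith [show (0:ℝ) < (ω : ℝ) / 4 by positivity]
    positivity
  · unfold nu
    calc ∑ s ∈ SMz ℓ ((Mb ε ω : ℕ) : ℝ), 1 / ((s : ℝ) * Real.log ((H : ℝ) * K / s)) ≤
          ∑ s ∈ SMz ℓ ((Mb ε ω : ℕ) : ℝ), (4 / (ω : ℝ)) * (s : ℝ)⁻¹ := by
          refine sum_le_sum fun s hs => ?_
          obtain ⟨g1, g2, _, _⟩ := hlog H hH s hs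
          have e1 : (4 / (ω : ℝ)) * (s : ℝ)⁻¹ = 1 / (s * ((ω : ℝ) / 4)) := by field_simp
          rw [e1]
          apply one_div_le_one_div_of_le (by positivity)
          exact mul_le_mul_of_nonneg_left g2 g1.le
      _ = (4 / (ω : ℝ)) * ∑ s ∈ SMz ℓ ((Mb ε ω : ℕ) : ℝ), (s : ℝ)⁻¹ := by rw [mul_sum]
      _ ≤ (4 / (ω : ℝ)) * (2 * CV * Real.log ω) := mul_le_mul_of_nonneg_left hVV (by positivity)
      _ = 8 * CV * (Real.log ω / ω) := by ring
      _ ≤ 16 * CV * 10 * (Real.log ω / ω) := by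
          apply mul_le_mul_of_nonneg_right _ (by positivity)
          nlinarith
  · intro H' hH' hHH hHH'
    unfold nu
    rw [← sum_sub_distrib]
    refine (abs_sum_le_sum_abs _ _).trans ?_
    calc ∑ s ∈ SMz ℓ ((Mb ε ω : ℕ) : ℝ), |1 / ((s : ℝ) * Real.log ((H : ℝ) * K / s)) -
          1 / ((s : ℝ) * Real.log ((H' : ℝ) * K / s))| ≤
          ∑ s ∈ SMz ℓ ((Mb ε ω : ℕ) : ℝ), (16 * 5 / (ω : ℝ) ^ 2) * (s : ℝ)⁻¹ := by
          refine sum_le_sum fun s hs => ?_
          obtain ⟨g1, g2, g3, g4⟩ := hlog H hH s hs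
          obtain ⟨_, f2, f3, _⟩ := hlog H' hH' s hs
          set a := Real.log ((H : ℝ) * K / s) with ha
          set b := Real.log ((H' : ℝ) * K / s) with hb
          have hq : (0 : ℝ) < (ω : ℝ) / 4 := by positivity
          have ha0 : 0 < a := by linarith
          have hb0 : 0 < b := by linarith
          have hab : |b - a| ≤ 5 := by
            have e1 : b - a = Real.log (H' / H) := by
              rw [hb, ha, ← Real.log_div (by positivity) (by positivity)]
              congr 1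
              field_simp
            have hl100 : Real.log 100 ≤ 5 := by
              rw [Real.log_le_iff_le_exp (by norm_num)]
              have h1 := Real.exp_one_gt_d9
              have h2 : (2.7 : ℝ) ^ 5 ≤ Real.exp 1 ^ 5 := pow_le_pow_left₀ (by norm_num) (by linarith) 5
              rw [← Real.exp_nat_mul] at h2
              norm_num at h2
              linarith
            rw [e1, abs_le]
            constructor
            · have h1 : -Real.log 100 ≤ Real.log (H' / H) := by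
                rw [← Real.log_inv]
                apply Real.log_le_log (by norm_num)
                rw [le_div_iff₀ g3]
                have : (H : ℝ) ≤ 100 * H' := by exact_mod_cast hHH
                linarith
              linarith
            · have h1 : Real.log (H' / H) ≤ Real.log 100 := by
                apply Real.log_le_log (by positivity)
                rw [div_le_iff₀ g3]
                exact_mod_cast hHH'
              linarith
          have e2 : 1 / ((s : ℝ) * a) - 1 / ((s : ℝ) * b) = (b - a) / (s * (a * b)) := by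
            field_simp
          rw [e2, abs_div, abs_of_pos (by positivity : (0 : ℝ) < s * (a * b))]
          have h3 : ((ω : ℝ) / 4) * (ω / 4) ≤ a * b := mul_le_mul g2 f2 hq.le ha0.le
          calc |b - a| / (s * (a * b)) ≤ 5 / (s * (((ω : ℝ) / 4) * (ω / 4))) := by
                apply div_le_div₀ (by norm_num) hab (by positivity)
                exact mul_le_mul_of_nonneg_left h3 g1.le
            _ = _ := by field_simp; ring
      _ = (16 * 5 / (ω : ℝ) ^ 2) * ∑ s ∈ SMz ℓ ((Mb ε ω : ℕ) : ℝ), (s : ℝ)⁻¹ := by rw [mul_sum]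
      _ ≤ (16 * 5 / (ω : ℝ) ^ 2) * (2 * CV * Real.log ω) := mul_le_mul_of_nonneg_left hVV (by positivity)
      _ = _ := by ring

end Pool.Agent.H176R
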