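import Mathlib
import Pool.Agent.H176R.Wnd

set_option autoImplicit false

/-!
# Integrals against functions of the leading digits
-/

namespace Pool.Agent.H176R

open Pool.Agent.H176M

open Finset Filter MeasureTheory
open Pool.Agent.H305R2 (roughPart SM SMz SM_pos mem_SMz NN ff FF FF_sub FF_mono FF_sub_le LL LL_eq LL_cont
  LL_nonneg LL_le_one ff_nonneg ff_le_one measurable_ff integrableOn_ff mem_Ioc_log measurable_NN)

/-- **The integral of the centred indicator against a function of the leading digits.** -/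
theorem cond_int2 (hS : SilS) (ε : ℝ) (hε : 0 < ε) (hε1 : ε ≤ 1 / 12) (b0 : ℝ) (A Λ : ℕ) :
    ∃ C : ℝ, 0 < C ∧ ∃ L₀ : ℕ, ∀ ω : ℕ, L₀ ≤ ω → ∀ ℓ : ℕ, ℓ ≤ Λ * ω → ω ≤ Λ * ℓ →
    rr ε ω ≤ ω ∧ (∀ t ∈ Set.Icc b0 (b0 + 1), 1 / (NN (t + rr ε ω * Real.log 2) : ℝ) ≤ 1 / (ω : ℝ) ^ (A + 1)) ∧
    ∀ c0 b1 : ℝ, b0 ≤ c0 → c0 ≤ b1 → b1 ≤ b0 + 1 → ∀ (φ : ℕ → ℝ) (B : ℝ),
    (∀ n, |φ n| ≤ B) →
    |∫ t in Set.Ioc c0 b1, φ (NN (t + rr ε ω * Real.log 2)) *
        (ff ℓ (t + ω * Real.log 2) - LL ℓ (t + ω * Real.log 2))| ≤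
      C * (B / (ω : ℝ) ^ A) + C * (Real.log ω / (ω : ℝ) ^ 2) *
        ∫ t in Set.Ioc c0 b1, |φ (NN (t + rr ε ω * Real.log 2))| := by
  obtain ⟨C, hC, L1, h1⟩ := window hS ε hε hε1 b0 (A + 2) Λ
  obtain ⟨L2, h2⟩ := eventually_atTop.1 (rr_facts ε hε hε1)
  refine ⟨4 * C + 20, by positivity, L1 + L2 + 3, fun ω hω ℓ hℓω hωℓ => ?_⟩
  obtain ⟨r1, _, _⟩ := h2 ω (by omega)
  set r := rr ε ω with hr
  obtain ⟨⟨a1, a2, a3, a4⟩, hD, hnu⟩ := h1 ω (by omega) ℓ hℓω hωℓ _ _ rfl rfl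
  rw [← hr] at a1 a2 a3 a4 hD hnu
  set ha := NN (b0 - 1 / 2 + r * Real.log 2) with hha
  set hb := NN (b0 + 5 / 2 + r * Real.log 2) + 1 with hhb
  have hω3 : 3 ≤ ω := by omega
  have hωr : (3 : ℝ) ≤ ω := by exact_mod_cast hω3
  have hω0 : (0 : ℝ) < ω := by linarith
  have ha0 : (0 : ℝ) < ha := by exact_mod_cast a1
  set K := 2 ^ (ω - r) with hK
  set M := Mb ε ω with hM
  set lam := Real.log 2 with hlam
  -- positions
  have hge : ∀ t : ℝ, b0 - 1 / 2 ≤ t → ha ≤ NN (t + r * lam) := fun t ht =>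
    NN_mono (by linarith)
  have hlt : ∀ t : ℝ, t ≤ b0 + 5 / 2 → NN (t + r * lam) < hb := fun t ht => by
    have := NN_mono (show t + r * lam ≤ b0 + 5 / 2 + r * lam by linarith)
    omega
  have hinv : ∀ n : ℕ, ha ≤ n → 1 / (n : ℝ) ≤ 1 / (ω : ℝ) ^ (A + 3) := fun n hn => by
    refine le_trans ?_ a4
    apply one_div_le_one_div_of_le ha0
    exact_mod_cast hn
  have hpA : ∀ k : ℕ, k ≤ A + 3 → 1 / (ω : ℝ) ^ (A + 3) ≤ 1 / (ω : ℝ) ^ k := fun k hk => by
    apply one_div_le_one_div_of_le (by positivity)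
    exact pow_le_pow_right₀ (by linarith) hk
  have hlog2 := log_div_sq_ge hω3
  set δ := Real.log ω / (ω : ℝ) ^ 2 with hδ
  have hδ0 : 0 ≤ δ := by
    have : 0 ≤ 1 / (ω : ℝ) ^ 2 := by positivity
    linarith
  have hDH0 : ∀ H, 0 ≤ DH ε ℓ ω H := fun H => by unfold DH; exact abs_nonneg _
  -- the primitive on cells
  have hcell : ∀ H, ha ≤ H → |(FF ℓ (xx r (H + 1) + ω * lam) - FF ℓ (xx r H + ω * lam)) -
      (xx r (H + 1) - xx r H) * nu ℓ M K H| = DH ε ℓ ω H := by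
    intro H hH
    rw [xx_shift r1 (by omega), xx_shift r1 (by omega), (xx_step (by omega : 1 ≤ H)).2.2]
    unfold DH
    rw [← hr]
  -- the local mean
  have hLL : ∀ t : ℝ, b0 - 1 / 4 ≤ t → t ≤ b0 + 5 / 4 → ∀ H ∈ Ico ha hb,
      |LL ℓ (t + ω * lam) - nu ℓ M K H| ≤ (2 * C + 4) * δ := by
    intro t ht1 ht2 H hH
    set h0 := NN (t + r * lam) with hh0
    set h1 := NN (t + 1 + r * lam) with hh1
    have g0 : ha ≤ h0 := hge t (by linarith)
    have g1 : h1 < hb := hlt (t + 1) (by linarith)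
    have g2 : h0 ≤ h1 := NN_mono (by linarith)
    obtain ⟨x0, x0'⟩ := xx_bounds (r := r) (t := t) (by rw [← hh0]; omega)
    obtain ⟨x1, x1'⟩ := xx_bounds (r := r) (t := t + 1) (by rw [← hh1]; omega)
    rw [← hh0] at x0 x0'
    rw [← hh1] at x1 x1'
    obtain ⟨s1, s2, _⟩ := xx_step (r := r) (by omega : 1 ≤ h0)
    obtain ⟨s3, s4, _⟩ := xx_step (r := r) (by omega : 1 ≤ h1)
    have i0 := hinv h0 g0
    have i1 := hinv h1 (by omega)
    have hp2 := hpA 2 (by omega)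
    -- telescoping
    have tel : FF ℓ (xx r h1 + ω * lam) - FF ℓ (xx r h0 + ω * lam) =
        ∑ H' ∈ Ico h0 h1, (FF ℓ (xx r (H' + 1) + ω * lam) - FF ℓ (xx r H' + ω * lam)) :=
      (Finset.sum_Ico_sub (fun n => FF ℓ (xx r n + ω * lam)) g2).symm
    have tel2 : xx r h1 - xx r h0 = ∑ H' ∈ Ico h0 h1, (xx r (H' + 1) - xx r H') :=
      (Finset.sum_Ico_sub (fun n => xx r n) g2).symm
    have e1 : |(FF ℓ (xx r h1 + ω * lam) - FF ℓ (xx r h0 + ω * lam)) - (xx r h1 - xx r h0) * nu ℓ M K H| ≤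
        1 / (ω : ℝ) ^ (A + 2) + C * δ * (xx r h1 - xx r h0) := by
      rw [tel, tel2, sum_mul, ← sum_sub_distrib, mul_sum]
      refine (abs_sum_le_sum_abs _ _).trans ?_
      have hsub : Ico h0 h1 ⊆ Ico ha hb := Finset.Ico_subset_Ico g0 g1.le
      have hDsum : ∑ H' ∈ Ico h0 h1, DH ε ℓ ω H' ≤ 1 / (ω : ℝ) ^ (A + 2) :=
        (sum_le_sum_of_subset_of_nonneg hsub fun H' _ _ => hDH0 H').trans hD
      refine le_trans ?_ (add_le_add hDsum le_rfl)
      rw [← sum_add_distrib]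
      refine sum_le_sum fun H' hH' => ?_
      have hH'm := hsub hH'
      have m1 := hcell H' (mem_Ico.1 hH'm).1
      have m2 := (hnu H' hH'm).2 H hH
      obtain ⟨s5, _, _⟩ := xx_step (r := r) (by have := (mem_Ico.1 hH'm).1; omega : 1 ≤ H')
      have e2 : (FF ℓ (xx r (H' + 1) + ω * lam) - FF ℓ (xx r H' + ω * lam)) - (xx r (H' + 1) - xx r H') * nu ℓ M K H =
          ((FF ℓ (xx r (H' + 1) + ω * lam) - FF ℓ (xx r H' + ω * lam)) - (xx r (H' + 1) - xx r H') * nu ℓ M K H') +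
          (xx r (H' + 1) - xx r H') * (nu ℓ M K H' - nu ℓ M K H) := by ring
      rw [e2]
      refine (abs_add_le _ _).trans (add_le_add (le_of_eq m1) ?_)
      rw [abs_mul, abs_of_nonneg (by linarith), mul_comm]
      exact mul_le_mul_of_nonneg_right m2 (by linarith)
    have f0 := FF_sub_le ℓ (show xx r h0 + ω * lam ≤ t + ω * lam by linarith)
    have f0' := FF_mono ℓ (show xx r h0 + ω * lam ≤ t + ω * lam by linarith)
    have f1 := FF_sub_le ℓ (show xx r h1 + ω * lam ≤ t + 1 + ω * lam by linarith)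
    have f1' := FF_mono ℓ (show xx r h1 + ω * lam ≤ t + 1 + ω * lam by linarith)
    have hLe : LL ℓ (t + ω * lam) = FF ℓ (t + 1 + ω * lam) - FF ℓ (t + ω * lam) := by
      rw [LL_eq]; ring_nf
    have hq := (hnu H hH).1
    have hlen : |(xx r h1 - xx r h0) - 1| ≤ 1 / (ω : ℝ) ^ (A + 3) := by
      rw [abs_le]
      constructor <;> linarith
    have hlen2 : xx r h1 - xx r h0 ≤ 2 := by
      have := (abs_le.1 hlen).2
      have h5 : 1 / (ω : ℝ) ^ (A + 3) ≤ 1 := by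
        rw [div_le_one (by positivity)]
        exact one_le_pow₀ (by linarith)
      linarith
    have e3 : |(xx r h1 - xx r h0) * nu ℓ M K H - nu ℓ M K H| ≤ 1 / (ω : ℝ) ^ (A + 3) := by
      have : (xx r h1 - xx r h0) * nu ℓ M K H - nu ℓ M K H = ((xx r h1 - xx r h0) - 1) * nu ℓ M K H := by ring
      rw [this, abs_mul, abs_of_nonneg hq.1]
      calc _ ≤ 1 / (ω : ℝ) ^ (A + 3) * 1 := mul_le_mul hlen hq.2 hq.1 (by positivity)
        _ = _ := mul_one _
    have hpA2 : 1 / (ω : ℝ) ^ (A + 2) ≤ 1 / (ω : ℝ) ^ 2 := by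
      apply one_div_le_one_div_of_le (by positivity)
      exact pow_le_pow_right₀ (by linarith) (by omega)
    have e4 : C * δ * (xx r h1 - xx r h0) ≤ 2 * C * δ := by
      have h6 := mul_le_mul_of_nonneg_left hlen2 (mul_nonneg hC.le hδ0)
      linarith
    have e5 := abs_le.1 e1
    have e6 := abs_le.1 e3
    rw [hLe, abs_le]
    constructor <;> linarith [e5.1, e5.2, e6.1, e6.2]
  refine ⟨r1, ?_, fun c0 b1 hc0 hb1 hb2 φ B hφ => ?_⟩
  · intro t ht
    refine (hinv _ (hge t (by linarith [ht.1]))).trans ?_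
    exact hpA (A + 1) (by omega)
  have hB0 : 0 ≤ B := (abs_nonneg _).trans (hφ 0)
  set h0 := NN (c0 + r * lam) with hh0
  set n1 := NN (b1 + r * lam) + 1 with hn1
  have g0 : ha ≤ h0 := hge c0 (by linarith)
  have g1 : n1 ≤ hb := by have := hlt b1 (by linarith); omega
  have g2 : h0 ≤ n1 := by have := NN_mono (show c0 + r * lam ≤ b1 + r * lam by linarith); omega
  obtain ⟨x0, x0'⟩ := xx_bounds (r := r) (t := c0) (by rw [← hh0]; omega)
  have hk1 : ha ≤ NN (b1 + r * lam) := hge b1 (by linarith)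
  obtain ⟨x1, x1'⟩ := xx_bounds (r := r) (t := b1) (le_trans a1 hk1)
  rw [← hh0] at x0 x0'
  rw [← hn1] at x1'
  obtain ⟨s1, s2, _⟩ := xx_step (r := r) (by omega : 1 ≤ h0)
  obtain ⟨s3, s4, _⟩ := xx_step (r := r) (by omega : 1 ≤ NN (b1 + r * lam))
  rw [← hn1] at s3 s4
  have i0 := hinv h0 g0
  have i1 := hinv _ hk1
  have hsmall : 1 / (ω : ℝ) ^ (A + 3) ≤ 1 / 4 := by
    apply one_div_le_one_div_of_le (by norm_num)
    calc (4 : ℝ) ≤ (ω : ℝ) ^ 2 := by nlinarith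
      _ ≤ (ω : ℝ) ^ (A + 3) := pow_le_pow_right₀ (by linarith) (by omega)
  have hmono : ∀ m n : ℕ, 1 ≤ m → m ≤ n → xx r m ≤ xx r n := by
    intro m n hm hmn
    unfold xx
    have := Real.log_le_log (show (0 : ℝ) < m by exact_mod_cast hm) (show (m : ℝ) ≤ n by exact_mod_cast hmn)
    linarith
  -- the functions
  set Φ : ℝ → ℝ := fun t => φ (NN (t + r * lam)) with hΦ
  set g : ℝ → ℝ := fun t => ff ℓ (t + ω * lam) - LL ℓ (t + ω * lam) with hg
  have hΦm : Measurable Φ := (measurable_from_nat (f := φ)).comp (measurable_NN.comp (measurable_id.add_const _))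
  have hffm : Measurable (fun t => ff ℓ (t + ω * lam)) := (measurable_ff ℓ).comp (measurable_id.add_const _)
  have hLLm : Measurable (fun t => LL ℓ (t + ω * lam)) := (LL_cont ℓ).measurable.comp (measurable_id.add_const _)
  have hgm : Measurable g := hffm.sub hLLm
  have hg1 : ∀ t, |g t| ≤ 1 := fun t => by
    simp only [hg]
    rw [abs_le]
    constructor <;> linarith [ff_nonneg ℓ (t + ω * lam), ff_le_one ℓ (t + ω * lam), LL_nonneg ℓ (t + ω * lam),
      LL_le_one ℓ (t + ω * lam)]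
  have hFb : ∀ t, |Φ t * g t| ≤ B := fun t => by
    rw [abs_mul]
    calc |Φ t| * |g t| ≤ B * 1 := mul_le_mul (hφ _) (hg1 t) (abs_nonneg _) hB0
      _ = B := mul_one B
  have hFi : ∀ a b : ℝ, IntervalIntegrable (fun t => Φ t * g t) volume a b := ii_of_bdd (hΦm.mul hgm) hFb
  have hGi : ∀ a b : ℝ, IntervalIntegrable (fun t => |Φ t|) volume a b :=
    ii_of_bdd (measurable_abs.comp hΦm) (B := B) (fun t => by rw [abs_abs]; exact hφ _)
  rw [← intervalIntegral.integral_of_le hb1, ← intervalIntegral.integral_of_le hb1]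
  -- cells
  have hcellF : ∀ H ∈ Ico h0 n1, |∫ t in (xx r H)..(xx r (H + 1)), Φ t * g t| ≤
      B * DH ε ℓ ω H + (2 * C + 4) * δ * ∫ t in (xx r H)..(xx r (H + 1)), |Φ t| := by
    intro H hH
    rw [mem_Ico] at hH
    have hH1 : 1 ≤ H := by omega
    obtain ⟨u1, u2, _⟩ := xx_step (r := r) hH1
    have c1 : ∫ t in (xx r H)..(xx r (H + 1)), Φ t * g t = φ H * ∫ t in (xx r H)..(xx r (H + 1)), g t := by
      rw [← intervalIntegral.integral_const_mul]
      rw [intervalIntegral.integral_of_le u1, intervalIntegral.integral_of_le u1]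
      refine setIntegral_congr_fun measurableSet_Ioc fun t ht => ?_
      simp only [hΦ]
      rw [NN_cell hH1 ht]
    have c2 : ∫ t in (xx r H)..(xx r (H + 1)), |Φ t| = |φ H| * (xx r (H + 1) - xx r H) := by
      rw [intervalIntegral.integral_of_le u1]
      have : ∀ t ∈ Set.Ioc (xx r H) (xx r (H + 1)), |Φ t| = |φ H| := by
        intro t ht
        simp only [hΦ]
        rw [NN_cell hH1 ht]
      rw [setIntegral_congr_fun measurableSet_Ioc this, setIntegral_const, smul_eq_mul,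
        Real.volume_real_Ioc_of_le u1]
      ring
    have c3 : ∫ t in (xx r H)..(xx r (H + 1)), g t = (FF ℓ (xx r (H + 1) + ω * lam) - FF ℓ (xx r H + ω * lam)) -
        ∫ t in (xx r H)..(xx r (H + 1)), LL ℓ (t + ω * lam) := by
      simp only [hg]
      rw [intervalIntegral.integral_sub
        (ii_of_bdd hffm (B := 1) (fun t => by
          rw [abs_of_nonneg (ff_nonneg ℓ _)]; exact ff_le_one ℓ _) _ _)
        (ii_of_bdd hLLm (B := 1) (fun t => by
          rw [abs_of_nonneg (LL_nonneg ℓ _)]; exact LL_le_one ℓ _) _ _)]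
      congr 1
      rw [intervalIntegral.integral_comp_add_right (fun t => ff ℓ t), FF_sub ℓ (by linarith),
        intervalIntegral.integral_of_le (by linarith)]
    have hHb : H ∈ Ico ha hb := by rw [mem_Ico]; omega
    have lo : b0 - 1 / 4 ≤ xx r H := by
      have := hmono h0 H (by omega) hH.1
      linarith
    have hi : xx r (H + 1) ≤ b0 + 5 / 4 := by
      have := hmono (H + 1) n1 (by omega) (by omega)
      linarith
    have c4 : |(∫ t in (xx r H)..(xx r (H + 1)), LL ℓ (t + ω * lam)) - (xx r (H + 1) - xx r H) * nu ℓ M K H| ≤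
        (2 * C + 4) * δ * (xx r (H + 1) - xx r H) := by
      have e1 : (xx r (H + 1) - xx r H) * nu ℓ M K H = ∫ t in (xx r H)..(xx r (H + 1)), nu ℓ M K H := by
        rw [intervalIntegral.integral_const, smul_eq_mul]
      rw [e1, ← intervalIntegral.integral_sub
        (ii_of_bdd hLLm (B := 1) (fun t => by
          rw [abs_of_nonneg (LL_nonneg ℓ _)]; exact LL_le_one ℓ _) _ _) intervalIntegrable_const]
      have h5 := intervalIntegral.norm_integral_le_of_norm_le_const (a := xx r H) (b := xx r (H + 1))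
        (f := fun t => LL ℓ (t + ω * lam) - nu ℓ M K H) (C := (2 * C + 4) * δ)
        (fun t ht => by
          rw [Set.uIoc_of_le u1] at ht
          rw [Real.norm_eq_abs]
          exact hLL t (by linarith [ht.1]) (by linarith [ht.2]) H hHb)
      rwa [Real.norm_eq_abs, abs_of_nonneg (by linarith : 0 ≤ xx r (H + 1) - xx r H)] at h5
    have c5 := hcell H (by omega)
    rw [c1, c2, abs_mul, c3]
    have c6 : |(FF ℓ (xx r (H + 1) + ω * lam) - FF ℓ (xx r H + ω * lam)) -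
        ∫ t in (xx r H)..(xx r (H + 1)), LL ℓ (t + ω * lam)| ≤
        DH ε ℓ ω H + (2 * C + 4) * δ * (xx r (H + 1) - xx r H) := by
      refine (abs_sub_le _ ((xx r (H + 1) - xx r H) * nu ℓ M K H) _).trans ?_
      refine add_le_add (le_of_eq c5) ?_
      rw [abs_sub_comm]
      exact c4
    calc |φ H| * _ ≤ |φ H| * (DH ε ℓ ω H + (2 * C + 4) * δ * (xx r (H + 1) - xx r H)) :=
          mul_le_mul_of_nonneg_left c6 (abs_nonneg _)
      _ = |φ H| * DH ε ℓ ω H + (2 * C + 4) * δ * (|φ H| * (xx r (H + 1) - xx r H)) := by ring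
      _ ≤ _ := by
        have := mul_le_mul_of_nonneg_right (hφ H) (hDH0 H)
        linarith
  have tF := intervalIntegral.sum_integral_adjacent_intervals_Ico (f := fun t => Φ t * g t) (a := fun n => xx r n)
    (μ := volume) g2 (fun k _ => hFi _ _)
  have tG := intervalIntegral.sum_integral_adjacent_intervals_Ico (f := fun t => |Φ t|) (a := fun n => xx r n)
    (μ := volume) g2 (fun k _ => hGi _ _)
  have big : |∫ t in (xx r h0)..(xx r n1), Φ t * g t| ≤ B * (1 / (ω : ℝ) ^ (A + 2)) +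
      (2 * C + 4) * δ * ∫ t in (xx r h0)..(xx r n1), |Φ t| := by
    rw [← tF, ← tG, mul_sum]
    refine (abs_sum_le_sum_abs _ _).trans ((sum_le_sum hcellF).trans ?_)
    rw [sum_add_distrib, ← mul_sum]
    refine add_le_add ?_ le_rfl
    apply mul_le_mul_of_nonneg_left _ hB0
    exact (sum_le_sum_of_subset_of_nonneg (Finset.Ico_subset_Ico g0 g1) fun H' _ _ => hDH0 H').trans hD
  -- edges
  have ed1 := abs_int_le (F := fun t => Φ t * g t) (a := xx r h0) (b := c0) x0.le hFb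
  have ed2 := abs_int_le (F := fun t => Φ t * g t) (a := b1) (b := xx r n1) x1' hFb
  have ed3 := abs_int_le (F := fun t => |Φ t|) (a := xx r h0) (b := c0) x0.le
    (fun t => by rw [abs_abs]; exact hφ _)
  have ed4 := abs_int_le (F := fun t => |Φ t|) (a := b1) (b := xx r n1) x1'
    (fun t => by rw [abs_abs]; exact hφ _)
  have sp1 := intervalIntegral.integral_add_adjacent_intervals (hFi (xx r h0) c0) (hFi c0 b1)
  have sp2 := intervalIntegral.integral_add_adjacent_intervals (hFi (xx r h0) b1) (hFi b1 (xx r n1))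
  have sp3 := intervalIntegral.integral_add_adjacent_intervals (hGi (xx r h0) c0) (hGi c0 b1)
  have sp4 := intervalIntegral.integral_add_adjacent_intervals (hGi (xx r h0) b1) (hGi b1 (xx r n1))
  have len1 : B * (c0 - xx r h0) ≤ B * (1 / (ω : ℝ) ^ (A + 3)) :=
    mul_le_mul_of_nonneg_left (by linarith) hB0
  have len2 : B * (xx r n1 - b1) ≤ B * (1 / (ω : ℝ) ^ (A + 3)) :=
    mul_le_mul_of_nonneg_left (by linarith) hB0
  set I1 := ∫ t in c0..b1, |Φ t| with hI1
  have hI10 : 0 ≤ I1 := intervalIntegral.integral_nonneg hb1 fun t _ => abs_nonneg _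
  have gG : ∫ t in (xx r h0)..(xx r n1), |Φ t| ≤ I1 + 2 * (B * (1 / (ω : ℝ) ^ (A + 3))) := by
    have := le_abs_self (∫ t in (xx r h0)..c0, |Φ t|)
    have := le_abs_self (∫ t in b1..(xx r n1), |Φ t|)
    linarith
  have p3 : 1 / (ω : ℝ) ^ (A + 3) ≤ 1 / (ω : ℝ) ^ A := hpA A (by omega)
  have p2 : 1 / (ω : ℝ) ^ (A + 2) ≤ 1 / (ω : ℝ) ^ A := by
    apply one_div_le_one_div_of_le (by positivity)
    exact pow_le_pow_right₀ (by linarith) (by omega)
  have hδ1 : δ ≤ 1 := by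
    rw [hδ, div_le_one (by positivity)]
    have := Real.log_le_sub_one_of_pos hω0
    nlinarith
  have hCδ : 0 ≤ (2 * C + 4) * δ := by positivity
  have q1 : (2 * C + 4) * δ * ∫ t in (xx r h0)..(xx r n1), |Φ t| ≤
      (2 * C + 4) * δ * I1 + (2 * C + 4) * (2 * (B * (1 / (ω : ℝ) ^ A))) := by
    have h5 := mul_le_mul_of_nonneg_left gG hCδ
    have h6 : 0 ≤ B * (1 / (ω : ℝ) ^ (A + 3)) := by positivity
    have h7 : B * (1 / (ω : ℝ) ^ (A + 3)) ≤ B * (1 / (ω : ℝ) ^ A) := mul_le_mul_of_nonneg_left p3 hB0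
    have h8 : (2 * C + 4) * δ * (2 * (B * (1 / (ω : ℝ) ^ (A + 3)))) ≤ (2 * C + 4) * (2 * (B * (1 / (ω : ℝ) ^ A))) := by
      calc (2 * C + 4) * δ * (2 * (B * (1 / (ω : ℝ) ^ (A + 3)))) ≤
            (2 * C + 4) * 1 * (2 * (B * (1 / (ω : ℝ) ^ (A + 3)))) := by gcongr
        _ ≤ _ := by
          rw [mul_one]
          gcongr
    have h9 : (2 * C + 4) * δ * (I1 + 2 * (B * (1 / (ω : ℝ) ^ (A + 3)))) =
        (2 * C + 4) * δ * I1 + (2 * C + 4) * δ * (2 * (B * (1 / (ω : ℝ) ^ (A + 3)))) := by ring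
    linarith
  have h2' : B * (1 / (ω : ℝ) ^ (A + 2)) ≤ B * (1 / (ω : ℝ) ^ A) := mul_le_mul_of_nonneg_left p2 hB0
  have h3' : B * (1 / (ω : ℝ) ^ (A + 3)) ≤ B * (1 / (ω : ℝ) ^ A) := mul_le_mul_of_nonneg_left p3 hB0
  have hBA : B / (ω : ℝ) ^ A = B * (1 / (ω : ℝ) ^ A) := by ring
  have hmain : |∫ t in c0..b1, Φ t * g t| ≤ |∫ t in (xx r h0)..(xx r n1), Φ t * g t| +
      |∫ t in (xx r h0)..c0, Φ t * g t| + |∫ t in b1..(xx r n1), Φ t * g t| := by
    have e1 : ∫ t in c0..b1, Φ t * g t = (∫ t in (xx r h0)..(xx r n1), Φ t * g t) +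
        (-(∫ t in (xx r h0)..c0, Φ t * g t)) + (-(∫ t in b1..(xx r n1), Φ t * g t)) := by linarith
    rw [e1]
    refine (abs_add_three _ _ _).trans ?_
    rw [abs_neg, abs_neg]
  have hfin : (2 * C + 4) * δ * I1 ≤ (4 * C + 20) * δ * I1 := by
    apply mul_le_mul_of_nonneg_right _ hI10
    apply mul_le_mul_of_nonneg_right _ hδ0
    linarith
  have hX0 : 0 ≤ B * (1 / (ω : ℝ) ^ A) := by positivity
  rw [hBA]
  nlinarith

end Pool.Agent.H176R
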