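import Mathlib
import Pool.Agent.H176R.Gen
import Pool.Agent.H176C.Gen2

set_option autoImplicit false

/-!
# Real bases: correlations of distant exponents
-/

namespace Pool.Agent.H176R

open Pool.Agent.H176M (rr NN_bounds' NN_mono rr_facts log_div_sq_ge ii_of_bdd xx xx_bounds xx_step
  abs_int_le le_NN_iff LL_lip intOn_of_bdd abs_setint_le SilS silS exp_add_two Sys1)
open Pool.Agent.H176C (off_bad)
open Finset Filter Topology MeasureTheory
open Pool.Agent.H305R2 (roughPart NN ff LL LL_eq LL_cont LL_nonneg LL_le_one ff_nonneg ff_le_one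
  measurable_ff measurable_NN)
open Pool.Agent.W66X (ysh measurable_ysh)
open Pool.Agent.TH888.R (Near Sys wt)

/-- the integral of the centred indicator against a bounded function of the leading digits, on an
interval inside a window of length two -/
lemma cond2 (hS : SilS) (b0 : ℝ) (Λ : ℕ) : ∃ C : ℝ, 0 < C ∧ ∃ L₀ : ℕ, 3 ≤ L₀ ∧ ∀ ω : ℕ, L₀ ≤ ω →
    ∀ ℓ : ℕ, ℓ ≤ Λ * ω → ω ≤ Λ * ℓ →
    (∀ t ∈ Set.Icc b0 (b0 + 2), 1 / (NN (t + rr (1 / 12) ω * Real.log 2) : ℝ) ≤ 1 / (ω : ℝ) ^ 3) ∧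
    ∀ c d : ℝ, b0 ≤ c → c ≤ d → d ≤ b0 + 2 → ∀ φ : ℕ → ℝ, (∀ n, |φ n| ≤ 2) →
    |∫ t in Set.Ioc c d, φ (NN (t + rr (1 / 12) ω * Real.log 2)) *
        (ff ℓ (t + ω * Real.log 2) - LL ℓ (t + ω * Real.log 2))| ≤ C * (Real.log ω / (ω : ℝ) ^ 2) := by
  obtain ⟨C1, hC1, L1, h1⟩ := cond_int hS (1 / 12) (by norm_num) le_rfl b0 2 Λ
  obtain ⟨C2, hC2, L2, h2⟩ := cond_int hS (1 / 12) (by norm_num) le_rfl (b0 + 1) 2 Λ
  refine ⟨8 * (C1 + C2), by positivity, L1 + L2 + 3, by omega, fun ω hω ℓ hℓ1 hℓ2 => ?_⟩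
  obtain ⟨_, q2, q3⟩ := h1 ω (by omega) ℓ hℓ1 hℓ2
  obtain ⟨_, s2, s3⟩ := h2 ω (by omega) ℓ hℓ1 hℓ2
  set r := rr (1 / 12) ω with hr
  refine ⟨fun t ht => ?_, fun c d hc hcd hd φ hφ => ?_⟩
  · rcases le_or_gt t (b0 + 1) with h | h
    · exact q2 t ⟨ht.1, h⟩
    · exact s2 t ⟨h.le, by linarith [ht.2]⟩
  have hlog := log_div_sq_ge (ℓ := ω) (by omega)
  set δ := Real.log ω / (ω : ℝ) ^ 2 with hδ
  have hδ0 : 0 ≤ δ := by
    have : 0 ≤ 1 / (ω : ℝ) ^ 2 := by positivity
    linarith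
  set Φ : ℝ → ℝ := fun t => φ (NN (t + r * Real.log 2)) with hΦ
  set g : ℝ → ℝ := fun t => ff ℓ (t + ω * Real.log 2) - LL ℓ (t + ω * Real.log 2) with hg
  have hΦm : Measurable Φ := (measurable_from_nat (f := φ)).comp (measurable_NN.comp (measurable_id.add_const _))
  have hgm : Measurable g := ((measurable_ff ℓ).comp (measurable_id.add_const _)).sub
    ((LL_cont ℓ).measurable.comp (measurable_id.add_const _))
  have hg1 : ∀ t, |g t| ≤ 1 := fun t => by
    simp only [hg]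
    rw [abs_le]
    constructor <;> linarith [ff_nonneg ℓ (t + ω * Real.log 2), ff_le_one ℓ (t + ω * Real.log 2),
      LL_nonneg ℓ (t + ω * Real.log 2), LL_le_one ℓ (t + ω * Real.log 2)]
  have hFb : ∀ t, |Φ t * g t| ≤ 2 := fun t => by
    rw [abs_mul]
    calc |Φ t| * |g t| ≤ 2 * 1 := mul_le_mul (hφ _) (hg1 t) (abs_nonneg _) (by norm_num)
      _ = 2 := by norm_num
  have hFi : ∀ a b : ℝ, IntervalIntegrable (fun t => Φ t * g t) volume a b := ii_of_bdd (hΦm.mul hgm) hFb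
  -- one piece
  have piece : ∀ (x0 C : ℝ), 0 < C → (∀ b1 : ℝ, x0 ≤ b1 → b1 ≤ x0 + 1 → ∀ (φ : ℕ → ℝ) (B : ℝ),
      (∀ n, |φ n| ≤ B) → |∫ t in Set.Ioc x0 b1, φ (NN (t + r * Real.log 2)) *
        (ff ℓ (t + ω * Real.log 2) - LL ℓ (t + ω * Real.log 2))| ≤
      C * (B / (ω : ℝ) ^ 2) + C * δ * ∫ t in Set.Ioc x0 b1, |φ (NN (t + r * Real.log 2))|) →
      ∀ b1 : ℝ, x0 ≤ b1 → b1 ≤ x0 + 1 → |∫ t in x0..b1, Φ t * g t| ≤ 4 * C * δ := by
    intro x0 C hC h b1 h01 h11
    have e1 := h b1 h01 h11 φ 2 hφ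
    rw [intervalIntegral.integral_of_le h01]
    have e2 : ∫ t in Set.Ioc x0 b1, |φ (NN (t + r * Real.log 2))| ≤ 2 := by
      have h5 := abs_setint_le (F := fun t => |φ (NN (t + r * Real.log 2))|) (B := 2) h01
        (fun t _ => by rw [abs_abs]; exact hφ _)
      have h6 := le_abs_self (∫ t in Set.Ioc x0 b1, |φ (NN (t + r * Real.log 2))|)
      linarith
    have e3 : C * δ * ∫ t in Set.Ioc x0 b1, |φ (NN (t + r * Real.log 2))| ≤ C * δ * 2 :=
      mul_le_mul_of_nonneg_left e2 (by positivity)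
    have e4 : C * (2 / (ω : ℝ) ^ 2) ≤ C * (2 * δ) := by
      apply mul_le_mul_of_nonneg_left _ hC.le
      have : 2 / (ω : ℝ) ^ 2 = 2 * (1 / (ω : ℝ) ^ 2) := by ring
      rw [this]
      linarith
    calc |∫ t in Set.Ioc x0 b1, Φ t * g t| ≤ C * (2 / (ω : ℝ) ^ 2) +
          C * δ * ∫ t in Set.Ioc x0 b1, |φ (NN (t + r * Real.log 2))| := e1
      _ ≤ _ := by linarith
  have P1 := piece b0 C1 hC1 q3
  have P2 := piece (b0 + 1) C2 hC2 (fun b1 h01 h11 => s3 b1 h01 h11)
  have from0 : ∀ x, b0 ≤ x → x ≤ b0 + 2 → |∫ t in b0..x, Φ t * g t| ≤ 4 * (C1 + C2) * δ := by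
    intro x hx0 hx2
    have n2 : 0 ≤ 4 * C2 * δ := by positivity
    rcases le_or_gt x (b0 + 1) with h | h
    · have := P1 x hx0 h
      linarith
    · have e1 := P1 (b0 + 1) (by linarith) le_rfl
      have e2 := P2 x h.le (by linarith)
      rw [← intervalIntegral.integral_add_adjacent_intervals (hFi b0 (b0 + 1)) (hFi (b0 + 1) x)]
      have := abs_add_le (∫ t in b0..(b0 + 1), Φ t * g t) (∫ t in (b0 + 1)..x, Φ t * g t)
      linarith
  have e1 := from0 c hc (by linarith)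
  have e2 := from0 d (by linarith) hd
  have e3 := intervalIntegral.integral_add_adjacent_intervals (hFi b0 c) (hFi c d)
  show |∫ t in Set.Ioc c d, Φ t * g t| ≤ 8 * (C1 + C2) * δ
  rw [← intervalIntegral.integral_of_le hcd]
  have e4 : ∫ t in c..d, Φ t * g t = (∫ t in b0..d, Φ t * g t) - ∫ t in b0..c, Φ t * g t := by linarith
  rw [e4]
  have := abs_sub (∫ t in b0..d, Φ t * g t) (∫ t in b0..c, Φ t * g t)
  linarith

variable [Rb]

/-- the centred indicator of the event that the `p`-rough part is prime -/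
noncomputable def gc (p : ℕ) (t : ℝ) : ℝ := fp p t - lp p t

lemma gc_meas (p : ℕ) : Measurable (gc p) := (measurable_fp p).sub (measurable_lp p)

lemma gc_abs (p : ℕ) (t : ℝ) : |gc p t| ≤ 1 := by
  unfold gc
  rw [abs_le]
  constructor <;> linarith [fp_nonneg p t, fp_le_one p t, lp_nonneg p t, lp_le_one p t]

omit [Rb] in
lemma log_lip {a g' s' s : ℝ} (ha : 0 < a) (hg : |g'| ≤ 1 / 10 * (Real.exp s' * a)) (hs : s' ≤ s) :
    Real.log (Real.exp s' * a + g') ≤ Real.log (Real.exp s * a + g') ∧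
      Real.log (Real.exp s * a + g') - Real.log (Real.exp s' * a + g') ≤ 2 * (s - s') := by
  set y := Real.exp s' * a with hy
  have hy0 : 0 < y := by positivity
  have h5 := neg_abs_le g'
  have h3 : 0 < y + g' := by linarith
  have hx : Real.exp s * a = Real.exp (s - s') * y := by
    rw [hy, ← mul_assoc, ← Real.exp_add]
    congr 2
    ring
  set q := Real.exp (s - s') with hq
  have hq1 : 1 ≤ q := Real.one_le_exp (by linarith)
  have h3' : 0 < Real.exp s * a + g' := by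
    rw [hx]
    nlinarith
  constructor
  · apply Real.log_le_log h3
    rw [hx]
    nlinarith
  · rw [← Real.exp_le_exp, Real.exp_sub, Real.exp_log h3, Real.exp_log h3', div_le_iff₀ h3]
    have h4 : Real.exp (2 * (s - s')) = q ^ 2 := by rw [hq, ← Real.exp_nat_mul]; norm_num
    rw [hx, h4]
    have h8 : 0 ≤ (q - 1) * (q * y + (q + 1) * g') := by
      apply mul_nonneg (by linarith)
      nlinarith
    nlinarith

omit [Rb] in
lemma ff_log {p : ℕ} {x : ℝ} (hx : 0 < x) :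
    ff p (Real.log x) = if (roughPart p (⌈x⌉₊ - 1)).Prime then 1 else 0 := by
  unfold ff NN
  rw [Real.exp_log hx]

lemma far (hS : SilS) (b0 : ℝ) : ∃ K : ℝ, 0 < K ∧ ∃ P : ℕ, 3 ≤ P ∧ ∀ q ≥ P, ∀ p ≥ P, 2 * p ≤ q →
    |∫ t in Set.Ioc b0 (b0 + 1), gc p t * gc q t| ≤ K * (Real.log q / (q : ℝ) ^ 2) := by
  have ha0 : (0 : ℝ) < Rb.α := al_pos
  have hla : 0 < Real.log Rb.α := Real.log_pos Rb.one_lt
  have hl2 := Real.log_pos one_lt_two
  set lam := Real.log 2 with hlam
  set ρ := Real.log Rb.α / lam with hρ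
  have hρ0 : 0 < ρ := by positivity
  have hρl : ρ * lam = Real.log Rb.α := by rw [hρ]; field_simp
  obtain ⟨Λ, hΛ⟩ := exists_nat_ge (ρ + 2 / ρ + 1)
  have hΛρ : ρ ≤ Λ := by
    have : 0 < 2 / ρ := by positivity
    linarith
  have hΛρ2 : 2 / ρ ≤ Λ := by linarith
  have hΛ1 : (1 : ℝ) ≤ Λ := by
    have : 0 < 2 / ρ := by positivity
    linarith
  obtain ⟨C, hC, L0, hL0, hc⟩ := cond2 hS b0 Λ
  obtain ⟨P3, hP33, hcov⟩ := cov b0 2
  obtain ⟨P0, hP0⟩ := eventually_atTop.1 (small (b0 - 2) 0)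
  set K0 : ℝ := (Real.exp 2 + 1 + 2 * Real.exp (-b0)) * 4 with hK0
  have hK00 : 0 < K0 := by positivity
  have hexp : ∀ᶠ q : ℕ in atTop, K0 * (q : ℝ) ^ 2 ≤ (2 : ℝ) ^ ((ρ / 12 : ℝ) * q) := by
    have h1 := (isLittleO_pow_exp_pos_mul_atTop 2 (b := ρ / 12 * Real.log 2)
      (by positivity)).bound (show (0 : ℝ) < 1 / K0 by positivity)
    have h2 := tendsto_natCast_atTop_atTop (R := ℝ) |>.eventually h1
    filter_upwards [h2] with q hq
    rw [Real.norm_of_nonneg (by positivity), Real.norm_of_nonneg (by positivity), one_div,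
      inv_mul_eq_div, le_div_iff₀ hK00] at hq
    have e1 : (2 : ℝ) ^ ((ρ / 12 : ℝ) * q) = Real.exp (ρ / 12 * Real.log 2 * q) := by
      rw [Real.rpow_def_of_pos (by norm_num)]
      congr 1
      ring
    rw [e1]
    linarith
  obtain ⟨P4, hP4⟩ := eventually_atTop.1 (hexp.and
    ((tendsto_natCast_atTop_atTop (R := ℝ)).eventually_ge_atTop ((2 * (L0 : ℝ) + 4) / ρ)))
  refine ⟨4 + 8 / ρ ^ 2 + C * ((1 + Real.log Λ) * (4 / ρ ^ 2)), by
    have := Real.log_nonneg hΛ1
    positivity, P0 + P3 + P4 + 3, by omega, fun q hq p hpP hp => ?_⟩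
  obtain ⟨l1, l2⟩ := hP4 q (by omega)
  have hsp := hP0 p (by omega)
  have hsq := hP0 q (by omega)
  rw [pow_zero, mul_one] at hsp hsq
  have hq3 : (3 : ℝ) ≤ q := by exact_mod_cast (by omega : 3 ≤ q)
  have hq0 : (0 : ℝ) < q := by linarith
  have hlq : 1 ≤ Real.log q := by
    rw [Real.le_log_iff_exp_le hq0]
    have := Real.exp_one_lt_d9
    linarith
  have hρq : 2 * (L0 : ℝ) + 4 ≤ ρ * q := by
    rw [div_le_iff₀ hρ0] at l2
    linarith
  -- the binary exponent
  set ω := ⌊ρ * q⌋₊ with hω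
  have w1 : (ω : ℝ) ≤ ρ * q := Nat.floor_le (by positivity)
  have w2 : ρ * q < ω + 1 := Nat.lt_floor_add_one _
  have hL00 : (0 : ℝ) ≤ L0 := Nat.cast_nonneg _
  have w3 : ρ * q / 2 ≤ ω := by linarith
  have w4 : L0 ≤ ω := by
    have : (L0 : ℝ) ≤ ω := by linarith
    exact_mod_cast this
  have hω0 : (0 : ℝ) < ω := by exact_mod_cast (by omega : 0 < ω)
  have w5 : ω ≤ Λ * q := by
    have : (ω : ℝ) ≤ Λ * q := w1.trans (mul_le_mul_of_nonneg_right hΛρ hq0.le)
    exact_mod_cast this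
  have w6 : q ≤ Λ * ω := by
    have h1 : (q : ℝ) ≤ Λ * ω := by
      calc (q : ℝ) = 2 / ρ * (ρ * q / 2) := by field_simp
        _ ≤ Λ * ω := mul_le_mul hΛρ2 w3 (by positivity) (by positivity)
    exact_mod_cast h1
  obtain ⟨hn, hmain⟩ := hc ω w4 q w6 w5
  set r := rr (1 / 12) ω with hr
  set δ := q * Real.log Rb.α - ω * lam with hδ
  have hδ0 : 0 ≤ δ := by
    have := mul_le_mul_of_nonneg_right w1 hl2.le
    rw [hδ, ← hρl]
    linarith
  have hδ1 : δ ≤ 1 := by
    have h1 := mul_le_mul_of_nonneg_right w2.le hl2.le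
    have h2 : lam ≤ 1 := by
      have := Real.log_two_lt_d9
      linarith
    rw [hδ, ← hρl]
    linarith
  -- the scale
  set αp : ℝ := (Rb.α : ℝ) ^ p with hαp
  set αq : ℝ := (Rb.α : ℝ) ^ q with hαq
  have hαp0 : 0 < αp := pow_pos ha0 _
  have hαq0 : 0 < αq := pow_pos ha0 _
  have hαp1 : 1 ≤ αp := one_le_pow₀ Rb.one_lt.le
  have h2ω : (0 : ℝ) < 2 ^ ω := by positivity
  have h2r : (0 : ℝ) < 2 ^ r := by positivity
  have eω : Real.exp (ω * lam) = 2 ^ ω := by
    have := exp_add_two 0 ω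
    rwa [zero_add, Real.exp_zero, one_mul] at this
  have eq' : Real.exp (q * Real.log Rb.α) = αq := by
    have := exp_add_al 0 q
    rwa [zero_add, Real.exp_zero, one_mul] at this
  have eδ : Real.exp δ = αq / 2 ^ ω := by rw [hδ, Real.exp_sub, eω, eq']
  set a : ℝ := Real.exp (-δ) * αp with ha
  have ha1 : 0 < a := by positivity
  have ha2 : a = 2 ^ ω / αq * αp := by
    rw [ha, Real.exp_neg, eδ, inv_div]
  have haα : a ≤ αp := by
    have : Real.exp (-δ) ≤ 1 := Real.exp_le_one_iff.2 (by linarith)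
    calc a ≤ 1 * αp := mul_le_mul_of_nonneg_right this hαp0.le
      _ = αp := one_mul _
  have hp2 : 2 * (p : ℝ) ≤ q := by exact_mod_cast hp
  have r1 : 7 / 12 * (ω : ℝ) < r + 1 := by
    have h5 : ((2 / 3 - 1 / 12) * (ω : ℝ)) < (rr (1 / 12) ω : ℝ) + 1 := by
      unfold rr
      exact Nat.lt_floor_add_one _
    rw [hr]
    linarith
  have hratio : αp * 2 ^ ((ρ / 12 : ℝ) * q) ≤ 4 * 2 ^ r := by
    have e1 : αp = (2 : ℝ) ^ (ρ * p) := by
      rw [Real.rpow_def_of_pos (by norm_num), ← hlam, show lam * (ρ * p) = 0 + p * Real.log Rb.α by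
        rw [← hρl]; ring, exp_add_al, Real.exp_zero, one_mul]
    have e2 : (4 : ℝ) * 2 ^ r = (2 : ℝ) ^ ((2 : ℝ) + r) := by
      rw [Real.rpow_add (by norm_num), Real.rpow_natCast]
      norm_num
    rw [e1, e2, ← Real.rpow_add (by norm_num)]
    apply Real.rpow_le_rpow_of_exponent_le (by norm_num)
    have h5 : ρ * p ≤ ρ * q / 2 := by nlinarith
    have h6 : ρ / 12 * q = ρ * q / 12 := by ring
    linarith
  have hE12 : (1 : ℝ) ≤ 2 ^ ((ρ / 12 : ℝ) * q) := Real.one_le_rpow (by norm_num) (by positivity)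
  have hαr : αp / 2 ^ r ≤ 4 * (1 / 2 ^ ((ρ / 12 : ℝ) * q)) := by
    rw [mul_one_div, div_le_div_iff₀ h2r (by positivity)]
    exact hratio
  have hK4 : (4 : ℝ) ≤ K0 := by
    rw [hK0]
    have h1 := Real.exp_pos 2
    have h2 := Real.exp_pos (-b0)
    linarith
  have hsmall : 4 * (1 / 2 ^ ((ρ / 12 : ℝ) * q)) ≤ (4 / K0) * (1 / (q : ℝ) ^ 2) := by
    rw [mul_one_div, div_mul_div_comm, div_le_div_iff₀ (by positivity) (by positivity), mul_one]
    linarith
  have har : a ≤ 2 ^ r := by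
    have h1 : αp / 2 ^ r ≤ 1 := by
      refine hαr.trans (hsmall.trans ?_)
      have h2 : 4 / K0 ≤ 1 := (div_le_one hK00).2 hK4
      have h3 : 1 / (q : ℝ) ^ 2 ≤ 1 := by
        rw [div_le_one (by positivity)]
        nlinarith
      calc 4 / K0 * (1 / (q : ℝ) ^ 2) ≤ 1 * 1 := mul_le_mul h2 h3 (by positivity) (by norm_num)
        _ = 1 := by norm_num
    rw [div_le_one h2r] at h1
    exact haα.trans h1
  -- the perturbation
  set g' : ℝ := gr' p - gr' q * (αp / αq) with hg'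
  have hg'b : |g'| ≤ 1 / 5 * (Real.exp (b0 - 2) * αp) := by
    have h1 : |gr' q * (αp / αq)| ≤ 1 / 10 * (Real.exp (b0 - 2) * αp) := by
      rw [abs_mul, abs_of_pos (div_pos hαp0 hαq0)]
      calc |gr' q| * (αp / αq) ≤ (1 / 10 * (Real.exp (b0 - 2) * αq)) * (αp / αq) :=
            mul_le_mul_of_nonneg_right hsq (by positivity)
        _ = _ := by field_simp
    have := abs_sub (gr' p) (gr' q * (αp / αq))
    linarith
  obtain ⟨E, ψ, hE, hψ, hEμ⟩ := bad g' ha1 har b0
  set μ : ℝ := (Real.exp (b0 + 2) * a + |g'| + 2) * (Real.exp (-b0) / (2 : ℝ) ^ r) with hμ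
  have hμ0 : 0 ≤ μ := by positivity
  have hμ1 : μ ≤ 1 / (q : ℝ) ^ 2 := by
    have g1 : Real.exp (b0 - 2) ≤ Real.exp b0 := Real.exp_le_exp.2 (by linarith)
    have g2 : Real.exp (b0 + 2) * a + |g'| + 2 ≤ (Real.exp (b0 + 2) + Real.exp b0 + 2) * αp := by
      have h1 := mul_le_mul_of_nonneg_left haα (Real.exp_pos (b0 + 2)).le
      have h2 := mul_le_mul_of_nonneg_right g1 hαp0.le
      have h3 : 0 < Real.exp (b0 - 2) * αp := by positivity
      linarith
    calc μ ≤ (Real.exp (b0 + 2) + Real.exp b0 + 2) * αp * (Real.exp (-b0) / (2 : ℝ) ^ r) :=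
          mul_le_mul_of_nonneg_right g2 (by positivity)
      _ = (Real.exp (b0 + 2) * Real.exp (-b0) + Real.exp b0 * Real.exp (-b0) + 2 * Real.exp (-b0)) *
          (αp / 2 ^ r) := by ring
      _ = (K0 / 4) * (αp / 2 ^ r) := by
          rw [← Real.exp_add, ← Real.exp_add, show b0 + 2 + -b0 = 2 by ring, add_neg_cancel, Real.exp_zero,
            hK0]
          ring
      _ ≤ (K0 / 4) * ((4 / K0) * (1 / (q : ℝ) ^ 2)) :=
          mul_le_mul_of_nonneg_left (hαr.trans hsmall) (by positivity)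
      _ = 1 / (q : ℝ) ^ 2 := by field_simp
  -- the inverse phase function
  set v : ℝ → ℝ := fun u => Real.log (Real.exp u - gr' q) - q * Real.log Rb.α with hv
  have hvm : Measurable v := (Real.measurable_log.comp (Real.measurable_exp.sub_const _)).sub_const _
  set G : ℝ → ℝ := fun u => ff q u - LL q u with hG
  have hGm : Measurable G := (measurable_ff q).sub (LL_cont q).measurable
  have hG1 : ∀ u, |G u| ≤ 1 := fun u => by
    simp only [hG]
    rw [abs_le]
    constructor <;> linarith [ff_nonneg q u, ff_le_one q u, LL_nonneg q u, LL_le_one q u]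
  set F1 : ℝ → ℝ := fun u => gc p (v u) * G u with hF1
  have hF1m : Measurable F1 := ((gc_meas p).comp hvm).mul hGm
  have hF1b : ∀ u, |F1 u| ≤ 1 := fun u => by
    simp only [hF1]
    rw [abs_mul]
    calc _ ≤ 1 * 1 := mul_le_mul (gc_abs p _) (hG1 u) (abs_nonneg _) zero_le_one
      _ = 1 := mul_one _
  have c1 := hcov q (by omega) (b0 + 1) (by linarith) le_rfl F1 1 hF1m hF1b
  have hsq' : |gr' q| ≤ 1 / 10 * (Real.exp b0 * (Rb.α : ℝ) ^ q) := by
    refine hsq.trans ?_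
    have g1 : Real.exp (b0 - 2) ≤ Real.exp b0 := Real.exp_le_exp.2 (by linarith)
    have := mul_le_mul_of_nonneg_right g1 hαq0.le
    linarith
  have e1 : ∫ t in Set.Ioc b0 (b0 + 1), F1 (yp q t) = ∫ t in Set.Ioc b0 (b0 + 1), gc p t * gc q t := by
    refine setIntegral_congr_fun measurableSet_Ioc fun t ht => ?_
    obtain ⟨k1, _, _⟩ := exp_yp (le_refl (1 / 10 : ℝ)) hsq' ht.1.le
    have hvy : v (yp q t) = t := by
      simp only [hv]
      rw [k1, add_sub_cancel_right, ← exp_add_al, Real.log_exp]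
      ring
    simp only [hF1]
    rw [hvy]
    rfl
  rw [e1] at c1
  -- the shift
  have e2 : ∫ t in Set.Ioc b0 (b0 + 1), F1 (t + q * Real.log Rb.α) =
      ∫ s in Set.Ioc (b0 + δ) (b0 + 1 + δ), F1 (s + ω * lam) := by
    rw [← intervalIntegral.integral_of_le (by linarith), ← intervalIntegral.integral_of_le (by linarith),
      ← intervalIntegral.integral_comp_add_right (fun s => F1 (s + ω * lam))]
    refine intervalIntegral.integral_congr fun t _ => ?_
    show F1 (t + q * Real.log Rb.α) = F1 (t + δ + ω * lam)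
    congr 1
    rw [hδ]
    ring
  rw [e2] at c1
  set c := b0 + δ with hcd
  set d := b0 + 1 + δ with hdd
  have hcd1 : c ≤ d := by linarith
  set Y : ℝ → ℝ := fun s => Real.log (Real.exp s * a + g') with hY
  have hexpa : ∀ s, Real.exp s * a = Real.exp (s - δ) * αp := fun s => by
    rw [ha, ← mul_assoc, ← Real.exp_add, sub_eq_add_neg]
  have hga : ∀ s, b0 + δ - 1 ≤ s → |g'| ≤ 1 / 10 * (Real.exp s * a) := fun s hs => by
    refine hg'b.trans ?_
    rw [hexpa]
    have h1 : 2 * Real.exp (b0 - 2) ≤ Real.exp (s - δ) := by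
      have h2 : (2 : ℝ) ≤ Real.exp 1 := by have := Real.exp_one_gt_d9; linarith
      calc 2 * Real.exp (b0 - 2) ≤ Real.exp 1 * Real.exp (b0 - 2) :=
            mul_le_mul_of_nonneg_right h2 (Real.exp_pos _).le
        _ = Real.exp (b0 - 1) := by rw [← Real.exp_add]; congr 1; ring
        _ ≤ _ := Real.exp_le_exp.2 (by linarith)
    have h3 := mul_le_mul_of_nonneg_right h1 hαp0.le
    linarith
  have hposY : ∀ s, b0 + δ - 1 ≤ s → 0 < Real.exp s * a + g' := fun s hs => by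
    have h1 := hga s hs
    have h2 := neg_abs_le g'
    have h3 : 0 < Real.exp s * a := by positivity
    linarith
  have hgcv : ∀ s ∈ Set.Ioc c d, gc p (v (s + ω * lam)) = ff p (Y s) - LL p (Y s) := by
    intro s hs
    have e0 : 0 < Real.exp s * 2 ^ ω - gr' q := by
      have h1 := hsq'
      have h2 : Real.exp b0 * αq ≤ Real.exp s * 2 ^ ω := by
        have h3 : αq = Real.exp δ * 2 ^ ω := by rw [eδ]; field_simp
        rw [h3, ← mul_assoc, ← Real.exp_add]
        apply mul_le_mul_of_nonneg_right _ h2ω.le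
        exact Real.exp_le_exp.2 hs.1.le
      have h3 : 0 < Real.exp b0 * αq := by positivity
      have := le_abs_self (gr' q)
      linarith
    have e3 : yp p (v (s + ω * lam)) = Y s := by
      simp only [hv, hY]
      unfold yp ysh
      rw [exp_add_two, Real.exp_sub, Real.exp_log e0, eq']
      congr 1
      rw [ha2, hg']
      field_simp
      ring
    unfold gc fp lp
    rw [e3]
  set h : ℕ → ℝ := fun n => if (roughPart p n).Prime then (1 : ℝ) else 0 with hh
  have hh01 : ∀ n, 0 ≤ h n ∧ h n ≤ 1 := fun n => by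
    simp only [hh]
    split_ifs <;> norm_num
  set φ : ℕ → ℝ := fun n => h (ψ n) - LL p (Y (xx r n)) with hφ
  have hφ2 : ∀ n, |φ n| ≤ 2 := fun n => by
    simp only [hφ]
    have := hh01 (ψ n)
    have a1 := LL_nonneg p (Y (xx r n))
    have a2 := LL_le_one p (Y (xx r n))
    rw [abs_le]
    constructor <;> linarith [this.1, this.2]
  have m1 := hmain c d (by linarith) hcd1 (by linarith) φ hφ2
  have hN1' : ∀ s ∈ Set.Ioc c d, 1 ≤ NN (s + r * lam) := by
    intro s hs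
    rw [le_NN_iff, Nat.cast_one, exp_add_two]
    have g1 : (2 : ℝ) ^ ((ρ / 12 : ℝ) * q) ≤ αp * 2 ^ ((ρ / 12 : ℝ) * q) :=
      le_mul_of_one_le_left (by positivity) hαp1
    have g2 : K0 ≤ K0 * (q : ℝ) ^ 2 := le_mul_of_one_le_right hK00.le (by nlinarith)
    have g3 : K0 ≤ 4 * 2 ^ r := by linarith
    have g4 : 2 * Real.exp (-b0) ≤ 2 ^ r := by
      rw [hK0] at g3
      have h1 := Real.exp_pos 2
      linarith
    have g5 : Real.exp b0 * (2 * Real.exp (-b0)) = 2 := by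
      have : Real.exp b0 * Real.exp (-b0) = 1 := by rw [← Real.exp_add, add_neg_cancel, Real.exp_zero]
      linarith
    have g6 : Real.exp b0 * (2 * Real.exp (-b0)) ≤ Real.exp s * 2 ^ r :=
      mul_le_mul (Real.exp_le_exp.2 (by linarith [hs.1])) g4 (by positivity) (Real.exp_pos s).le
    linarith
  -- the difference
  set D : ℝ → ℝ := fun s => F1 (s + ω * lam) - φ (NN (s + r * lam)) * G (s + ω * lam) with hD
  have hφm : Measurable (fun s : ℝ => φ (NN (s + r * lam))) :=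
    (measurable_from_nat (f := φ)).comp (measurable_NN.comp (measurable_id.add_const _))
  have hF1s : Measurable (fun s : ℝ => F1 (s + ω * lam)) := hF1m.comp (measurable_id.add_const _)
  have hGs : Measurable (fun s : ℝ => G (s + ω * lam)) := hGm.comp (measurable_id.add_const _)
  have hDm : Measurable D := hF1s.sub (hφm.mul hGs)
  have hφG : ∀ s, |φ (NN (s + r * lam)) * G (s + ω * lam)| ≤ 2 := fun s => by
    rw [abs_mul]
    calc _ ≤ 2 * 1 := mul_le_mul (hφ2 _) (hG1 _) (abs_nonneg _) (by norm_num)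
      _ = 2 := by norm_num
  have hDb : ∀ s, |D s| ≤ 3 := fun s => by
    have g1 := hF1b (s + ω * lam)
    have g2 := hφG s
    have := abs_sub (F1 (s + ω * lam)) (φ (NN (s + r * lam)) * G (s + ω * lam))
    simp only [hD]
    linarith
  have hDi : IntegrableOn D (Set.Ioc c d) := intOn_of_bdd hDm hDb _ _
  have hd1 : |∫ s in Set.Ioc c d, E.indicator D s| ≤ 3 * μ := by
    refine off_bad hE hμ0 hEμ (by norm_num) (fun t => ?_) (fun t _ htE => Set.indicator_of_notMem htE _)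
    by_cases h : t ∈ E
    · rw [Set.indicator_of_mem h]; exact hDb t
    · rw [Set.indicator_of_notMem h, abs_zero]; norm_num
  have hω31 : 1 / (ω : ℝ) ^ 3 ≤ 1 / 2 := by
    apply one_div_le_one_div_of_le (by norm_num)
    have h3 : (3 : ℝ) ≤ ω := by exact_mod_cast (by omega : 3 ≤ ω)
    calc (2 : ℝ) ≤ 3 ^ 3 := by norm_num
      _ ≤ (ω : ℝ) ^ 3 := pow_le_pow_left₀ (by norm_num) h3 3
  have hd2 : |∫ s in Set.Ioc c d, Eᶜ.indicator D s| ≤ 2 * (1 / (ω : ℝ) ^ 3) * (d - c) := by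
    refine abs_setint_le hcd1 fun s hs => ?_
    by_cases hsE : s ∈ E
    · rw [Set.indicator_of_notMem (by simpa using hsE), abs_zero]
      positivity
    rw [Set.indicator_of_mem (by simpa using hsE)]
    have hs2 : s ∈ Set.Ioc b0 (b0 + 2) := ⟨by linarith [hs.1], by linarith [hs.2]⟩
    have hNs := hn s ⟨hs2.1.le, hs2.2⟩
    have hN1 : 1 ≤ NN (s + r * lam) := hN1' s hs
    obtain ⟨x1, x2⟩ := xx_bounds hN1
    obtain ⟨s1, s2, _⟩ := xx_step (r := r) hN1
    have hψs := hψ s hs2 hsE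
    have hx0 : c - 1 ≤ xx r (NN (s + r * lam)) := by linarith [hs.1]
    have hYl := log_lip ha1 (hga _ hx0) x1.le
    have hLl := LL_lip p hYl.1
    have e5 : D s = (LL p (Y (xx r (NN (s + r * lam)))) - LL p (Y s)) * G (s + ω * lam) := by
      simp only [hD, hF1]
      rw [hgcv s hs]
      simp only [hφ]
      rw [← hψs]
      have e6 : ff p (Y s) = h (⌈Real.exp s * a + g'⌉₊ - 1) := by
        simp only [hY, hh]
        exact ff_log (hposY s (by linarith [hs.1]))
      rw [e6]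
      ring
    rw [e5, abs_mul]
    calc _ ≤ (2 * (1 / (ω : ℝ) ^ 3)) * 1 := by
          apply mul_le_mul _ (hG1 _) (abs_nonneg _) (by positivity)
          rw [abs_sub_comm]
          have h7 := hYl.2
          linarith
      _ = _ := mul_one _
  have hDsum : ∫ s in Set.Ioc c d, D s = (∫ s in Set.Ioc c d, E.indicator D s) +
      ∫ s in Set.Ioc c d, Eᶜ.indicator D s := by
    rw [← integral_add (hDi.indicator hE) (hDi.indicator hE.compl)]
    refine integral_congr_ae (Eventually.of_forall fun s => ?_)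
    exact (congrFun (Set.indicator_self_add_compl E D) s).symm
  have hDs : ∫ s in Set.Ioc c d, D s = (∫ s in Set.Ioc c d, F1 (s + ω * lam)) -
      ∫ s in Set.Ioc c d, φ (NN (s + r * lam)) * G (s + ω * lam) := by
    simp only [hD]
    rw [integral_sub (intOn_of_bdd (F := fun s => F1 (s + ω * lam)) hF1s (B := 1) (fun s => hF1b _) _ _)
      (intOn_of_bdd (F := fun s => φ (NN (s + r * lam)) * G (s + ω * lam)) (hφm.mul hGs) (B := 2) hφG _ _)]
  have m1' : |∫ s in Set.Ioc c d, φ (NN (s + r * lam)) * G (s + ω * lam)| ≤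
      C * (Real.log ω / (ω : ℝ) ^ 2) := m1
  set I := ∫ t in Set.Ioc b0 (b0 + 1), gc p t * gc q t with hI
  set J0 := ∫ s in Set.Ioc c d, F1 (s + ω * lam) with hJ0
  set J1 := ∫ s in Set.Ioc c d, φ (NN (s + r * lam)) * G (s + ω * lam) with hJ1
  have hdc : d - c = 1 := by rw [hcd, hdd]; ring
  rw [hdc, mul_one] at hd2
  have k1 : |J0 - J1| ≤ 3 * μ + 2 * (1 / (ω : ℝ) ^ 3) := by
    rw [← hDs, hDsum]
    exact (abs_add_le _ _).trans (add_le_add hd1 hd2)
  rw [one_mul] at c1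
  have k2 : |I| ≤ 1 / (q : ℝ) ^ 2 + (3 * μ + 2 * (1 / (ω : ℝ) ^ 3)) + C * (Real.log ω / (ω : ℝ) ^ 2) := by
    have a1 := abs_sub_abs_le_abs_sub I J0
    have a2 := abs_sub_abs_le_abs_sub J0 J1
    rw [abs_sub_comm] at c1
    have a3 := abs_sub_comm I J0
    linarith
  -- the sizes
  have hq2 : 1 / (q : ℝ) ^ 2 ≤ Real.log q / (q : ℝ) ^ 2 := by
    apply div_le_div_of_nonneg_right hlq (by positivity)
  set Lq := Real.log q / (q : ℝ) ^ 2 with hLq
  have hω1 : (1 : ℝ) ≤ ω := by exact_mod_cast (by omega : 1 ≤ ω)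
  have hω2 : 1 / (ω : ℝ) ^ 2 ≤ 4 / ρ ^ 2 * (1 / (q : ℝ) ^ 2) := by
    have h1 : (ρ * q / 2) ^ 2 ≤ (ω : ℝ) ^ 2 := pow_le_pow_left₀ (by positivity) w3 2
    calc 1 / (ω : ℝ) ^ 2 ≤ 1 / (ρ * q / 2) ^ 2 := one_div_le_one_div_of_le (by positivity) h1
      _ = _ := by field_simp; norm_num
  have hω3 : 1 / (ω : ℝ) ^ 3 ≤ 1 / (ω : ℝ) ^ 2 := by
    apply one_div_le_one_div_of_le (by positivity)
    exact pow_le_pow_right₀ hω1 (by norm_num)
  have hlω : Real.log ω ≤ (1 + Real.log Λ) * Real.log q := by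
    have h1 : (ω : ℝ) ≤ Λ * q := by exact_mod_cast w5
    have h2 := Real.log_le_log hω0 h1
    rw [Real.log_mul (by linarith) (by linarith)] at h2
    have h3 := Real.log_nonneg hΛ1
    nlinarith
  have k3 : Real.log ω / (ω : ℝ) ^ 2 ≤ (1 + Real.log Λ) * (4 / ρ ^ 2) * Lq := by
    calc Real.log ω / (ω : ℝ) ^ 2 = Real.log ω * (1 / (ω : ℝ) ^ 2) := by ring
      _ ≤ ((1 + Real.log Λ) * Real.log q) * (4 / ρ ^ 2 * (1 / (q : ℝ) ^ 2)) := by
          have h3 := Real.log_nonneg hΛ1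
          exact mul_le_mul hlω hω2 (by positivity) (by positivity)
      _ = _ := by rw [hLq]; ring
  have k4 := mul_le_mul_of_nonneg_left k3 hC.le
  have k5 : 2 * (1 / (ω : ℝ) ^ 3) ≤ 8 / ρ ^ 2 * Lq := by
    calc 2 * (1 / (ω : ℝ) ^ 3) ≤ 2 * (4 / ρ ^ 2 * (1 / (q : ℝ) ^ 2)) := by linarith
      _ = 8 / ρ ^ 2 * (1 / (q : ℝ) ^ 2) := by ring
      _ ≤ _ := mul_le_mul_of_nonneg_left hq2 (by positivity)
  have k6 : (4 + 8 / ρ ^ 2 + C * ((1 + Real.log Λ) * (4 / ρ ^ 2))) * Lq =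
      4 * Lq + 8 / ρ ^ 2 * Lq + C * ((1 + Real.log Λ) * (4 / ρ ^ 2) * Lq) := by ring
  rw [k6]
  linarith

/-- the system -/
lemma sys_rb (b0 : ℝ) : Sys (volume.restrict (Set.Ioc b0 (b0 + 1))) (fun p t => fp p t) (fun p t => lp p t)
    (fun _ => Real.exp Real.eulerMascheroniConstant / Real.log Rb.α) :=
  Pool.Agent.TH888.R.sys_ysh (α := Rb.α) (κ := Rb.κ) (C := Rb.C) (g := gr')
    Rb.one_lt Rb.κ0 Rb.κb gr'_bound Rb.near b0

/-- **the row sums of the correlation matrix** -/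
theorem rows (hS : SilS) (b0 : ℝ) : ∃ C : ℝ, 0 < C ∧ ∃ P : ℕ, 3 ≤ P ∧
    (∀ q ≥ P, q.Prime → ∫ t in Set.Ioc b0 (b0 + 1), (fp q t - lp q t) ^ 2 ≤
      C * wt q) ∧
    ∀ q ≥ P, q.Prime → ∀ T : Finset ℕ, (∀ p ∈ T, p.Prime ∧ P ≤ p ∧ p < q) →
      ∑ p ∈ T, |∫ t in Set.Ioc b0 (b0 + 1), (fp p t - lp p t) *
        (fp q t - lp q t)| ≤ C * wt q := by
  obtain ⟨κ, C, hκ, hC, P1, hP13, hdiag, hrow⟩ := (sys_rb b0).row
  obtain ⟨K, hK, P2, hP2, hfar⟩ := far hS b0
  obtain ⟨C1, hC1, hcp⟩ := Pool.Agent.W66S.count_primes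
  refine ⟨C * (1 + 2 * C1) + K, by positivity, P1 + P2, by omega, fun q hq hqp => ?_, fun q hq hqp T hT => ?_⟩
  · refine (hdiag q (by omega) hqp).trans ?_
    have := Pool.Agent.TH888.R.wt_nonneg q
    have : C ≤ C * (1 + 2 * C1) + K := by nlinarith
    gcongr
  have hq3 : (3 : ℝ) ≤ q := by exact_mod_cast (by omega : 3 ≤ q)
  have hq0 : (0 : ℝ) < q := by linarith
  have hlq : 1 ≤ Real.log q := by
    rw [Real.le_log_iff_exp_le hq0]
    have := Real.exp_one_lt_d9
    linarith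
  rw [← Finset.sum_filter_add_sum_filter_not T (fun p => 2 * p ≤ q)]
  have e1 : ∑ p ∈ T.filter (fun p => 2 * p ≤ q), |∫ t in Set.Ioc b0 (b0 + 1),
      (fp p t - lp p t) *
        (fp q t - lp q t)| ≤ K * wt q := by
    calc _ ≤ ∑ p ∈ T.filter (fun p => 2 * p ≤ q), K * (Real.log q / (q : ℝ) ^ 2) := by
          refine sum_le_sum fun p hp => ?_
          rw [mem_filter] at hp
          exact hfar q (by omega) p (by have := (hT p hp.1).2.1; omega) hp.2
      _ = ((T.filter (fun p => 2 * p ≤ q)).card : ℝ) * (K * (Real.log q / (q : ℝ) ^ 2)) := by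
          rw [sum_const, nsmul_eq_mul]
      _ ≤ q * (K * (Real.log q / (q : ℝ) ^ 2)) := by
          apply mul_le_mul_of_nonneg_right _ (by positivity)
          have : (T.filter (fun p => 2 * p ≤ q)).card ≤ (range q).card := card_le_card fun p hp => by
            rw [mem_filter] at hp
            exact mem_range.2 (hT p hp.1).2.2
          rw [card_range] at this
          exact_mod_cast this
      _ = K * wt q := by
          unfold wt
          field_simp
  set T' := T.filter (fun p => ¬ 2 * p ≤ q) with hT'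
  have e2 := hrow q (by omega) hqp T' (fun p hp => by
    rw [hT', mem_filter] at hp
    obtain ⟨a1, a2, a3⟩ := hT p hp.1
    exact ⟨a1, by omega, a3⟩)
  have e3 : ∑ p ∈ T'.filter (fun p : ℕ => κ * q / Real.log q < (p : ℝ)), wt p ≤ 2 * C1 := by
    calc _ ≤ ∑ p ∈ T', wt p := sum_le_sum_of_subset_of_nonneg (filter_subset _ _)
            fun p _ _ => Pool.Agent.TH888.R.wt_nonneg p
      _ ≤ ∑ p ∈ T', 2 * Real.log q / q := by
          refine sum_le_sum fun p hp => ?_
          rw [hT', mem_filter] at hp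
          obtain ⟨a1, a2, a3⟩ := hT p hp.1
          have b1 : (q : ℝ) ≤ 2 * p := by exact_mod_cast (by omega : q ≤ 2 * p)
          have b2 : (p : ℝ) ≤ q := by exact_mod_cast a3.le
          have b3 : (0 : ℝ) < p := by exact_mod_cast a1.pos
          unfold wt
          rw [div_le_div_iff₀ b3 hq0]
          have b4 : Real.log p ≤ Real.log q := Real.log_le_log b3 b2
          calc Real.log p * q ≤ Real.log q * (2 * p) := by gcongr
            _ = _ := by ring
      _ = (T'.card : ℝ) * (2 * Real.log q / q) := by rw [sum_const, nsmul_eq_mul]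
      _ ≤ (C1 * q / Real.log q) * (2 * Real.log q / q) := by
          apply mul_le_mul_of_nonneg_right _ (by positivity)
          exact hcp q (by omega) T' fun p hp => by
            rw [hT', mem_filter] at hp
            obtain ⟨a1, a2, a3⟩ := hT p hp.1
            exact ⟨a1, a3⟩
      _ = 2 * C1 := by field_simp
  have e4 : C * (wt q * (1 + ∑ p ∈ T'.filter (fun p : ℕ => κ * q / Real.log q < (p : ℝ)), wt p)) ≤
      C * (1 + 2 * C1) * wt q := by
    have := Pool.Agent.TH888.R.wt_nonneg q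
    calc _ ≤ C * (wt q * (1 + 2 * C1)) := by gcongr
      _ = _ := by ring
  linarith

end Pool.Agent.H176R
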