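import Mathlib
import Pool.Agent.H176R.Far
import Pool.Agent.TH888.R.Asy
import Pool.Agent.H19P.QA

set_option autoImplicit false

/-!
# Real bases: the law for every set of primes of divergent weight
-/

namespace Pool.Agent.H176R

open Pool.Agent.H176M (SilS silS Sys1 bigO_set1 bigO_all1)
open Finset Filter Topology MeasureTheory Asymptotics
open Pool.Agent.H305R2 (roughPart ff LL)
open Pool.Agent.TH888.R (wt gr VS cS Sys Near VS_univ_tendsto ae_windows)
open Pool.Agent.W66X (ysh ae_of_exp' exp_ysh pert8)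
open Pool.Agent.H447R2.ML (ff_eq_floor)

section

variable [Rb]

/-- the system in the base `α` -/
theorem sys1_rb (hS : SilS) (b0 : ℝ) : Sys1 (volume.restrict (Set.Ioc b0 (b0 + 1)))
    (fun p t => fp p t) (fun p t => lp p t)
    (fun _ => Real.exp Real.eulerMascheroniConstant / Real.log Rb.α) :=
  ⟨sys_rb b0, rows hS b0⟩

end

variable {α κ C : ℝ} {g : ℕ → ℝ}

/-- **The integers `⌊β α ^ p + g p⌋`, for every set of primes of divergent weight.** -/
theorem law_floor (hα : 1 < α) (hκ0 : 0 ≤ κ) (hκ : κ < α) (hg : ∀ p, |g p| ≤ C * κ ^ p)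
    (hnear : Near α g) (S : Set ℕ) (hdiv : Tendsto (VS S) atTop atTop) : ∀ᵐ β : ℝ, 0 < β →
    ∃ B : ℝ, 0 ≤ B ∧ ∀ n : ℕ, |(cS S (fun p => ⌊β * α ^ p + g p⌋₊) n : ℝ) -
      Real.exp Real.eulerMascheroniConstant / Real.log α * VS S n| ≤ B * gr (VS S n) := by
  letI : Rb := ⟨α, g, κ, C, hα, hκ0, hκ, hg, hnear⟩
  have hα0 : 0 < α := by linarith
  have h2 : ∀ᵐ t : ℝ, ∀ p m : ℕ, Real.exp t * α ^ p + g p ≠ m := by
    have hnull : volume (⋃ p : ℕ, ⋃ m : ℕ, {t : ℝ | Real.exp t * α ^ p + g p = m}) = 0 := by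
      refine Set.Countable.measure_zero ?_ volume
      refine Set.countable_iUnion fun p => Set.countable_iUnion fun m => ?_
      refine Set.Subsingleton.countable ?_
      intro s hs t ht
      simp only [Set.mem_ofPred_eq] at hs ht
      have h3 : Real.exp s * α ^ p = Real.exp t * α ^ p := by linarith
      exact Real.exp_injective (mul_right_cancel₀ (pow_pos hα0 p).ne' h3)
    have hae : ∀ᵐ t : ℝ, t ∉ ⋃ p : ℕ, ⋃ m : ℕ, {t : ℝ | Real.exp t * α ^ p + g p = m} := by
      rw [ae_iff]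
      refine measure_mono_null (fun t ht => ?_) hnull
      simpa only [Set.mem_ofPred_eq, not_not] using ht
    filter_upwards [hae] with t ht p m hm
    refine ht ?_
    simp only [Set.mem_iUnion]
    exact ⟨p, m, hm⟩
  refine ae_of_exp' (P := fun β : ℝ => ∃ B : ℝ, 0 ≤ B ∧ ∀ n : ℕ,
    |(cS S (fun p => ⌊β * α ^ p + g p⌋₊) n : ℝ) -
      Real.exp Real.eulerMascheroniConstant / Real.log α * VS S n| ≤ B * gr (VS S n))
    (ae_windows fun b0 => ?_)
  refine (sys1_rb silS b0).pt (s := fun t p => ⌊Real.exp t * α ^ p + g p⌋₊) ?_ S hdiv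
  filter_upwards [ae_restrict_of_ae h2] with t htn
  obtain ⟨P, hP⟩ := eventually_atTop.1 (pert8 hα0 hκ0 hκ hg t 8)
  exact ⟨P, fun p hp _ => ff_eq_floor (exp_ysh hα0 (hP p hp) le_rfl).2.1 (fun m => htn p m)⟩

/-- **Quadratic units as bases, for every set of primes of divergent weight.** -/
theorem law_unit {α' : ℝ} {P : ℤ} (hα : 1 < α) (hs : α + α' = P) (hm : α * α' = -1) (B : ℝ) (S : Set ℕ)
    (hdiv : Tendsto (VS S) atTop atTop) : ∀ᵐ β : ℝ, 0 < β →
    ∃ K : ℝ, 0 ≤ K ∧ ∀ n : ℕ, |(cS S (fun p => ⌊β * α ^ p + B * α' ^ p⌋₊) n : ℝ) -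
      Real.exp Real.eulerMascheroniConstant / Real.log α * VS S n| ≤ K * gr (VS S n) := by
  have hc : |α'| < 1 := by
    have h0 : 0 < α := by linarith
    have h1 : |α| * |α'| = 1 := by rw [← abs_mul, hm]; norm_num
    rw [abs_of_pos h0] at h1
    by_contra h
    nlinarith [abs_nonneg α', not_lt.1 h]
  have hg : ∀ p : ℕ, |(fun p : ℕ => B * α' ^ p) p| ≤ |B| * (1 : ℝ) ^ p := by
    intro p
    simp only
    rw [one_pow, abs_mul, abs_pow]
    exact mul_le_mul_of_nonneg_left (pow_le_one₀ (abs_nonneg _) hc.le) (abs_nonneg _)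
  have hnear : Near α (fun p : ℕ => B * α' ^ p) := fun b0 =>
    Pool.Agent.W66V.near_irr hα zero_le_one hα hg le_rfl hα
      (fun h a b hh ha hb => Pool.Agent.H19P.dio_unit hα hs hm h a b hh ha hb) b0
  exact law_floor hα zero_le_one hα hg hnear S hdiv

end Pool.Agent.H176R
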