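import Mathlib
import Pool.Agent.H176R.Cnd2
import Pool.Agent.H176R.Law

set_option autoImplicit false

/-!
# Real bases: functions of the earlier events
-/

namespace Pool.Agent.H176R

open Pool.Agent.H176M (rr NN_bounds' NN_mono rr_facts log_div_sq_ge ii_of_bdd xx xx_bounds xx_step
  abs_int_le le_NN_iff LL_lip intOn_of_bdd abs_setint_le SilS silS exp_add_two Sys1)
open Pool.Agent.H176C (off_bad)
open Finset Filter Topology MeasureTheory
open Pool.Agent.H305R2 (roughPart NN ff LL LL_eq LL_cont LL_nonneg LL_le_one ff_nonneg ff_le_one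
  measurable_ff measurable_NN)
open Pool.Agent.W66X (ysh measurable_ysh)
open Pool.Agent.TH888.R (Near Sys wt)

/-- the values of a perturbed prefix are determined by a finer prefix, off a small set -/
lemma badZ (g' : ℝ) {a : ℝ} (ha : 0 < a) {r' : ℕ} (hr : a ≤ 2 ^ r') (b0 : ℝ) : ∃ (E : Set ℝ) (ψ : ℕ → ℤ), MeasurableSet E ∧
    (∀ t ∈ Set.Ioc b0 (b0 + 2), t ∉ E → ⌈Real.exp t * a + g'⌉ = ψ (NN (t + r' * Real.log 2)) ∧
      ∀ m : ℤ, Real.exp t * a + g' ≠ m) ∧
    volume E ≤ ENNReal.ofReal ((Real.exp (b0 + 2) * a + |g'| + 3) * 2 *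
      (Real.exp (-b0) / (2 : ℝ) ^ r')) := by
  set Mx := ⌊Real.exp (b0 + 2) * a + 2 + |g'|⌋₊ with hMx
  set δ := Real.exp (-b0) / (2 : ℝ) ^ r' with hδ
  have hδ0 : 0 ≤ δ := by positivity
  have hbr : (0 : ℝ) < a := ha
  have hbr' : (0 : ℝ) < (2 : ℝ) ^ r' := by positivity
  set τ : ℤ → ℝ := fun M => Real.log (((M : ℝ) - g') / a) with hτ
  refine ⟨⋃ M ∈ Finset.Icc (-(Mx : ℤ)) Mx, Set.Icc (τ M - δ) (τ M),
    fun n => ⌈((n : ℝ) + 1) * (a / (2 : ℝ) ^ r') + g'⌉, ?_, ?_, ?_⟩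
  · exact Finset.measurableSet_biUnion _ fun M _ => measurableSet_Icc
  · intro t ht htE
    have hrr : a / (2 : ℝ) ^ r' ≤ 1 := by
      rw [div_le_one hbr']
      exact hr
    set x := Real.exp t * a + g' with hx
    have hxb : |x| ≤ Real.exp (b0 + 2) * a + |g'| := by
      have h1 : Real.exp t * a ≤ Real.exp (b0 + 2) * a := by
        have := Real.exp_le_exp.2 ht.2
        gcongr
      have h2 : 0 < Real.exp t * a := by positivity
      rw [hx, abs_le]
      have := abs_le.1 (le_refl |g'|)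
      constructor <;> linarith [this.1, this.2]
    -- an integer in `[x, x + a / 2 ^ r']` puts `t` into the set
    have key : ∀ M : ℤ, x ≤ M → (M : ℝ) ≤ x + a / (2 : ℝ) ^ r' → False := by
      intro M hxM hMX
      apply htE
      rw [Set.mem_iUnion₂]
      have hMle : |(M : ℝ)| ≤ Mx + 1 := by
        have h3 : (Real.exp (b0 + 2) * a + 2 + |g'|) < Mx + 1 := Nat.lt_floor_add_one _
        have h4 := abs_le.1 hxb
        rw [abs_le]
        constructor <;> linarith [h4.1, h4.2]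
      have hMle2 : -(Mx : ℤ) ≤ M ∧ M ≤ Mx := by
        have h3 : (Real.exp (b0 + 2) * a + 2 + |g'|) < Mx + 1 := Nat.lt_floor_add_one _
        have h4 := abs_le.1 hxb
        constructor
        · have : (-(Mx : ℝ)) - 1 < M := by linarith [h4.1]
          have : ((-(Mx : ℤ) - 1 : ℤ) : ℝ) < M := by push_cast; exact this
          have := Int.cast_lt.1 this
          omega
        · have : (M : ℝ) < Mx + 1 := by linarith [h4.2]
          have : (M : ℝ) < ((Mx + 1 : ℤ) : ℝ) := by push_cast; exact this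
          have := Int.cast_lt.1 this
          omega
      refine ⟨M, Finset.mem_Icc.2 hMle2, ?_⟩
      have h4 : Real.exp t ≤ ((M : ℝ) - g') / a := by
        rw [le_div_iff₀ hbr]
        linarith
      have hpos : 0 < ((M : ℝ) - g') / a := lt_of_lt_of_le (Real.exp_pos t) h4
      have h5 : ((M : ℝ) - g') / a ≤ Real.exp t + 1 / (2 : ℝ) ^ r' := by
        rw [div_le_iff₀ hbr]
        have e1 : (Real.exp t + 1 / (2 : ℝ) ^ r') * a = Real.exp t * a + a / (2 : ℝ) ^ r' := by ring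
        rw [e1]
        linarith
      have h6 : t ≤ τ M := by
        simp only [hτ]
        rwa [Real.le_log_iff_exp_le hpos]
      have h7 : τ M ≤ t + δ := by
        simp only [hτ]
        rw [Real.log_le_iff_le_exp hpos]
        refine h5.trans ?_
        rw [Real.exp_add]
        have h8 := Real.add_one_le_exp δ
        have h9 : 1 / (2 : ℝ) ^ r' ≤ Real.exp t * δ := by
          rw [hδ, ← mul_div_assoc, ← Real.exp_add]
          apply div_le_div_of_nonneg_right _ hbr'.le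
          exact Real.one_le_exp (by linarith [ht.1])
        have h10 := mul_le_mul_of_nonneg_left h8 (Real.exp_pos t).le
        linarith
      exact ⟨by linarith, h6⟩
    refine ⟨?_, fun m hm => key m hm.le (by rw [hm]; linarith [div_pos hbr hbr'])⟩
    by_contra hne
    obtain ⟨n1, n2⟩ := NN_bounds' (t + r' * Real.log 2)
    rw [exp_add_two] at n1 n2
    set n := NN (t + r' * Real.log 2) with hn
    set X := ((n : ℝ) + 1) * (a / (2 : ℝ) ^ r') + g' with hX
    have h1 : Real.exp t * a = Real.exp t * (2 : ℝ) ^ r' * (a / (2 : ℝ) ^ r') := by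
      field_simp
    have h2 : (0 : ℝ) ≤ a / (2 : ℝ) ^ r' := by positivity
    have hxX : x ≤ X := by
      rw [hx, hX, h1]
      have h3 := mul_le_mul_of_nonneg_right n2 h2
      linarith
    have hX2 : X ≤ x + a / (2 : ℝ) ^ r' := by
      rw [hX, hx, h1]
      have h3 := mul_le_mul_of_nonneg_right n1.le h2
      linarith
    have hc := Int.ceil_mono hxX
    have hlt : ⌈x⌉ < ⌈X⌉ := lt_of_le_of_ne hc hne
    refine key ⌈x⌉ (Int.le_ceil x) ?_
    exact (Int.lt_ceil.1 hlt).le.trans hX2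
  · calc volume (⋃ M ∈ Finset.Icc (-(Mx : ℤ)) Mx, Set.Icc (τ M - δ) (τ M)) ≤
          ∑ M ∈ Finset.Icc (-(Mx : ℤ)) Mx, volume (Set.Icc (τ M - δ) (τ M)) := measure_biUnion_finset_le _ _
      _ = ∑ M ∈ Finset.Icc (-(Mx : ℤ)) Mx, ENNReal.ofReal δ := by
          refine Finset.sum_congr rfl fun M _ => ?_
          rw [Real.volume_Icc]
          congr 1
          ring
      _ = ENNReal.ofReal ((2 * Mx + 1 : ℕ) * δ) := by
          rw [Finset.sum_const, Int.card_Icc, nsmul_eq_mul, ENNReal.ofReal_mul (by positivity),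
            ENNReal.ofReal_natCast]
          congr 2
          omega
      _ ≤ _ := by
          apply ENNReal.ofReal_le_ofReal
          apply mul_le_mul_of_nonneg_right _ hδ0
          have h1 : (Mx : ℝ) ≤ Real.exp (b0 + 2) * a + 2 + |g'| := Nat.floor_le (by positivity)
          push_cast
          linarith

lemma ff_logZ {p : ℕ} {x : ℝ} (hx : ∀ m : ℤ, x ≠ m) :
    ff p (Real.log x) = if (roughPart p (if 0 < ⌈x⌉ then (⌈x⌉ - 1).toNat else (-⌈x⌉).toNat)).Prime then 1 else 0 := by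
  have hx0 : x ≠ 0 := by simpa using hx 0
  unfold ff NN
  rw [Real.exp_log_eq_abs hx0]
  have key : ⌈|x|⌉₊ - 1 = if 0 < ⌈x⌉ then (⌈x⌉ - 1).toNat else (-⌈x⌉).toNat := by
    rcases lt_or_gt_of_ne hx0 with h | h
    · have h1 : ¬ 0 < ⌈x⌉ := by
        rw [not_lt]
        exact Int.ceil_le.2 (by simpa using h.le)
      rw [if_neg h1, abs_of_neg h]
      have h2 : ((⌈-x⌉₊ : ℕ) : ℤ) = ⌈-x⌉ := Int.natCast_ceil_eq_ceil (by linarith)
      have h3 : ⌈-x⌉ = -⌊x⌋ := Int.ceil_neg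
      have h4 : ⌈x⌉ = ⌊x⌋ + 1 := by
        apply le_antisymm (Int.ceil_le_floor_add_one x)
        have h5 : ⌊x⌋ < ⌈x⌉ := by
          rw [Int.lt_ceil]
          exact lt_of_le_of_ne (Int.floor_le x) (hx _).symm
        omega
      omega
    · have h1 : 0 < ⌈x⌉ := Int.ceil_pos.2 h
      rw [if_pos h1, abs_of_pos h]
      have h2 : ((⌈x⌉₊ : ℕ) : ℤ) = ⌈x⌉ := Int.natCast_ceil_eq_ceil h.le
      omega
  rw [key]

/-- the integral of the centred indicator against a bounded function of the leading digits, on an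
interval inside a window of length two -/
lemma cond3 (hS : SilS) (ε : ℝ) (hε : 0 < ε) (hε1 : ε ≤ 1 / 12) (b0 : ℝ) (A Λ : ℕ) :
    ∃ C : ℝ, 0 < C ∧ ∃ L₀ : ℕ, 3 ≤ L₀ ∧ ∀ ω : ℕ, L₀ ≤ ω →
    ∀ ℓ : ℕ, ℓ ≤ Λ * ω → ω ≤ Λ * ℓ →
    ∀ c d : ℝ, b0 ≤ c → c ≤ d → d ≤ b0 + 2 → ∀ (φ : ℕ → ℝ) (B : ℝ), (∀ n, |φ n| ≤ B) →
    |∫ t in Set.Ioc c d, φ (NN (t + rr ε ω * Real.log 2)) *
        (ff ℓ (t + ω * Real.log 2) - LL ℓ (t + ω * Real.log 2))| ≤
      C * (B / (ω : ℝ) ^ A) + C * (Real.log ω / (ω : ℝ) ^ 2) *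
        ∫ t in Set.Ioc c d, |φ (NN (t + rr ε ω * Real.log 2))| := by
  obtain ⟨C1, hC1, L1, h1⟩ := cond_int2 hS ε hε hε1 b0 A Λ
  obtain ⟨C2, hC2, L2, h2⟩ := cond_int2 hS ε hε hε1 (b0 + 1) A Λ
  refine ⟨C1 + C2, by positivity, L1 + L2 + 3, by omega, fun ω hω ℓ hℓ1 hℓ2 c d hc hcd hd φ B hφ => ?_⟩
  obtain ⟨_, _, q3⟩ := h1 ω (by omega) ℓ hℓ1 hℓ2
  obtain ⟨_, _, s3⟩ := h2 ω (by omega) ℓ hℓ1 hℓ2
  set r := rr ε ω with hr
  have hB0 : 0 ≤ B := (abs_nonneg _).trans (hφ 0)
  have hω0 : (0 : ℝ) < ω := by exact_mod_cast (by omega : 0 < ω)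
  have hδ0 : 0 ≤ Real.log ω / (ω : ℝ) ^ 2 := div_nonneg (Real.log_natCast_nonneg ω) (by positivity)
  set δ := Real.log ω / (ω : ℝ) ^ 2 with hδ
  set Φ : ℝ → ℝ := fun t => φ (NN (t + r * Real.log 2)) with hΦ
  set g : ℝ → ℝ := fun t => ff ℓ (t + ω * Real.log 2) - LL ℓ (t + ω * Real.log 2) with hg
  have hΦm : Measurable Φ := (measurable_from_nat (f := φ)).comp (measurable_NN.comp (measurable_id.add_const _))
  have hgm : Measurable g := ((measurable_ff ℓ).comp (measurable_id.add_const _)).sub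
    ((LL_cont ℓ).measurable.comp (measurable_id.add_const _))
  have hg1 : ∀ t, |g t| ≤ 1 := fun t => by
    simp only [hg]
    rw [abs_le]
    constructor <;> linarith [ff_nonneg ℓ (t + ω * Real.log 2), ff_le_one ℓ (t + ω * Real.log 2),
      LL_nonneg ℓ (t + ω * Real.log 2), LL_le_one ℓ (t + ω * Real.log 2)]
  have hFb : ∀ t, |Φ t * g t| ≤ B := fun t => by
    rw [abs_mul]
    calc |Φ t| * |g t| ≤ B * 1 := mul_le_mul (hφ _) (hg1 t) (abs_nonneg _) hB0
      _ = B := mul_one B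
  have iF : ∀ x y : ℝ, IntegrableOn (fun t => Φ t * g t) (Set.Ioc x y) := fun x y =>
    intOn_of_bdd (F := fun t => Φ t * g t) (hΦm.mul hgm) hFb x y
  have iA : ∀ x y : ℝ, IntegrableOn (fun t => |Φ t|) (Set.Ioc x y) := fun x y =>
    intOn_of_bdd (F := fun t => |Φ t|) (measurable_abs.comp hΦm) (B := B)
      (fun u => by rw [abs_abs]; exact hφ _) x y
  have hBA : 0 ≤ B / (ω : ℝ) ^ A := by positivity
  have nn : ∀ x y : ℝ, 0 ≤ ∫ t in Set.Ioc x y, |Φ t| := fun x y =>
    setIntegral_nonneg measurableSet_Ioc fun u _ => abs_nonneg _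
  have e1 : ∀ x y : ℝ, b0 ≤ x → x ≤ y → y ≤ b0 + 1 → |∫ t in Set.Ioc x y, Φ t * g t| ≤
      C1 * (B / (ω : ℝ) ^ A) + C1 * δ * ∫ t in Set.Ioc x y, |Φ t| := fun x y hx hxy hy =>
    q3 x y hx hxy hy φ B hφ
  have e2 : ∀ x y : ℝ, b0 + 1 ≤ x → x ≤ y → y ≤ b0 + 1 + 1 → |∫ t in Set.Ioc x y, Φ t * g t| ≤
      C2 * (B / (ω : ℝ) ^ A) + C2 * δ * ∫ t in Set.Ioc x y, |Φ t| := fun x y hx hxy hy =>
    s3 x y hx hxy hy φ B hφ
  show |∫ t in Set.Ioc c d, Φ t * g t| ≤
      (C1 + C2) * (B / (ω : ℝ) ^ A) + (C1 + C2) * δ * ∫ t in Set.Ioc c d, |Φ t|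
  rcases le_or_gt d (b0 + 1) with h | h
  · have h3 := e1 c d hc hcd h
    have h4 : 0 ≤ C2 * (B / (ω : ℝ) ^ A) := by positivity
    have h5 : 0 ≤ C2 * δ * ∫ t in Set.Ioc c d, |Φ t| := mul_nonneg (by positivity) (nn c d)
    linarith
  rcases le_or_gt (b0 + 1) c with h' | h'
  · have h3 := e2 c d h' hcd (by linarith)
    have h4 : 0 ≤ C1 * (B / (ω : ℝ) ^ A) := by positivity
    have h5 : 0 ≤ C1 * δ * ∫ t in Set.Ioc c d, |Φ t| := mul_nonneg (by positivity) (nn c d)
    linarith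
  · have h3 := e1 c (b0 + 1) hc h'.le le_rfl
    have h4 := e2 (b0 + 1) d le_rfl h.le (by linarith)
    have hsplit : Set.Ioc c d = Set.Ioc c (b0 + 1) ∪ Set.Ioc (b0 + 1) d :=
      (Set.Ioc_union_Ioc_eq_Ioc h'.le h.le).symm
    have hdisj : Disjoint (Set.Ioc c (b0 + 1)) (Set.Ioc (b0 + 1) d) := by
      rw [Set.disjoint_left]
      intro x hx hx'
      exact absurd hx.2 (not_le.2 hx'.1)
    rw [hsplit, setIntegral_union hdisj measurableSet_Ioc (iF _ _) (iF _ _),
      setIntegral_union hdisj measurableSet_Ioc (iA _ _) (iA _ _)]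
    have h5 := abs_add_le (∫ t in Set.Ioc c (b0 + 1), Φ t * g t) (∫ t in Set.Ioc (b0 + 1) d, Φ t * g t)
    have n1 := nn c (b0 + 1)
    have n2 := nn (b0 + 1) d
    have m1 : 0 ≤ C2 * δ * ∫ t in Set.Ioc c (b0 + 1), |Φ t| := mul_nonneg (by positivity) n1
    have m2 : 0 ≤ C1 * δ * ∫ t in Set.Ioc (b0 + 1) d, |Φ t| := mul_nonneg (by positivity) n2
    linarith

variable [Rb]

/-- the set of the exponents up to `r` -/
noncomputable def es (r : ℕ) (u : ℝ) : Finset ℕ := by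
  classical exact (Finset.range (r + 1)).filter (fun p => fp p u = 1)

lemma mem_es {r : ℕ} {u : ℝ} {p : ℕ} : p ∈ es r u ↔ p ≤ r ∧ fp p u = 1 := by
  classical
  unfold es
  rw [Finset.mem_filter, Finset.mem_range]
  constructor
  · rintro ⟨h1, h2⟩; exact ⟨by omega, h2⟩
  · rintro ⟨h1, h2⟩; exact ⟨by omega, h2⟩

lemma fp_01 (p : ℕ) (t : ℝ) : fp p t = 0 ∨ fp p t = 1 := by
  unfold fp ff; split_ifs <;> simp

/-- `X` is a function of the exponents up to `r` -/
def PF (r : ℕ) (X : ℝ → ℝ) : Prop := ∃ F : Finset ℕ → ℝ, ∀ u, X u = F (es r u)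

lemma PF.const (r : ℕ) (c : ℝ) : PF r (fun _ => c) := ⟨fun _ => c, fun _ => rfl⟩

lemma PF.comp {r : ℕ} {X : ℝ → ℝ} (h : PF r X) (g : ℝ → ℝ) : PF r (fun u => g (X u)) := by
  obtain ⟨F, hF⟩ := h
  exact ⟨fun n => g (F n), fun u => by simp only [hF]⟩

lemma PF.comp₂ {r : ℕ} {X Y : ℝ → ℝ} (h : PF r X) (h' : PF r Y) (g : ℝ → ℝ → ℝ) : PF r (fun u => g (X u) (Y u)) := by
  obtain ⟨F, hF⟩ := h
  obtain ⟨G, hG⟩ := h'
  exact ⟨fun n => g (F n) (G n), fun u => by simp only [hF, hG]⟩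

lemma PF.mul {r : ℕ} {X Y : ℝ → ℝ} (h : PF r X) (h' : PF r Y) : PF r (fun u => X u * Y u) :=
  h.comp₂ h' (fun x y => x * y)

lemma PF.sub {r : ℕ} {X Y : ℝ → ℝ} (h : PF r X) (h' : PF r Y) : PF r (fun u => X u - Y u) :=
  h.comp₂ h' (fun x y => x - y)

lemma PF.mono {r r' : ℕ} {X : ℝ → ℝ} (h : PF r X) (hr : r ≤ r') : PF r' X := by
  classical
  obtain ⟨F, hF⟩ := h
  refine ⟨fun S => F (S.filter (fun p => p ≤ r)), fun u => ?_⟩
  rw [hF]
  congr 1
  ext p
  rw [Finset.mem_filter, mem_es, mem_es]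
  constructor
  · rintro ⟨h1, h2⟩; exact ⟨⟨by omega, h2⟩, h1⟩
  · rintro ⟨⟨_, h2⟩, h1⟩; exact ⟨h1, h2⟩

lemma es_meas (r : ℕ) (S : Finset ℕ) : MeasurableSet {u | es r u = S} := by
  classical
  by_cases h : S ⊆ Finset.range (r + 1)
  · have e : {u | es r u = S} = ⋂ p ∈ Finset.range (r + 1), {u | fp p u = if p ∈ S then 1 else 0} := by
      ext u
      simp only [Set.mem_ofPred_eq, Set.mem_iInter]
      constructor
      · intro hu p hp
        have h1 : p ≤ r := by rw [Finset.mem_range] at hp; omega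
        by_cases h2 : p ∈ S
        · rw [if_pos h2]
          rw [← hu, mem_es] at h2
          exact h2.2
        · rw [if_neg h2]
          rw [← hu, mem_es, not_and] at h2
          exact (fp_01 p u).resolve_right (h2 h1)
      · intro hu
        ext p
        rw [mem_es]
        constructor
        · rintro ⟨h1, h2⟩
          by_contra h3
          have := hu p (Finset.mem_range.2 (by omega))
          rw [if_neg h3, h2] at this
          exact one_ne_zero this
        · intro h1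
          have h2 := h h1
          have := hu p h2
          rw [if_pos h1] at this
          rw [Finset.mem_range] at h2
          exact ⟨by omega, this⟩
    rw [e]
    exact Finset.measurableSet_biInter _ fun p _ => measurableSet_eq_fun (measurable_fp p) measurable_const
  · have e : {u | es r u = S} = ∅ := by
      ext u
      simp only [Set.mem_ofPred_eq, Set.mem_empty_iff_false, iff_false]
      intro hu
      apply h
      intro p hp
      rw [← hu, mem_es] at hp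
      exact Finset.mem_range.2 (by omega)
    rw [e]
    exact MeasurableSet.empty

lemma PF.meas {r : ℕ} {X : ℝ → ℝ} (h : PF r X) : Measurable X := by
  obtain ⟨F, hF⟩ := h
  have e : X = F ∘ es r := funext hF
  rw [e]
  let _ : MeasurableSpace (Finset ℕ) := ⊤
  have h1 : Measurable (es r) := measurable_to_countable' fun S => es_meas r S
  exact (measurable_from_top (f := F)).comp h1

lemma PF.bdd {r : ℕ} {X : ℝ → ℝ} (h : PF r X) {B : ℝ} (hB : ∀ u, |X u| ≤ B) :
    ∃ F : Finset ℕ → ℝ, (∀ n, |F n| ≤ B) ∧ ∀ u, X u = F (es r u) := by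
  obtain ⟨F, hF⟩ := h
  have hB0 : 0 ≤ B := (abs_nonneg _).trans (hB 0)
  refine ⟨fun n => max (-B) (min B (F n)), fun n => ?_, fun u => ?_⟩
  · rw [abs_le]
    exact ⟨le_max_left _ _, max_le (by linarith) (min_le_left _ _)⟩
  · have h1 := abs_le.1 (hB u)
    rw [hF u] at h1 ⊢
    show F (es r u) = max (-B) (min B (F (es r u)))
    rw [min_eq_right h1.2, max_eq_right h1.1]

lemma PF.sum {r : ℕ} {ι : Type*} (s : Finset ι) {X : ι → ℝ → ℝ} (h : ∀ i ∈ s, PF r (X i)) :
    PF r (fun u => ∑ i ∈ s, X i u) := by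
  classical
  induction s using Finset.induction_on with
  | empty => simpa using PF.const r 0
  | insert a s ha ih =>
    have h1 := (h a (mem_insert_self a s)).comp₂ (ih fun i hi => h i (mem_insert_of_mem hi)) (fun x y => x + y)
    simpa only [Finset.sum_insert ha] using h1

lemma PF.prod {r : ℕ} {ι : Type*} (s : Finset ι) {X : ι → ℝ → ℝ} (h : ∀ i ∈ s, PF r (X i)) :
    PF r (fun u => ∏ i ∈ s, X i u) := by
  classical
  induction s using Finset.induction_on with
  | empty => simpa using PF.const r 1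
  | insert a s ha ih =>
    have h1 := (h a (mem_insert_self a s)).comp₂ (ih fun i hi => h i (mem_insert_of_mem hi)) (fun x y => x * y)
    simpa only [Finset.prod_insert ha] using h1

lemma PF.fp {p r : ℕ} (h : p ≤ r) : PF r (fun u => fp p u) := by
  classical
  refine ⟨fun S => if p ∈ S then 1 else 0, fun u => ?_⟩
  simp only [mem_es]
  rcases fp_01 p u with h1 | h1 <;> simp [h1, h]

/-- the value of the event of index `p` in terms of the rounded number -/
noncomputable def hZ (p : ℕ) (m : ℤ) : ℝ :=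
  if (roughPart p (if 0 < m then (m - 1).toNat else (-m).toNat)).Prime then 1 else 0

/-- **The integral of the centred indicator against a function of the earlier events.** -/
theorem cond_pf (hS : SilS) (ε : ℝ) (hε : 0 < ε) (hε1 : ε ≤ 1 / 12) (b0 : ℝ) (A : ℕ) :
    ∃ C : ℝ, 0 < C ∧ ∃ L₀ : ℕ, ∀ q : ℕ, L₀ ≤ q → ∀ b1 : ℝ, b0 ≤ b1 → b1 ≤ b0 + 1 →
    ∀ r : ℕ, (r : ℝ) ≤ (2 / 3 - ε) * q → ∀ (X : ℝ → ℝ) (B : ℝ), PF r X → (∀ u, |X u| ≤ B) →
    |∫ t in Set.Ioc b0 b1, X t * gc q t| ≤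
      C * (B / (q : ℝ) ^ A) + C * (Real.log q / (q : ℝ) ^ 2) * ∫ t in Set.Ioc b0 b1, |X t| := by
  classical
  have ha0 : (0 : ℝ) < Rb.α := al_pos
  have hla : 0 < Real.log Rb.α := Real.log_pos Rb.one_lt
  have hl2 := Real.log_pos one_lt_two
  set lam := Real.log 2 with hlam
  set ρ := Real.log Rb.α / lam with hρ
  have hρ0 : 0 < ρ := by positivity
  have hρl : ρ * lam = Real.log Rb.α := by rw [hρ]; field_simp
  obtain ⟨Λ, hΛ⟩ := exists_nat_ge (ρ + 2 / ρ + 1)
  have hΛρ : ρ ≤ Λ := by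
    have : 0 < 2 / ρ := by positivity
    linarith
  have hΛρ2 : 2 / ρ ≤ Λ := by linarith
  have hΛ1 : (1 : ℝ) ≤ Λ := by
    have : 0 < 2 / ρ := by positivity
    linarith
  obtain ⟨C, hC, L0, hL0, hc⟩ := cond3 hS (ε / 2) (by linarith) (by linarith) b0 A Λ
  obtain ⟨P3, hP33, hcov⟩ := cov b0 A
  obtain ⟨P0, hP0⟩ := eventually_atTop.1 (small b0 0)
  set K1 : ℝ := (Real.exp (b0 + 2) + 2 * |Rb.C| + 3) * 2 * Real.exp (-b0) with hK1
  have hK10 : 0 < K1 := by positivity
  set K0 : ℝ := K1 * 4 + 4 with hK0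
  have hK00 : 0 < K0 := by positivity
  have hexp : ∀ᶠ q : ℕ in atTop, K0 * (q : ℝ) ^ (A + 1) ≤ (2 : ℝ) ^ ((ε * ρ / 2 : ℝ) * q) := by
    have h1 := (isLittleO_pow_exp_pos_mul_atTop (A + 1) (b := ε * ρ / 2 * Real.log 2)
      (by positivity)).bound (show (0 : ℝ) < 1 / K0 by positivity)
    have h2 := tendsto_natCast_atTop_atTop (R := ℝ) |>.eventually h1
    filter_upwards [h2] with q hq
    rw [Real.norm_of_nonneg (by positivity), Real.norm_of_nonneg (by positivity), one_div,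
      inv_mul_eq_div, le_div_iff₀ hK00] at hq
    have e1 : (2 : ℝ) ^ ((ε * ρ / 2 : ℝ) * q) = Real.exp (ε * ρ / 2 * Real.log 2 * q) := by
      rw [Real.rpow_def_of_pos (by norm_num)]
      congr 1
      ring
    rw [e1]
    linarith
  obtain ⟨P4, hP4⟩ := eventually_atTop.1 (hexp.and
    ((tendsto_natCast_atTop_atTop (R := ℝ)).eventually_ge_atTop ((2 * (L0 : ℝ) + 4) / ρ)))
  set C3 : ℝ := C * ((1 + Real.log Λ) * (4 / ρ ^ 2)) with hC3
  have hlΛ := Real.log_nonneg hΛ1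
  have hC30 : 0 < C3 := by positivity
  set C4 : ℝ := C * (2 / ρ) ^ A with hC4
  have hC40 : 0 < C4 := by positivity
  refine ⟨4 + C4 + 4 * C3, by positivity, P0 + P3 + P4 + 3,
    fun q hq b1 h01 h11 r hrq X B hX hXB => ?_⟩
  obtain ⟨l1, l2⟩ := hP4 q (by omega)
  have hsq := hP0 q (by omega)
  rw [pow_zero, mul_one] at hsq
  have hB0 : 0 ≤ B := (abs_nonneg _).trans (hXB 0)
  have hq3 : (3 : ℝ) ≤ q := by exact_mod_cast (by omega : 3 ≤ q)
  have hq0 : (0 : ℝ) < q := by linarith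
  have hlq : 1 ≤ Real.log q := by
    rw [Real.le_log_iff_exp_le hq0]
    have := Real.exp_one_lt_d9
    linarith
  have hρq : 2 * (L0 : ℝ) + 4 ≤ ρ * q := by
    rw [div_le_iff₀ hρ0] at l2
    linarith
  -- the binary exponent
  set ω := ⌊ρ * q⌋₊ with hω
  have w1 : (ω : ℝ) ≤ ρ * q := Nat.floor_le (by positivity)
  have w2 : ρ * q < ω + 1 := Nat.lt_floor_add_one _
  have hL00 : (0 : ℝ) ≤ L0 := Nat.cast_nonneg _
  have w3 : ρ * q / 2 ≤ ω := by linarith
  have w4 : L0 ≤ ω := by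
    have : (L0 : ℝ) ≤ ω := by linarith
    exact_mod_cast this
  have hω0 : (0 : ℝ) < ω := by exact_mod_cast (by omega : 0 < ω)
  have w5 : ω ≤ Λ * q := by
    have : (ω : ℝ) ≤ Λ * q := w1.trans (mul_le_mul_of_nonneg_right hΛρ hq0.le)
    exact_mod_cast this
  have w6 : q ≤ Λ * ω := by
    have h1 : (q : ℝ) ≤ Λ * ω := by
      calc (q : ℝ) = 2 / ρ * (ρ * q / 2) := by field_simp
        _ ≤ Λ * ω := mul_le_mul hΛρ2 w3 (by positivity) (by positivity)
    exact_mod_cast h1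
  have hmain := hc ω w4 q w6 w5
  set r' := rr (ε / 2) ω with hr'
  set δ := q * Real.log Rb.α - ω * lam with hδ
  have hδ0 : 0 ≤ δ := by
    have := mul_le_mul_of_nonneg_right w1 hl2.le
    rw [hδ, ← hρl]
    linarith
  have hδ1 : δ ≤ 1 := by
    have h1 := mul_le_mul_of_nonneg_right w2.le hl2.le
    have h2 : lam ≤ 1 := by
      have := Real.log_two_lt_d9
      linarith
    rw [hδ, ← hρl]
    linarith
  -- the scale
  set αr : ℝ := (Rb.α : ℝ) ^ r with hαr
  set αq : ℝ := (Rb.α : ℝ) ^ q with hαq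
  have hαr0 : 0 < αr := pow_pos ha0 _
  have hαq0 : 0 < αq := pow_pos ha0 _
  have hαr1 : 1 ≤ αr := one_le_pow₀ Rb.one_lt.le
  have h2ω : (0 : ℝ) < 2 ^ ω := by positivity
  have h2r : (0 : ℝ) < 2 ^ r' := by positivity
  have eω : Real.exp (ω * lam) = 2 ^ ω := by
    have := exp_add_two 0 ω
    rwa [zero_add, Real.exp_zero, one_mul] at this
  have eq' : Real.exp (q * Real.log Rb.α) = αq := by
    have := exp_add_al 0 q
    rwa [zero_add, Real.exp_zero, one_mul] at this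
  have eδ : Real.exp δ = αq / 2 ^ ω := by rw [hδ, Real.exp_sub, eω, eq']
  set a : ℕ → ℝ := fun p => Real.exp (-δ) * Rb.α ^ p with ha
  have ha1 : ∀ p, 0 < a p := fun p => mul_pos (Real.exp_pos _) (pow_pos ha0 p)
  have ha2 : ∀ p, a p = 2 ^ ω / αq * Rb.α ^ p := fun p => by
    simp only [ha]
    rw [Real.exp_neg, eδ, inv_div]
  have hpr : ∀ p ≤ r, Rb.α ^ p ≤ αr := fun p hp => pow_le_pow_right₀ Rb.one_lt.le hp
  have haα : ∀ p ≤ r, a p ≤ αr := fun p hp => by
    have h1 : Real.exp (-δ) ≤ 1 := Real.exp_le_one_iff.2 (by linarith)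
    calc a p ≤ 1 * Rb.α ^ p := mul_le_mul_of_nonneg_right h1 (pow_pos ha0 p).le
      _ = Rb.α ^ p := one_mul _
      _ ≤ αr := hpr p hp
  have r1 : (2 / 3 - ε / 2) * (ω : ℝ) < r' + 1 := by
    rw [hr']
    unfold rr
    exact Nat.lt_floor_add_one _
  have hratio : αr * 2 ^ ((ε * ρ / 2 : ℝ) * q) ≤ 4 * 2 ^ r' := by
    have e1 : αr = (2 : ℝ) ^ (ρ * r) := by
      rw [Real.rpow_def_of_pos (by norm_num), ← hlam, show lam * (ρ * r) = 0 + r * Real.log Rb.α by
        rw [← hρl]; ring, exp_add_al, Real.exp_zero, one_mul]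
    have e2 : (4 : ℝ) * 2 ^ r' = (2 : ℝ) ^ ((2 : ℝ) + r') := by
      rw [Real.rpow_add (by norm_num), Real.rpow_natCast]
      norm_num
    rw [e1, e2, ← Real.rpow_add (by norm_num)]
    apply Real.rpow_le_rpow_of_exponent_le (by norm_num)
    have h5 : ρ * r ≤ ρ * ((2 / 3 - ε) * q) := mul_le_mul_of_nonneg_left hrq hρ0.le
    have h6 : (2 / 3 - ε / 2) * (ρ * q - 1) ≤ (2 / 3 - ε / 2) * (ω : ℝ) :=
      mul_le_mul_of_nonneg_left (by linarith) (by linarith)
    have h7 : ρ * ((2 / 3 - ε) * q) + ε * ρ / 2 * q = (2 / 3 - ε / 2) * (ρ * q - 1) + (2 / 3 - ε / 2) := by ring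
    linarith
  have hqA : (1 : ℝ) ≤ (q : ℝ) ^ A := one_le_pow₀ (by linarith)
  have hαrr : αr / 2 ^ r' ≤ 4 * (1 / 2 ^ ((ε * ρ / 2 : ℝ) * q)) := by
    rw [mul_one_div, div_le_div_iff₀ h2r (by positivity)]
    exact hratio
  have hsmall : 4 * (1 / 2 ^ ((ε * ρ / 2 : ℝ) * q)) ≤ (4 / K0) * (1 / (q : ℝ) ^ (A + 1)) := by
    rw [mul_one_div, div_mul_div_comm, div_le_div_iff₀ (by positivity) (by positivity), mul_one]
    linarith
  have har : ∀ p ≤ r, a p ≤ 2 ^ r' := fun p hp => by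
    have h1 : αr / 2 ^ r' ≤ 1 := by
      refine hαrr.trans (hsmall.trans ?_)
      have h2 : 4 / K0 ≤ 1 := (div_le_one hK00).2 (by linarith)
      have h3 : 1 / (q : ℝ) ^ (A + 1) ≤ 1 := by
        rw [div_le_one (by positivity)]
        exact one_le_pow₀ (by linarith)
      calc 4 / K0 * (1 / (q : ℝ) ^ (A + 1)) ≤ 1 * 1 := mul_le_mul h2 h3 (by positivity) (by norm_num)
        _ = 1 := by norm_num
    rw [div_le_one h2r] at h1
    exact (haα p hp).trans h1
  -- the perturbations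
  have hgb : ∀ p, |gr' p| ≤ |Rb.C| * Rb.α ^ p := fun p => by
    refine (gr'_bound p).trans ?_
    calc Rb.C * Rb.κ ^ p ≤ |Rb.C| * Rb.κ ^ p :=
          mul_le_mul_of_nonneg_right (le_abs_self _) (pow_nonneg Rb.κ0 p)
      _ ≤ |Rb.C| * Rb.α ^ p :=
          mul_le_mul_of_nonneg_left (pow_le_pow_left₀ Rb.κ0 Rb.κb.le p) (abs_nonneg _)
  set g' : ℕ → ℝ := fun p => gr' p - gr' q * (Rb.α ^ p / αq) with hg'
  have hg'b : ∀ p ≤ r, |g' p| ≤ 2 * |Rb.C| * αr := fun p hp => by
    have hp0 : (0 : ℝ) < Rb.α ^ p := pow_pos ha0 p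
    have h1 : |gr' q * (Rb.α ^ p / αq)| ≤ |Rb.C| * Rb.α ^ p := by
      rw [abs_mul, abs_of_pos (div_pos hp0 hαq0)]
      calc |gr' q| * (Rb.α ^ p / αq) ≤ (|Rb.C| * αq) * (Rb.α ^ p / αq) :=
            mul_le_mul_of_nonneg_right (hgb q) (by positivity)
        _ = _ := by field_simp
    have h2 := abs_sub (gr' p) (gr' q * (Rb.α ^ p / αq))
    have h3 := hgb p
    have h4 : |Rb.C| * Rb.α ^ p ≤ |Rb.C| * αr := mul_le_mul_of_nonneg_left (hpr p hp) (abs_nonneg _)
    simp only [hg']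
    linarith
  -- the exceptional sets
  have hbadp : ∀ p : ℕ, ∃ (E : Set ℝ) (ψ : ℕ → ℤ), MeasurableSet E ∧ (p ≤ r →
      (∀ t ∈ Set.Ioc b0 (b0 + 2), t ∉ E → ⌈Real.exp t * a p + g' p⌉ = ψ (NN (t + r' * lam)) ∧
        ∀ m : ℤ, Real.exp t * a p + g' p ≠ m) ∧
      volume E ≤ ENNReal.ofReal (K1 * (αr / 2 ^ r'))) := by
    intro p
    by_cases hp : p ≤ r
    · obtain ⟨E, ψ, hE, hψ, hEμ⟩ := badZ (g' p) (ha1 p) (har p hp) b0
      refine ⟨E, ψ, hE, fun _ => ⟨hψ, hEμ.trans (ENNReal.ofReal_le_ofReal ?_)⟩⟩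
      have h1 := hg'b p hp
      have h2 := mul_le_mul_of_nonneg_left (haα p hp) (Real.exp_pos (b0 + 2)).le
      have h3 : Real.exp (b0 + 2) * a p + |g' p| + 3 ≤ (Real.exp (b0 + 2) + 2 * |Rb.C| + 3) * αr := by
        linarith
      calc (Real.exp (b0 + 2) * a p + |g' p| + 3) * 2 * (Real.exp (-b0) / 2 ^ r') ≤
            ((Real.exp (b0 + 2) + 2 * |Rb.C| + 3) * αr) * 2 * (Real.exp (-b0) / 2 ^ r') := by gcongr
        _ = _ := by rw [hK1]; ring
    · exact ⟨∅, fun _ => 0, MeasurableSet.empty, fun h => absurd h hp⟩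
  choose Ep ψ hEp hψ using hbadp
  set E : Set ℝ := ⋃ p ∈ Finset.range (r + 1), Ep p with hE
  have hEm : MeasurableSet E := Finset.measurableSet_biUnion _ fun p _ => hEp p
  set μ : ℝ := (r + 1) * (K1 * (αr / 2 ^ r')) with hμ
  have hμ0 : 0 ≤ μ := by positivity
  have hEμ : volume E ≤ ENNReal.ofReal μ := by
    calc volume E ≤ ∑ p ∈ Finset.range (r + 1), volume (Ep p) := measure_biUnion_finset_le _ _
      _ ≤ ∑ p ∈ Finset.range (r + 1), ENNReal.ofReal (K1 * (αr / 2 ^ r')) :=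
          Finset.sum_le_sum fun p hp => (hψ p (by rw [Finset.mem_range] at hp; omega)).2
      _ = ENNReal.ofReal μ := by
          rw [Finset.sum_const, Finset.card_range, nsmul_eq_mul, hμ, ← ENNReal.ofReal_natCast,
            ← ENNReal.ofReal_mul (by positivity)]
          congr 1
          push_cast
          ring
  have hμ1 : μ ≤ 1 / (q : ℝ) ^ A := by
    have h1 : (r : ℝ) + 1 ≤ q := by
      have h2 : (2 / 3 - ε) * (q : ℝ) ≤ 2 / 3 * q := by nlinarith
      linarith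
    calc μ ≤ q * (K1 * (αr / 2 ^ r')) := mul_le_mul_of_nonneg_right h1 (by positivity)
      _ ≤ q * (K1 * ((4 / K0) * (1 / (q : ℝ) ^ (A + 1)))) := by
          apply mul_le_mul_of_nonneg_left _ hq0.le
          exact mul_le_mul_of_nonneg_left (hαrr.trans hsmall) hK10.le
      _ = (K1 * 4 / K0) * (1 / (q : ℝ) ^ A) := by
          rw [pow_succ]
          field_simp
      _ ≤ 1 * (1 / (q : ℝ) ^ A) := by
          apply mul_le_mul_of_nonneg_right _ (by positivity)
          rw [div_le_one hK00]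
          linarith
      _ = _ := one_mul _
  -- the inverse phase function
  set v : ℝ → ℝ := fun u => Real.log (Real.exp u - gr' q) - q * Real.log Rb.α with hv
  have hvm : Measurable v := (Real.measurable_log.comp (Real.measurable_exp.sub_const _)).sub_const _
  have hXm : Measurable X := hX.meas
  have hXv : Measurable (fun u => X (v u)) := hXm.comp hvm
  set G : ℝ → ℝ := fun u => ff q u - LL q u with hG
  have hGm : Measurable G := (measurable_ff q).sub (LL_cont q).measurable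
  have hG1 : ∀ u, |G u| ≤ 1 := fun u => by
    simp only [hG]
    rw [abs_le]
    constructor <;> linarith [ff_nonneg q u, ff_le_one q u, LL_nonneg q u, LL_le_one q u]
  set F1 : ℝ → ℝ := fun u => X (v u) * G u with hF1
  have hF1m : Measurable F1 := hXv.mul hGm
  have hF1b : ∀ u, |F1 u| ≤ B := fun u => by
    simp only [hF1]
    rw [abs_mul]
    calc _ ≤ B * 1 := mul_le_mul (hXB _) (hG1 u) (abs_nonneg _) hB0
      _ = B := mul_one B
  have c1 := hcov q (by omega) b1 h01 h11 F1 B hF1m hF1b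
  have c2 := hcov q (by omega) b1 h01 h11 (fun u => |X (v u)|) B hXv.abs
    (fun u => by rw [abs_abs]; exact hXB _)
  have hvy : ∀ t ∈ Set.Ioc b0 b1, v (yp q t) = t := by
    intro t ht
    obtain ⟨k1, _, _⟩ := exp_yp (le_refl (1 / 10 : ℝ)) hsq ht.1.le
    simp only [hv]
    rw [k1, add_sub_cancel_right, ← exp_add_al, Real.log_exp]
    ring
  have e1 : ∫ t in Set.Ioc b0 b1, F1 (yp q t) = ∫ t in Set.Ioc b0 b1, X t * gc q t := by
    refine setIntegral_congr_fun measurableSet_Ioc fun t ht => ?_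
    simp only [hF1]
    rw [hvy t ht]
    rfl
  have e2 : ∫ t in Set.Ioc b0 b1, |X (v (yp q t))| = ∫ t in Set.Ioc b0 b1, |X t| := by
    refine setIntegral_congr_fun measurableSet_Ioc fun t ht => ?_
    show |X (v (yp q t))| = |X t|
    rw [hvy t ht]
  rw [e1] at c1
  rw [e2] at c2
  -- the shift
  have shift : ∀ H : ℝ → ℝ, ∫ t in Set.Ioc b0 b1, H (t + q * Real.log Rb.α) =
      ∫ s in Set.Ioc (b0 + δ) (b1 + δ), H (s + ω * lam) := by
    intro H
    rw [← intervalIntegral.integral_of_le (by linarith), ← intervalIntegral.integral_of_le (by linarith),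
      ← intervalIntegral.integral_comp_add_right (fun s => H (s + ω * lam))]
    refine intervalIntegral.integral_congr fun t _ => ?_
    show H (t + q * Real.log Rb.α) = H (t + δ + ω * lam)
    congr 1
    rw [hδ]
    ring
  rw [shift F1] at c1
  rw [shift (fun u => |X (v u)|)] at c2
  set c := b0 + δ with hcd
  set d := b1 + δ with hdd
  have hcd1 : c ≤ d := by linarith
  -- the function of the digits
  obtain ⟨F, hFB, hF⟩ := hX.bdd hXB
  set Φ : ℕ → ℝ := fun n => F ((Finset.range (r + 1)).filter (fun p => hZ p (ψ p n) = 1)) with hΦ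
  have hΦB : ∀ n, |Φ n| ≤ B := fun n => hFB _
  have hXs : ∀ s ∈ Set.Ioc c d, s ∉ E → X (v (s + ω * lam)) = Φ (NN (s + r' * lam)) := by
    intro s hs hsE
    have hs2 : s ∈ Set.Ioc b0 (b0 + 2) := ⟨by linarith [hs.1], by linarith [hs.2]⟩
    have e0 : 0 < Real.exp s * 2 ^ ω - gr' q := by
      have h2 : Real.exp b0 * αq ≤ Real.exp s * 2 ^ ω := by
        have h3 : αq = Real.exp δ * 2 ^ ω := by rw [eδ]; field_simp
        rw [h3, ← mul_assoc, ← Real.exp_add]
        apply mul_le_mul_of_nonneg_right _ h2ω.le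
        exact Real.exp_le_exp.2 hs.1.le
      have h3 : 0 < Real.exp b0 * αq := by positivity
      have := le_abs_self (gr' q)
      linarith
    have e3 : ∀ p, yp p (v (s + ω * lam)) = Real.log (Real.exp s * a p + g' p) := fun p => by
      simp only [hv]
      unfold yp ysh
      rw [exp_add_two, Real.exp_sub, Real.exp_log e0, eq']
      congr 1
      rw [ha2]
      simp only [hg']
      field_simp
      ring
    rw [hF]
    simp only [hΦ]
    congr 1
    ext p
    rw [mem_es, Finset.mem_filter, Finset.mem_range]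
    by_cases hp : p ≤ r
    · have hsEp : s ∉ Ep p := fun h => hsE (by
        rw [hE, Set.mem_iUnion₂]
        exact ⟨p, Finset.mem_range.2 (by omega), h⟩)
      obtain ⟨f1, f2⟩ := (hψ p hp).1 s hs2 hsEp
      have f3 : fp p (v (s + ω * lam)) = hZ p (ψ p (NN (s + r' * lam))) := by
        unfold fp hZ
        rw [e3, ff_logZ f2, f1]
      rw [f3]
      constructor
      · rintro ⟨_, h⟩; exact ⟨by omega, h⟩
      · rintro ⟨_, h⟩; exact ⟨hp, h⟩
    · constructor
      · rintro ⟨h, _⟩; exact absurd h hp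
      · rintro ⟨h, _⟩; exact absurd (by omega) hp
  have hΦm : Measurable (fun s : ℝ => Φ (NN (s + r' * lam))) :=
    (measurable_from_nat (f := Φ)).comp (measurable_NN.comp (measurable_id.add_const _))
  have hF1s : Measurable (fun s : ℝ => F1 (s + ω * lam)) := hF1m.comp (measurable_id.add_const _)
  have hGs : Measurable (fun s : ℝ => G (s + ω * lam)) := hGm.comp (measurable_id.add_const _)
  have hXvs : Measurable (fun s : ℝ => X (v (s + ω * lam))) := hXv.comp (measurable_id.add_const _)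
  have hΦG : ∀ s, |Φ (NN (s + r' * lam)) * G (s + ω * lam)| ≤ B := fun s => by
    rw [abs_mul]
    calc _ ≤ B * 1 := mul_le_mul (hΦB _) (hG1 _) (abs_nonneg _) hB0
      _ = B := mul_one B
  have d1 : |∫ s in Set.Ioc c d, (F1 (s + ω * lam) - Φ (NN (s + r' * lam)) * G (s + ω * lam))| ≤ (2 * B) * μ := by
    refine off_bad hEm hμ0 hEμ (by positivity) (fun t => ?_) (fun t ht htE => ?_)
    · have g1 := hF1b (t + ω * lam)
      have g2 := hΦG t
      have := abs_sub (F1 (t + ω * lam)) (Φ (NN (t + r' * lam)) * G (t + ω * lam))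
      linarith
    · simp only [hF1]
      rw [hXs t ht htE]
      ring
  have d2 : |∫ s in Set.Ioc c d, (|X (v (s + ω * lam))| - |Φ (NN (s + r' * lam))|)| ≤ (2 * B) * μ := by
    refine off_bad hEm hμ0 hEμ (by positivity) (fun t => ?_) (fun t ht htE => ?_)
    · have g1 := hXB (v (t + ω * lam))
      have g2 := hΦB (NN (t + r' * lam))
      have := abs_sub |X (v (t + ω * lam))| |Φ (NN (t + r' * lam))|
      rw [abs_abs, abs_abs] at this
      linarith
    · rw [hXs t ht htE]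
      ring
  have i1 : IntegrableOn (fun s => F1 (s + ω * lam)) (Set.Ioc c d) :=
    intOn_of_bdd (F := fun s => F1 (s + ω * lam)) hF1s (B := B) (fun s => hF1b _) _ _
  have i2 : IntegrableOn (fun s => Φ (NN (s + r' * lam)) * G (s + ω * lam)) (Set.Ioc c d) :=
    intOn_of_bdd (F := fun s => Φ (NN (s + r' * lam)) * G (s + ω * lam)) (hΦm.mul hGs) (B := B) hΦG _ _
  have i3 : IntegrableOn (fun s => |X (v (s + ω * lam))|) (Set.Ioc c d) :=
    intOn_of_bdd (F := fun s => |X (v (s + ω * lam))|) hXvs.abs (B := B) (fun s => by rw [abs_abs]; exact hXB _) _ _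
  have i4 : IntegrableOn (fun s => |Φ (NN (s + r' * lam))|) (Set.Ioc c d) :=
    intOn_of_bdd (F := fun s => |Φ (NN (s + r' * lam))|) hΦm.abs (B := B) (fun s => by rw [abs_abs]; exact hΦB _) _ _
  rw [integral_sub i1 i2] at d1
  rw [integral_sub i3 i4] at d2
  have m1 : |∫ s in Set.Ioc c d, Φ (NN (s + r' * lam)) * G (s + ω * lam)| ≤
      C * (B / (ω : ℝ) ^ A) + C * (Real.log ω / (ω : ℝ) ^ 2) * ∫ s in Set.Ioc c d, |Φ (NN (s + r' * lam))| :=
    hmain c d (by linarith) hcd1 (by linarith) Φ B hΦB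
  -- assembling
  set I := ∫ t in Set.Ioc b0 b1, X t * gc q t with hI
  set J := ∫ t in Set.Ioc b0 b1, |X t| with hJ
  set I1 := ∫ s in Set.Ioc c d, F1 (s + ω * lam) with hI1
  set I2 := ∫ s in Set.Ioc c d, Φ (NN (s + r' * lam)) * G (s + ω * lam) with hI2
  set J1 := ∫ s in Set.Ioc c d, |X (v (s + ω * lam))| with hJ1
  set J2 := ∫ s in Set.Ioc c d, |Φ (NN (s + r' * lam))| with hJ2
  have hBA : B * (1 / (q : ℝ) ^ A) = B / (q : ℝ) ^ A := by ring
  rw [hBA] at c1 c2
  set T := B / (q : ℝ) ^ A with hT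
  have hT0 : 0 ≤ T := by positivity
  have hμT : (2 * B) * μ ≤ 2 * T := by
    have := mul_le_mul_of_nonneg_left hμ1 (show 0 ≤ 2 * B by positivity)
    calc (2 * B) * μ ≤ (2 * B) * (1 / (q : ℝ) ^ A) := this
      _ = 2 * T := by rw [hT]; ring
  set Lq := Real.log q / (q : ℝ) ^ 2 with hLq
  have hLq0 : 0 ≤ Lq := div_nonneg (by linarith) (by positivity)
  have hLq1 : Lq ≤ 1 := by
    rw [hLq, div_le_one (by positivity)]
    have := Real.log_le_sub_one_of_pos hq0
    nlinarith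
  have hω2 : 1 / (ω : ℝ) ^ 2 ≤ 4 / ρ ^ 2 * (1 / (q : ℝ) ^ 2) := by
    have h1 : (ρ * q / 2) ^ 2 ≤ (ω : ℝ) ^ 2 := pow_le_pow_left₀ (by positivity) w3 2
    calc 1 / (ω : ℝ) ^ 2 ≤ 1 / (ρ * q / 2) ^ 2 := one_div_le_one_div_of_le (by positivity) h1
      _ = _ := by field_simp; norm_num
  have hlω : Real.log ω ≤ (1 + Real.log Λ) * Real.log q := by
    have h1 : (ω : ℝ) ≤ Λ * q := by exact_mod_cast w5
    have h2 := Real.log_le_log hω0 h1
    rw [Real.log_mul (by linarith) (by linarith)] at h2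
    nlinarith
  have k3 : C * (Real.log ω / (ω : ℝ) ^ 2) ≤ C3 * Lq := by
    have h1 : Real.log ω / (ω : ℝ) ^ 2 ≤ (1 + Real.log Λ) * (4 / ρ ^ 2) * Lq := by
      calc Real.log ω / (ω : ℝ) ^ 2 = Real.log ω * (1 / (ω : ℝ) ^ 2) := by ring
        _ ≤ ((1 + Real.log Λ) * Real.log q) * (4 / ρ ^ 2 * (1 / (q : ℝ) ^ 2)) :=
            mul_le_mul hlω hω2 (by positivity) (by positivity)
        _ = _ := by rw [hLq]; ring
    calc C * (Real.log ω / (ω : ℝ) ^ 2) ≤ C * ((1 + Real.log Λ) * (4 / ρ ^ 2) * Lq) :=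
          mul_le_mul_of_nonneg_left h1 hC.le
      _ = C3 * Lq := by rw [hC3]; ring
  have k4 : C * (B / (ω : ℝ) ^ A) ≤ C4 * T := by
    have h1 : (ρ * q / 2) ^ A ≤ (ω : ℝ) ^ A := pow_le_pow_left₀ (by positivity) w3 A
    calc C * (B / (ω : ℝ) ^ A) ≤ C * (B / (ρ * q / 2) ^ A) := by gcongr
      _ = C4 * T := by
          rw [hC4, hT, show ρ * q / 2 = q * (ρ / 2) by ring, mul_pow,
            show (2 : ℝ) / ρ = (ρ / 2)⁻¹ by rw [inv_div], inv_pow]
          field_simp
  have hJ20 : 0 ≤ J2 := setIntegral_nonneg measurableSet_Ioc fun u _ => abs_nonneg _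
  have hJ0 : 0 ≤ J := setIntegral_nonneg measurableSet_Ioc fun u _ => abs_nonneg _
  have hJ2b : J2 ≤ J + 3 * T := by
    have a1 := (abs_le.1 d2).1
    have a2 := (abs_le.1 c2).1
    linarith
  have a3 : |I| ≤ |I2| + 3 * T := by
    have b1' := abs_sub_abs_le_abs_sub I I1
    have b2' := abs_sub_abs_le_abs_sub I1 I2
    linarith
  have a4 : C * (Real.log ω / (ω : ℝ) ^ 2) * J2 ≤ C3 * Lq * J + 3 * C3 * T := by
    have g1 : C * (Real.log ω / (ω : ℝ) ^ 2) * J2 ≤ C3 * Lq * (J + 3 * T) :=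
      mul_le_mul k3 hJ2b hJ20 (by positivity)
    have g2 : C3 * Lq * (3 * T) ≤ C3 * 1 * (3 * T) := by gcongr
    linarith
  have hfin : |I| ≤ (3 + C4 + 3 * C3) * T + C3 * Lq * J := by linarith
  refine hfin.trans (add_le_add ?_ ?_)
  · apply mul_le_mul_of_nonneg_right _ hT0
    linarith
  · apply mul_le_mul_of_nonneg_right _ hJ0
    apply mul_le_mul_of_nonneg_right _ hLq0
    linarith

end Pool.Agent.H176R
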