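import Mathlib
import Pool.Agent.H176M.Ast
import Pool.Agent.H176R.Trn
import Pool.Agent.H176M.Lln2

set_option autoImplicit false

/-!
# The law of large numbers over the scales, for products of counting functions
-/

namespace Pool.Agent.H176R

open Pool.Agent.H176M (cell cells prefix_cell rr NN_bounds' NN_mono rr_facts log_div_sq_ge ii_of_bdd
  abs_int_le le_NN_iff LL_lip intOn_of_bdd abs_setint_le SilS silS Sys1 gr_set1 bigO_set1 bigO_all1 Pr
  mem_Pr card_Pr mertens_window vT vT_nonneg FN_meas exists_sup one_div_le_wt Wd pow_ge_lin R_tendsto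
  min_loss rpow_decay ae_summable kron cesaro_mul lln_quasi exists_inf vT_le half_rpow ww one_le_ww
  ww_mono lln_corr)

open Finset Filter Topology MeasureTheory
open Pool.Agent.TH888.R (wt wt_nonneg wt_le_one)

variable [Rb]

lemma lln_succ (hS : SilS) (b0 : ℝ) {R : ℝ} (hR : 1 < R) (a b : ℕ → ℝ) (k : ℕ) (hW : Wd a b (k + 1)) :
    ∀ᵐ u ∂(volume.restrict (Set.Ioc b0 (b0 + 1))),
      Tendsto (fun J : ℕ => (∑ j ∈ range J, XX a b R k j u *
        (cT (Pr (a k * R ^ j) (b k * R ^ j)) u - cc * vT (Pr (a k * R ^ j) (b k * R ^ j)))) / J) atTop (𝓝 0) := by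
  obtain ⟨hak, hakb⟩ := hW.1 k (by omega)
  have hbk : 0 < b k := hak.trans hakb
  obtain ⟨L, hL0, hL1, hL2, hL3⟩ := exists_sup 0 b k (2 / 3 * a k) le_rfl (by linarith)
    (fun i hi => by have := hW.2 i k hi (by omega); linarith)
  have hbb : ∀ i < k, 0 < b i ∧ b i ≤ L := fun i hi =>
    ⟨(hW.1 i (by omega)).1.trans (hW.1 i (by omega)).2, hL2 i hi⟩
  obtain ⟨ρ1, hρ1, hρ1a⟩ := exists_inf a (k + 1) (fun i hi => (hW.1 i hi).1)
  set ρ2 := max L ρ1 with hρ2
  have hρ2a : 3 / 2 * ρ2 < a k := by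
    rcases max_cases L ρ1 with ⟨h, _⟩ | ⟨h, _⟩
    · rw [hρ2, h]; linarith
    · rw [hρ2, h]; exact hρ1a k (by omega)
  set L' := L + 1 with hL'
  have hL'1 : 1 ≤ L' := by linarith
  set μ := volume.restrict (Set.Ioc b0 (b0 + 1)) with hμ
  have hcc := cc_pos
  -- inputs
  obtain ⟨θ', hθ', C1, hC1, j1, Y, hYpf, hY, hYloss⟩ := trunc hS b0 hR a b k hW.pred (1 / 8) (by norm_num)
  obtain ⟨K1, hK1, hub1⟩ := joint_ub hS b0 L hL0 (fun _ => a k) (fun _ => b k) (k + 1) 1
    (fun i _ => ⟨hak, hakb⟩) (fun i j hij hj => by omega) (fun i _ => by linarith)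
  obtain ⟨K2, hK2, hsq⟩ := cT_sq hS b0 hak hakb
  obtain ⟨K3, hK3, hub3⟩ := joint_ub hS b0 ρ1 hρ1.le a b (k + 1) k hW.pred.1 hW.pred.2
    (fun i hi => hρ1a i (by omega))
  obtain ⟨C4, hC4, hsg⟩ := single hS b0 ρ2 hak hakb (2 * k + 1) hρ2a
  obtain ⟨c, hc, hcj⟩ := pow_ge_lin hR
  have hlr := Real.log_pos ((one_lt_div hak).2 hakb)
  set l := Real.log (b k / a k) with hl
  have hv : Tendsto (fun z : ℝ => vT (Pr (a k * z) (b k * z))) atTop (𝓝 l) := mertens_window hak hakb
  obtain ⟨j2, hj2⟩ := eventually_atTop.1 ((R_tendsto hR).eventually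
    ((hub1.and hsq).and ((hub3.and hsg).and (hv.eventually_le_const (show l < l + 1 by linarith)))))
  obtain ⟨m, hm⟩ := ((R_tendsto hR).eventually_ge_atTop (b k / ρ1)).exists
  set jj := max j1 (max j2 1) with hjj
  have hjj1 : j1 ≤ jj := le_max_left _ _
  have hjj2 : j2 ≤ jj := (le_max_left _ _).trans (le_max_right _ _)
  have hjj3 : 1 ≤ jj := (le_max_right _ _).trans (le_max_right _ _)
  -- the functions
  set cj : ℕ → ℝ → ℝ := fun j u => cT (Pr (a k * R ^ j) (b k * R ^ j)) u with hcjd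
  set vj : ℕ → ℝ := fun j => vT (Pr (a k * R ^ j) (b k * R ^ j)) with hvj
  set g : ℕ → ℝ → ℝ := fun j u => cj j u - cc * vj j with hg
  have hRj : ∀ j : ℕ, 0 < R ^ j := fun j => by positivity
  have hRj1 : ∀ j : ℕ, 1 ≤ R ^ j := fun j => one_le_pow₀ hR.le
  have hcm : ∀ j, Measurable (cj j) := fun j => cT_meas _
  have hc0 : ∀ j u, 0 ≤ cj j u := fun j u => cT_nonneg _ _
  have hcb : ∀ j u, cj j u ≤ b k * R ^ j := fun j u => cT_le (by have := hRj j; positivity) subset_rfl u
  have hv0 : ∀ j, 0 ≤ vj j := fun j => vT_nonneg _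
  have hvb : ∀ j, vj j ≤ b k * R ^ j := fun j => vT_le (by have := hRj j; positivity)
  have hgm : ∀ j, Measurable (g j) := fun j => (hcm j).sub_const _
  have hgabs : ∀ j u, |g j u| ≤ cj j u + cc * vj j := fun j u => by
    simp only [hg]
    have h1 := hc0 j u
    have h2 : 0 ≤ cc * vj j := mul_nonneg hcc.le (hv0 j)
    rw [abs_le]
    constructor <;> linarith
  have hgb : ∀ j u, |g j u| ≤ (1 + cc) * b k * R ^ j := fun j u => by
    refine (hgabs j u).trans ?_
    have h1 := hcb j u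
    have h2 := mul_le_mul_of_nonneg_left (hvb j) hcc.le
    nlinarith
  have hgpf : ∀ (j : ℕ) (r : ℕ), ⌊b k * R ^ j⌋₊ ≤ r → PF r (g j) := fun j r hr => by
    have := hRj j
    exact (PF.cW (by positivity) (by positivity) hr).comp (fun x => x - cc * vj j)
  have hYm : ∀ j, Measurable (Y j) := fun j => (hYpf j L hL0 hL2).meas
  have hXpf : ∀ j, PF ⌊L * R ^ j⌋₊ (XX a b R k j) := fun j =>
    XX_pf (a := a) (b := b) hR (k := k) (L := L) (fun i hi => ⟨(hW.1 i (by omega)).1, hbb i hi⟩) j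
  have hXb : ∀ j u, XX a b R k j u ≤ (L' * R ^ j) ^ k := fun j u => by
    have h3 := XX_le (a := a) (b := b) hR (k := k) (L := L) hbb j u
    have h5 : (L * R ^ j) ^ k ≤ (L' * R ^ j) ^ k := by
      apply pow_le_pow_left₀ (by have := hRj j; positivity)
      exact mul_le_mul_of_nonneg_right (by linarith) (hRj j).le
    exact h3.trans h5
  have hYb : ∀ j u, Y j u ≤ (L' * R ^ j) ^ k := fun j u => (hY j u).2.1.trans (hXb j u)
  have hYa : ∀ j u, |Y j u| = Y j u := fun j u => abs_of_nonneg (hY j u).1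
  -- bounded measurable functions are integrable
  have hint : ∀ (G : ℝ → ℝ), Measurable G → (∃ B : ℝ, ∀ x, |G x| ≤ B) → Integrable G μ := by
    intro G hG hbG
    obtain ⟨B, hB⟩ := hbG
    exact intOn_of_bdd hG hB _ _
  -- the second moment of g
  set K5 := 2 * K2 + 2 * (cc * (l + 1)) ^ 2 with hK5
  have hK50 : 0 < K5 := by positivity
  have hμ1 : μ.real Set.univ = 1 := by
    rw [hμ, measureReal_restrict_apply_univ, Real.volume_real_Ioc_of_le (by linarith)]
    ring
  have hg2 : ∀ j ≥ jj, ∫ u, (g j u) ^ 2 ∂μ ≤ K5 := by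
    intro j hj
    obtain ⟨⟨_, h1⟩, _, h2⟩ := hj2 j (by omega)
    have i1 : Integrable (fun u => (cj j u) ^ 2) μ := hint _ ((hcm j).pow_const 2)
      ⟨(b k * R ^ j) ^ 2, fun u => by
        rw [abs_of_nonneg (sq_nonneg _)]; exact pow_le_pow_left₀ (hc0 j u) (hcb j u) 2⟩
    have i2 : Integrable (fun u => (g j u) ^ 2) μ := hint _ ((hgm j).pow_const 2)
      ⟨((1 + cc) * b k * R ^ j) ^ 2, fun u => by
        rw [abs_pow]; exact pow_le_pow_left₀ (abs_nonneg _) (hgb j u) 2⟩
    calc ∫ u, (g j u) ^ 2 ∂μ ≤ ∫ u, (2 * (cj j u) ^ 2 + 2 * (cc * (l + 1)) ^ 2) ∂μ := by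
          refine integral_mono i2 ((i1.const_mul 2).add (integrable_const _)) fun u => ?_
          have h3 : (cc * vj j) ^ 2 ≤ (cc * (l + 1)) ^ 2 :=
            pow_le_pow_left₀ (mul_nonneg hcc.le (hv0 j)) (mul_le_mul_of_nonneg_left h2 hcc.le) 2
          simp only [hg]
          nlinarith [sq_nonneg (cj j u + cc * vj j)]
      _ = 2 * (∫ u, (cj j u) ^ 2 ∂μ) + 2 * (cc * (l + 1)) ^ 2 := by
          rw [integral_add (i1.const_mul 2) (integrable_const _), integral_const_mul, integral_const,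
            smul_eq_mul, hμ1, one_mul]
      _ ≤ K5 := by
          have : ∫ u, (cj j u) ^ 2 ∂μ ≤ K2 := h1
          rw [hK5]
          linarith
  -- the truncated products
  set H : ℕ → ℝ → ℝ := fun j u => if jj ≤ j then Y j u * g j u else 0 with hH
  have hHm : ∀ j, Measurable (H j) := fun j => by
    simp only [hH]
    by_cases h : jj ≤ j
    · simp only [if_pos h]; exact (hYm j).mul (hgm j)
    · simp only [if_neg h]; exact measurable_const
  have hHb : ∀ j u, |H j u| ≤ (L' * R ^ j) ^ k * ((1 + cc) * b k * R ^ j) := fun j u => by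
    have h0 : 0 ≤ (L' * R ^ j) ^ k * ((1 + cc) * b k * R ^ j) := by have := hRj j; positivity
    simp only [hH]
    split_ifs with h
    · rw [abs_mul, hYa]
      exact mul_le_mul (hYb j u) (hgb j u) (abs_nonneg _) (by have := hRj j; positivity)
    · rw [abs_zero]; exact h0
  have hH2i : ∀ j, Integrable (fun u => (H j u) ^ 2) μ := fun j =>
    hint _ ((hHm j).pow_const 2) ⟨((L' * R ^ j) ^ k * ((1 + cc) * b k * R ^ j)) ^ 2, fun u => by
      rw [abs_pow]; exact pow_le_pow_left₀ (abs_nonneg _) (hHb j u) 2⟩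
  have hH2 : ∀ j : ℕ, ∫ u, (H j u) ^ 2 ∂μ ≤ K5 * ww j := by
    intro j
    have hwj := one_le_ww j
    by_cases h : jj ≤ j
    · have h1 := hg2 j h
      have i2 : Integrable (fun u => (g j u) ^ 2) μ := hint _ ((hgm j).pow_const 2)
        ⟨((1 + cc) * b k * R ^ j) ^ 2, fun u => by
          rw [abs_pow]; exact pow_le_pow_left₀ (abs_nonneg _) (hgb j u) 2⟩
      calc ∫ u, (H j u) ^ 2 ∂μ ≤ ∫ u, ww j * (g j u) ^ 2 ∂μ := by
            refine integral_mono (hH2i j) (i2.const_mul _) fun u => ?_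
            simp only [hH, if_pos h, mul_pow]
            apply mul_le_mul_of_nonneg_right _ (sq_nonneg _)
            rw [← half_rpow]
            exact pow_le_pow_left₀ (hY j u).1 (hY j u).2.2 2
        _ = ww j * ∫ u, (g j u) ^ 2 ∂μ := integral_const_mul _ _
        _ ≤ ww j * K5 := mul_le_mul_of_nonneg_left h1 (by linarith)
        _ = _ := mul_comm _ _
    · simp only [hH, if_neg h]
      simp
      positivity
  -- the first moment
  have hH1 : ∀ j : ℕ, ∫ u, |H j u| ∂μ ≤ (1 + K5) * ww j := by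
    intro j
    have hwj := one_le_ww j
    have i1 : Integrable (fun u => |H j u|) μ := hint _ (measurable_abs.comp (hHm j))
      ⟨(L' * R ^ j) ^ k * ((1 + cc) * b k * R ^ j), fun u => by
        rw [abs_abs]; exact hHb j u⟩
    have h1 : ∫ u, |H j u| ∂μ ≤ ∫ u, (1 + (H j u) ^ 2) ∂μ := by
      refine integral_mono i1 ((integrable_const _).add (hH2i j)) fun u => ?_
      simp only
      have := sq_abs (H j u)
      nlinarith [sq_nonneg (|H j u| - 1), abs_nonneg (H j u)]
    rw [integral_add (integrable_const _) (hH2i j), integral_const, smul_eq_mul, hμ1, one_mul] at h1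
    have h2 := hH2 j
    linarith
  -- the correlations
  set C6 := L' ^ (2 * k) * ((1 + cc) * b k) with hC6
  set C7 := L' ^ k * ((1 + cc) * b k) with hC7
  have hlR : 0 < Real.log R := Real.log_pos hR
  set C8 := 2 * (C4 * (1 / Real.log R)) * (K3 * ((1 + K5) + C7) + C6) with hC8
  have hC80 : 0 ≤ C8 := by positivity
  have hcorr : ∀ i j : ℕ, i + m ≤ j → |∫ u, H i u * H j u ∂μ| ≤ C8 * ww j / ((j : ℝ) + 1) := by
    intro i j hij
    have hwj := one_le_ww j
    by_cases hi : jj ≤ i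
    swap
    · simp only [hH, if_neg hi, zero_mul, integral_zero, abs_zero]
      positivity
    have hj : jj ≤ j := by omega
    have hj0 : (1 : ℝ) ≤ j := by exact_mod_cast (by omega : 1 ≤ j)
    obtain ⟨_, ⟨h3, h4⟩, _⟩ := hj2 j (by omega)
    have hRij : R ^ i ≤ R ^ j := pow_le_pow_right₀ hR.le (by omega)
    have hRi := hRj i
    have hRjj := hRj j
    have hlev : b k * R ^ i ≤ ρ1 * R ^ j := by
      have e1 : b k ≤ ρ1 * R ^ m := by
        rw [div_le_iff₀ hρ1] at hm
        linarith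
      calc b k * R ^ i ≤ ρ1 * R ^ m * R ^ i := mul_le_mul_of_nonneg_right e1 hRi.le
        _ = ρ1 * R ^ (m + i) := by rw [pow_add]; ring
        _ ≤ ρ1 * R ^ j := by
            apply mul_le_mul_of_nonneg_left _ hρ1.le
            exact pow_le_pow_right₀ hR.le (by omega)
    -- prefix functions
    have hHipf : PF ⌊ρ1 * R ^ j⌋₊ (fun u => Y i u * g i u) := by
      have h5 : PF ⌊b k * R ^ i⌋₊ (Y i) := hYpf i (b k) hbk.le fun i' hi' => by
        have := hL2 i' hi'
        linarith
      exact (h5.mono (Nat.floor_le_floor hlev)).mul (hgpf i _ (Nat.floor_le_floor hlev))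
    have e1 : ∀ u, H i u * H j u = (Y i u * g i u * Y j u) * g j u := fun u => by
      simp only [hH, if_pos hi, if_pos hj]
      ring
    simp only [e1]
    set X : ℝ → ℝ := fun u => Y i u * g i u * Y j u with hX
    have hXpf2 : PF ⌊ρ2 * R ^ j⌋₊ X := by
      refine (hHipf.mono (Nat.floor_le_floor ?_)).mul (hYpf j ρ2 (hL0.trans (le_max_left _ _)) fun i' hi' =>
        (hL2 i' hi').trans (le_max_left _ _))
      exact mul_le_mul_of_nonneg_right (le_max_right _ _) hRjj.le
    have hHib : ∀ u, |Y i u * g i u| ≤ C7 * (R ^ j) ^ (k + 1) := fun u => by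
      rw [abs_mul, hYa]
      calc Y i u * |g i u| ≤ (L' * R ^ i) ^ k * ((1 + cc) * b k * R ^ i) :=
            mul_le_mul (hYb i u) (hgb i u) (abs_nonneg _) (by positivity)
        _ ≤ (L' * R ^ j) ^ k * ((1 + cc) * b k * R ^ j) := by
            gcongr
        _ = _ := by rw [hC7, mul_pow, pow_succ]; ring
    have hXbd : ∀ u, |X u| ≤ C6 * (R ^ j) ^ (2 * k + 1) := fun u => by
      simp only [hX]
      rw [abs_mul, hYa]
      calc |Y i u * g i u| * Y j u ≤ (C7 * (R ^ j) ^ (k + 1)) * (L' * R ^ j) ^ k :=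
            mul_le_mul (hHib u) (hYb j u) (hY j u).1 (by positivity)
        _ = _ := by
            rw [hC7, hC6, mul_pow, two_mul, pow_add, pow_add L' k k]
            ring
    have h5 := h4 X (C6 * (R ^ j) ^ (2 * k + 1)) hXpf2 (by positivity) hXbd
    have h6 : ∫ u, |X u| ∂μ ≤ K3 * ((1 + K5) * ww j + C7) := by
      have h7 := h3 (fun u => |Y i u * g i u|) (C7 * (R ^ j) ^ (k + 1)) (hHipf.comp (fun x => |x|))
        (by positivity) (fun u => abs_nonneg _) hHib
      have h8 : ∫ u, |X u| ∂μ ≤ ∫ u, |Y i u * g i u| * ∏ i ∈ range k, cT (Pr (a i * R ^ j) (b i * R ^ j)) u ∂μ := by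
        refine integral_mono ?_ ?_ fun u => ?_
        · exact hint _ (measurable_abs.comp hXpf2.meas) ⟨C6 * (R ^ j) ^ (2 * k + 1), fun u => by
            rw [abs_abs]; exact hXbd u⟩
        · refine hint _ ((hHipf.comp (fun x => |x|)).meas.mul (hXpf j).meas)
            ⟨C7 * (R ^ j) ^ (k + 1) * (L' * R ^ j) ^ k, fun u => ?_⟩
          have h9 : 0 ≤ XX a b R k j u := XX_nonneg _ _ _ _ _ _
          show |(|Y i u * g i u|) * XX a b R k j u| ≤ _
          rw [abs_mul, abs_abs, abs_of_nonneg h9]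
          exact mul_le_mul (hHib u) (hXb j u) h9 (by positivity)
        · simp only [hX]
          rw [abs_mul, hYa]
          exact mul_le_mul_of_nonneg_left (hY j u).2.1 (abs_nonneg _)
      refine h8.trans (h7.trans ?_)
      have h10 : ∫ u in Set.Ioc b0 (b0 + 1), |Y i u * g i u| = ∫ u, |H i u| ∂μ := by
        simp only [hH, if_pos hi, hμ]
      have h11 : C7 * (R ^ j) ^ (k + 1) / (R ^ j) ^ (k + 1) = C7 := by field_simp
      rw [h10, h11]
      have h12 := hH1 i
      have h13 : ww i ≤ ww j := ww_mono (by omega)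
      have h14 : (1 + K5) * ww i ≤ (1 + K5) * ww j := mul_le_mul_of_nonneg_left h13 (by positivity)
      apply mul_le_mul_of_nonneg_left _ hK3.le
      linarith
    have h15 : C6 * (R ^ j) ^ (2 * k + 1) / (R ^ j) ^ (2 * k + 1) = C6 := by field_simp
    rw [h15] at h5
    have h16 : Real.log (R ^ j) = j * Real.log R := by rw [Real.log_pow]
    rw [h16] at h5
    have h5' : |∫ u, X u * g j u ∂μ| ≤ C4 * (1 / (j * Real.log R)) * ((∫ u, |X u| ∂μ) + C6) := h5
    refine h5'.trans ?_
    have h17 : 1 / ((j : ℝ) * Real.log R) ≤ 2 * (1 / Real.log R) * (1 / ((j : ℝ) + 1)) := by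
      have e3 : 2 * (1 / Real.log R) * (1 / ((j : ℝ) + 1)) = 2 / (Real.log R * ((j : ℝ) + 1)) := by
        field_simp
      rw [e3, div_le_div_iff₀ (by positivity) (by positivity)]
      nlinarith
    have h18 : (∫ u, |X u| ∂μ) + C6 ≤ (K3 * ((1 + K5) + C7) + C6) * ww j := by
      have e3 : K3 * ((1 + K5) * ww j + C7) + C6 ≤ (K3 * ((1 + K5) + C7) + C6) * ww j := by
        have e4 : 0 ≤ K3 * C7 + C6 := by positivity
        nlinarith
      linarith
    have h19 : 0 ≤ (∫ u, |X u| ∂μ) + C6 := by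
      have : 0 ≤ ∫ u, |X u| ∂μ := integral_nonneg fun u => abs_nonneg _
      positivity
    calc C4 * (1 / (j * Real.log R)) * ((∫ u, |X u| ∂μ) + C6) ≤
          C4 * (2 * (1 / Real.log R) * (1 / ((j : ℝ) + 1))) * ((K3 * ((1 + K5) + C7) + C6) * ww j) := by
          apply mul_le_mul _ h18 h19 (by positivity)
          exact mul_le_mul_of_nonneg_left h17 hC4.le
      _ = C8 * ww j / ((j : ℝ) + 1) := by rw [hC8]; ring
  have hlln := lln_corr (μ := μ) hHm (fun j => ⟨_, hHb j⟩) hK50.le hC80 m hH2 hcorr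
  -- the remainder
  set Dd : ℕ → ℝ → ℝ := fun j u => if jj ≤ j then (XX a b R k j u - Y j u) * |g j u| else 0 with hDd
  have hD0 : ∀ j u, 0 ≤ Dd j u := fun j u => by
    simp only [hDd]
    split_ifs
    · exact mul_nonneg (by have := (hY j u).2.1; linarith) (abs_nonneg _)
    · exact le_rfl
  have hDm : ∀ j, Measurable (Dd j) := fun j => by
    simp only [hDd]
    by_cases h : jj ≤ j
    · simp only [if_pos h]; exact ((hXpf j).meas.sub (hYm j)).mul (measurable_abs.comp (hgm j))
    · simp only [if_neg h]; exact measurable_const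
  have hDb : ∀ j u, |Dd j u| ≤ (L' * R ^ j) ^ k * ((1 + cc) * b k * R ^ j) := fun j u => by
    rw [abs_of_nonneg (hD0 j u)]
    have h0 : 0 ≤ (L' * R ^ j) ^ k * ((1 + cc) * b k * R ^ j) := by have := hRj j; positivity
    simp only [hDd]
    split_ifs with h
    · refine mul_le_mul ?_ (hgb j u) (abs_nonneg _) (by have := hRj j; positivity)
      have := (hY j u).1
      have := hXb j u
      linarith
    · exact h0
  set θ2 := min θ' 1 with hθ2
  have hθ20 : 0 < θ2 := lt_min hθ' one_pos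
  set C9 := K1 * (C1 + L' ^ k / c) + cc * (l + 1) * C1 with hC9
  have hC90 : 0 ≤ C9 := by positivity
  have hDint : ∀ j : ℕ, ∫ u, Dd j u ∂μ ≤ C9 * ((j : ℝ) + 1) ^ (-θ2) := by
    intro j
    by_cases h : jj ≤ j
    swap
    · simp only [hDd, if_neg h, integral_zero]
      positivity
    obtain ⟨⟨h1, _⟩, _, h2⟩ := hj2 j (by omega)
    have hRjj := hRj j
    set E : ℝ → ℝ := fun u => XX a b R k j u - Y j u with hE
    have hE0 : ∀ u, 0 ≤ E u := fun u => by have := (hY j u).2.1; simp only [hE]; linarith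
    have hEpf : PF ⌊L * R ^ j⌋₊ E := (hXpf j).sub (hYpf j L hL0 hL2)
    have hEb : ∀ u, E u ≤ (L' * R ^ j) ^ k := fun u => by
      have := (hY j u).1
      have := hXb j u
      simp only [hE]
      linarith
    have h3 := h1 E ((L' * R ^ j) ^ k) hEpf (by positivity) hE0 hEb
    simp only [prod_range_one] at h3
    have h4 : ∫ u in Set.Ioc b0 (b0 + 1), E u ≤ C1 * ((j : ℝ) + 1) ^ (-θ2) := by
      refine (hYloss j (by omega)).trans (mul_le_mul_of_nonneg_left ?_ hC1.le)
      exact rpow_decay (min_le_left _ _) j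
    have h5 : (L' * R ^ j) ^ k / (R ^ j) ^ (k + 1) ≤ L' ^ k / c * ((j : ℝ) + 1) ^ (-θ2) := by
      have e2 : (L' * R ^ j) ^ k / (R ^ j) ^ (k + 1) = L' ^ k * (1 / R ^ j) := by
        rw [mul_pow, pow_succ]
        field_simp
      rw [e2]
      have h4 : 1 / R ^ j ≤ 1 / c * ((j : ℝ) + 1) ^ (-θ2) := by
        have h5 : ((j : ℝ) + 1) ^ (-(1 : ℝ)) ≤ ((j : ℝ) + 1) ^ (-θ2) := rpow_decay (min_le_right _ _) j
        rw [Real.rpow_neg_one] at h5
        calc 1 / R ^ j ≤ 1 / (c * ((j : ℝ) + 1)) := one_div_le_one_div_of_le (by positivity) (hcj j)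
          _ = 1 / c * ((j : ℝ) + 1)⁻¹ := by field_simp
          _ ≤ _ := mul_le_mul_of_nonneg_left h5 (by positivity)
      calc L' ^ k * (1 / R ^ j) ≤ L' ^ k * (1 / c * ((j : ℝ) + 1) ^ (-θ2)) :=
            mul_le_mul_of_nonneg_left h4 (by positivity)
        _ = _ := by ring
    have iE : Integrable E μ := hint _ hEpf.meas ⟨(L' * R ^ j) ^ k, fun u => by
      rw [abs_of_nonneg (hE0 u)]; exact hEb u⟩
    have iEc : Integrable (fun u => E u * cj j u) μ := hint _ (hEpf.meas.mul (hcm j))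
      ⟨(L' * R ^ j) ^ k * (b k * R ^ j), fun u => by
        show |E u * cj j u| ≤ _
        rw [abs_of_nonneg (mul_nonneg (hE0 u) (hc0 j u))]
        exact mul_le_mul (hEb u) (hcb j u) (hc0 j u) (by positivity)⟩
    have h6 : ∫ u, Dd j u ∂μ ≤ ∫ u, (E u * cj j u + cc * vj j * E u) ∂μ := by
      refine integral_mono (hint _ (hDm j) ⟨_, hDb j⟩) (iEc.add (iE.const_mul _)) fun u => ?_
      simp only [hDd, if_pos h]
      have := mul_le_mul_of_nonneg_left (hgabs j u) (hE0 u)
      simp only [hE] at this ⊢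
      linarith
    refine h6.trans ?_
    rw [integral_add iEc (iE.const_mul _), integral_const_mul]
    have h7 : ∫ u, E u * cj j u ∂μ ≤ K1 * (C1 * ((j : ℝ) + 1) ^ (-θ2) + L' ^ k / c * ((j : ℝ) + 1) ^ (-θ2)) :=
      h3.trans (mul_le_mul_of_nonneg_left (add_le_add h4 h5) hK1.le)
    have h8 : cc * vj j * ∫ u, E u ∂μ ≤ cc * (l + 1) * (C1 * ((j : ℝ) + 1) ^ (-θ2)) := by
      apply mul_le_mul (mul_le_mul_of_nonneg_left h2 hcc.le) h4 (integral_nonneg hE0) (by positivity)
    calc _ ≤ K1 * (C1 * ((j : ℝ) + 1) ^ (-θ2) + L' ^ k / c * ((j : ℝ) + 1) ^ (-θ2)) +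
          cc * (l + 1) * (C1 * ((j : ℝ) + 1) ^ (-θ2)) := add_le_add h7 h8
      _ = _ := by rw [hC9]; ring
  have hsum : ∀ᵐ u ∂μ, Summable fun j : ℕ => Dd j u / ((j : ℝ) + 1) := by
    have hcs : Summable fun j : ℕ => C9 * ((j : ℝ) + 1) ^ (-(1 + θ2)) := by
      refine Summable.mul_left _ ?_
      have h3 : Summable fun n : ℕ => ((n : ℕ) : ℝ) ^ (-(1 + θ2)) := Real.summable_nat_rpow.2 (by linarith)
      refine ((summable_nat_add_iff 1).2 h3).congr fun n => ?_
      push_cast
      rfl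
    refine ae_summable (fun j => (hDm j).div_const _) (fun j u => div_nonneg (hD0 j u) (by positivity))
      (fun j => (hint _ (hDm j) ⟨_, hDb j⟩).div_const _) hcs fun j => ?_
    rw [integral_div, div_le_iff₀ (by positivity)]
    refine (hDint j).trans (le_of_eq ?_)
    rw [mul_assoc]
    congr 1
    rw [neg_add, Real.rpow_add (by positivity), Real.rpow_neg_one]
    field_simp
  filter_upwards [hlln, hsum] with u h1 h2
  have h3 := kron (fun j => hD0 j u) h2
  -- the difference
  set G : ℕ → ℝ := fun j => XX a b R k j u * g j u with hG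
  set S0 := ∑ j ∈ range jj, |G j| with hS0
  have hS00 : 0 ≤ S0 := sum_nonneg fun j _ => abs_nonneg _
  have hc0' : Tendsto (fun J : ℕ => S0 / (J : ℝ)) atTop (𝓝 0) := tendsto_const_div_atTop_nhds_zero_nat S0
  have hfin := (h1.abs.add h3).add hc0'
  rw [abs_zero, add_zero, add_zero] at hfin
  rw [tendsto_zero_iff_abs_tendsto_zero]
  refine squeeze_zero (fun J => abs_nonneg _) (fun J => ?_) hfin
  have hJ0 : (0 : ℝ) ≤ J := Nat.cast_nonneg J
  simp only [Function.comp_apply]
  rw [abs_div, abs_div, abs_of_nonneg hJ0, ← add_div, ← add_div]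
  apply div_le_div_of_nonneg_right _ hJ0
  have e1 : ∑ j ∈ range J, G j = ∑ j ∈ range J, H j u + ∑ j ∈ range J, (G j - H j u) := by
    rw [← sum_add_distrib]
    refine sum_congr rfl fun j _ => ?_
    ring
  have e2 : |∑ j ∈ range J, (G j - H j u)| ≤ ∑ j ∈ range J, Dd j u + S0 := by
    refine (abs_sum_le_sum_abs _ _).trans ?_
    have e3 : ∀ j ∈ range J, |G j - H j u| ≤ Dd j u + if j < jj then |G j| else 0 := by
      intro j _
      by_cases h : jj ≤ j
      · simp only [hDd, hH, if_pos h, if_neg (show ¬ j < jj by omega), add_zero, hG]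
        rw [← sub_mul, abs_mul, abs_of_nonneg (by have := (hY j u).2.1; linarith)]
      · simp only [hDd, hH, if_neg h, if_pos (show j < jj by omega), sub_zero, zero_add, le_refl]
    refine (sum_le_sum e3).trans ?_
    rw [sum_add_distrib]
    apply add_le_add le_rfl
    rw [← sum_filter, hS0]
    refine sum_le_sum_of_subset_of_nonneg (fun j hj => ?_) fun j _ _ => abs_nonneg _
    rw [mem_filter] at hj
    exact mem_range.2 hj.2
  have e4 : |∑ j ∈ range J, G j| ≤ |∑ j ∈ range J, H j u| + (∑ j ∈ range J, Dd j u + S0) := by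
    rw [e1]
    exact (abs_add_le _ _).trans (add_le_add le_rfl e2)
  linarith

/-- **The law of large numbers over the scales `R ^ j`.** -/
theorem lln (hS : SilS) (b0 : ℝ) {R : ℝ} (hR : 1 < R) (a b : ℕ → ℝ) (k : ℕ) (hW : Wd a b k) :
    ∀ᵐ u ∂(volume.restrict (Set.Ioc b0 (b0 + 1))),
      Tendsto (fun J : ℕ => (∑ j ∈ range J, XX a b R k j u) / J) atTop
        (𝓝 (∏ i ∈ range k, cc * Real.log (b i / a i))) := by
  induction k with
  | zero =>
    refine Eventually.of_forall fun u => ?_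
    simp only [XX, range_zero, prod_empty, sum_const, card_range, nsmul_eq_mul, mul_one]
    refine tendsto_const_nhds.congr' ?_
    filter_upwards [eventually_gt_atTop 0] with J hJ
    have : (J : ℝ) ≠ 0 := by exact_mod_cast hJ.ne'
    rw [div_self this]
  | succ k ih =>
    obtain ⟨hak, hakb⟩ := hW.1 k (by omega)
    have hv : Tendsto (fun z : ℝ => vT (Pr (a k * z) (b k * z))) atTop (𝓝 (Real.log (b k / a k))) :=
      mertens_window hak hakb
    have hvj : Tendsto (fun j : ℕ => vT (Pr (a k * R ^ j) (b k * R ^ j))) atTop (𝓝 (Real.log (b k / a k))) :=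
      hv.comp (R_tendsto hR)
    filter_upwards [ih hW.pred, lln_succ hS b0 hR a b k hW] with u h1 h2
    have h3 := cesaro_mul (fun j => XX_nonneg a b R k j u) h1 (hvj.const_mul cc)
    have h4 := h2.add h3
    rw [zero_add] at h4
    rw [prod_range_succ]
    refine h4.congr fun J => ?_
    rw [← add_div, ← sum_add_distrib]
    congr 1
    refine sum_congr rfl fun j _ => ?_
    rw [XX_succ]
    ring

end Pool.Agent.H176R
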