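import Mathlib
import Pool.Agent.H176M.Pal2
import Pool.Agent.H176R.Pal

set_option autoImplicit false

/-!
# Correlation functions for almost every amplitude, all real windows
-/

namespace Pool.Agent.H176R

open Pool.Agent.H176M (cell cells prefix_cell rr NN_bounds' NN_mono rr_facts log_div_sq_ge ii_of_bdd
  abs_int_le le_NN_iff LL_lip intOn_of_bdd abs_setint_le SilS silS Sys1 gr_set1 bigO_set1 bigO_all1 Pr
  mem_Pr card_Pr mertens_window vT vT_nonneg FN_meas exists_sup one_div_le_wt Wd pow_ge_lin R_tendsto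
  min_loss rpow_decay ae_summable kron cesaro_mul lln_quasi exists_inf vT_le half_rpow ww one_le_ww
  ww_mono lln_corr Pr_mono sh sh_zero sh_succ exists_block exists_finsupp shQ shQ_cast Wd_sh)

open Finset Filter Topology MeasureTheory

variable [Rb]

/-- the small parameter -/
lemma exists_small {k : ℕ} {a b : ℕ → ℝ} (h0 : ∀ i < k, 3 / 2 < a i ∧ a i < b i)
    (h1 : ∀ i j, i < j → j < k → 3 / 2 * b i < a j) {ε : ℝ} (hε : 0 < ε) :
    ∃ t : ℝ, 0 < t ∧ t < 1 / 2 ∧ (∀ i < k, 3 / 2 * (1 + t) < a i * (1 - t)) ∧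
      (∀ i j, i < j → j < k → 3 / 2 * (b i * (1 + t) ^ 2) < a j * (1 - t)) ∧
      (∀ i < k, a i * (1 + t) ^ 2 < b i * (1 - t)) ∧
      (∀ i < k, 4 * t < Real.log (b i / a i)) ∧
      cc * ∏ i ∈ range k, cc * (Real.log (b i / a i) + 4 * t) ≤ cc * (∏ i ∈ range k, cc * Real.log (b i / a i)) + ε ∧
      cc * (∏ i ∈ range k, cc * Real.log (b i / a i)) - ε ≤ cc * ∏ i ∈ range k, cc * (Real.log (b i / a i) - 4 * t) := by
  have ev : ∀ {f g : ℝ → ℝ}, Continuous f → Continuous g → f 0 < g 0 → ∀ᶠ t in 𝓝[>] (0 : ℝ), f t < g t := by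
    intro f g hf hg h
    exact nhdsWithin_le_nhds ((hf.tendsto 0).eventually_lt (hg.tendsto 0) h)
  have e1 : ∀ᶠ t in 𝓝[>] (0 : ℝ), ∀ i ∈ range k, 3 / 2 * (1 + t) < a i * (1 - t) :=
    (Filter.eventually_all_finset _).2 fun i hi => ev (by fun_prop) (by fun_prop)
      (by have := (h0 i (mem_range.1 hi)).1; linarith)
  have e2 : ∀ᶠ t in 𝓝[>] (0 : ℝ), ∀ i ∈ range k, ∀ j ∈ range k, i < j →
      3 / 2 * (b i * (1 + t) ^ 2) < a j * (1 - t) :=
    (Filter.eventually_all_finset _).2 fun i hi => (Filter.eventually_all_finset _).2 fun j hj => by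
      by_cases hij : i < j
      · filter_upwards [ev (f := fun t => 3 / 2 * (b i * (1 + t) ^ 2)) (g := fun t => a j * (1 - t))
          (by fun_prop) (by fun_prop) (by have := h1 i j hij (mem_range.1 hj); linarith)] with t ht _
        exact ht
      · exact Eventually.of_forall fun t h => absurd h hij
  have e3 : ∀ᶠ t in 𝓝[>] (0 : ℝ), ∀ i ∈ range k, a i * (1 + t) ^ 2 < b i * (1 - t) :=
    (Filter.eventually_all_finset _).2 fun i hi => ev (by fun_prop) (by fun_prop)
      (by have := (h0 i (mem_range.1 hi)).2; linarith)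
  have e4 : ∀ᶠ t in 𝓝[>] (0 : ℝ), ∀ i ∈ range k, 4 * t < Real.log (b i / a i) :=
    (Filter.eventually_all_finset _).2 fun i hi => ev (by fun_prop) (by fun_prop) (by
      obtain ⟨h2, h3⟩ := h0 i (mem_range.1 hi)
      have : 0 < a i := by linarith
      simpa using Real.log_pos ((one_lt_div this).2 h3))
  have e5 : ∀ᶠ t in 𝓝[>] (0 : ℝ), cc * ∏ i ∈ range k, cc * (Real.log (b i / a i) + 4 * t) <
      cc * (∏ i ∈ range k, cc * Real.log (b i / a i)) + ε := by
    refine ev (by fun_prop) (by fun_prop) ?_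
    simp only [mul_zero, add_zero]
    linarith
  have e6 : ∀ᶠ t in 𝓝[>] (0 : ℝ), cc * (∏ i ∈ range k, cc * Real.log (b i / a i)) - ε <
      cc * ∏ i ∈ range k, cc * (Real.log (b i / a i) - 4 * t) := by
    refine ev (by fun_prop) (by fun_prop) ?_
    simp only [mul_zero, sub_zero]
    linarith
  have e7 : ∀ᶠ t in 𝓝[>] (0 : ℝ), t < 1 / 2 := ev (by fun_prop) (by fun_prop) (by norm_num)
  have e8 : ∀ᶠ t in 𝓝[>] (0 : ℝ), 0 < t := eventually_mem_nhdsWithin
  obtain ⟨t, t1, t2, t3, t4, t5, t6, t7, t8⟩ :=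
    (e1.and (e2.and (e3.and (e4.and (e5.and (e6.and (e7.and e8))))))).exists
  exact ⟨t, t8, t7, fun i hi => t1 i (mem_range.2 hi),
    fun i j hij hj => t2 i (mem_range.2 (hij.trans hj)) j (mem_range.2 hj) hij,
    fun i hi => t3 i (mem_range.2 hi), fun i hi => t4 i (mem_range.2 hi), t5.le, t6.le⟩

/-- the law of large numbers for windows with the index `0` added -/
lemma LQ.sh {u : ℝ} (h : LQ u) (k m : ℕ) (f g : ℕ → ℚ) {R : ℝ} (hRm : R = 1 + 1 / ((m : ℝ) + 1))
    (h0 : ∀ i < k, (0 : ℝ) < f i ∧ (f i : ℝ) < g i)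
    (h1 : ∀ i < k, 3 / 2 * R < (f i : ℝ)) (h2 : ∀ i j, i < j → j < k → 3 / 2 * (g i : ℝ) < f j) :
    Tendsto (fun J : ℕ => (∑ j ∈ range J, XX (sh 1 (fun i => (f i : ℝ))) (Pool.Agent.H176M.sh R (fun i => (g i : ℝ))) R (k + 1) j u) / J)
      atTop (𝓝 (cc * (∏ i ∈ range k, cc * Real.log ((g i : ℝ) / f i)) * Real.log R)) := by
  have hR : 1 < R := by
    rw [hRm]
    have : 0 < 1 / ((m : ℝ) + 1) := by positivity
    linarith
  set Rq : ℚ := 1 + 1 / ((m : ℚ) + 1) with hRq
  have hRqc : (Rq : ℝ) = R := by rw [hRm, hRq]; push_cast; rfl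
  have hc1 : (fun i => ((shQ 1 f i : ℚ) : ℝ)) = Pool.Agent.H176M.sh 1 (fun i => (f i : ℝ)) := by
    funext i
    rw [shQ_cast]
    norm_num
  have hc2 : (fun i => ((shQ Rq g i : ℚ) : ℝ)) = Pool.Agent.H176M.sh R (fun i => (g i : ℝ)) := by
    funext i
    rw [shQ_cast, hRqc]
  have hW := Wd_sh hR h0 h1 h2
  have h3 := h.rat (k + 1) m (shQ 1 f) (shQ Rq g) (by rw [hc1, hc2]; exact hW)
  rw [hc1, hc2, ← hRm] at h3
  have e1 : ∏ i ∈ range (k + 1), cc * Real.log (((shQ Rq g i : ℚ) : ℝ) / ((shQ 1 f i : ℚ) : ℝ)) =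
      cc * (∏ i ∈ range k, cc * Real.log ((g i : ℝ) / f i)) * Real.log R := by
    rw [prod_range_succ']
    have e2 : ∀ i, ((shQ Rq g (i + 1) : ℚ) : ℝ) = g i := fun i => by simp [shQ]
    have e3 : ∀ i, ((shQ 1 f (i + 1) : ℚ) : ℝ) = f i := fun i => by simp [shQ]
    have e4 : ((shQ Rq g 0 : ℚ) : ℝ) = R := by simp only [shQ, if_true]; exact hRqc
    have e5 : ((shQ 1 f 0 : ℚ) : ℝ) = 1 := by simp [shQ]
    simp only [e2, e3, e4, e5, div_one]
    ring
  rw [e1] at h3
  exact h3

/-- **Correlation functions at a point with the law of large numbers.** -/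
theorem corr_of_LQ {u : ℝ} (h : LQ u) {k : ℕ} {a b : ℕ → ℝ} (h0 : ∀ i < k, 3 / 2 < a i ∧ a i < b i)
    (h1 : ∀ i j, i < j → j < k → 3 / 2 * b i < a j) :
    Tendsto (fun n : ℕ => CS a b k n u / Real.log n) atTop
      (𝓝 (cc * ∏ i ∈ range k, cc * Real.log (b i / a i))) := by
  refine squeeze_blocks fun ε hε => ?_
  obtain ⟨t, ht0, ht1, t1, t2, t3, t4, t5, t6⟩ := exists_small h0 h1 hε
  obtain ⟨m, hm⟩ := exists_nat_one_div_lt ht0
  set R : ℝ := 1 + 1 / ((m : ℝ) + 1) with hR
  have hR1 : 1 < R := by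
    rw [hR]
    have : 0 < 1 / ((m : ℝ) + 1) := by positivity
    linarith
  have hRt : R ≤ 1 + t := by rw [hR]; linarith
  have hR0 : 0 < R := by linarith
  set Rq : ℚ := 1 + 1 / ((m : ℚ) + 1) with hRq
  have hRqc : (Rq : ℝ) = R := by rw [hR, hRq]; push_cast; rfl
  have ha0 : ∀ i < k, 0 < a i := fun i hi => by have := (h0 i hi).1; linarith
  have hb0 : ∀ i < k, 0 < b i := fun i hi => (ha0 i hi).trans (h0 i hi).2
  -- rational approximations
  have q1 : ∀ i, ∃ q : ℚ, i < k → a i * (1 - t) < q ∧ (q : ℝ) < a i := fun i => by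
    by_cases hi : i < k
    · obtain ⟨q, hq⟩ := exists_rat_btwn (show a i * (1 - t) < a i by have := ha0 i hi; nlinarith)
      exact ⟨q, fun _ => hq⟩
    · exact ⟨0, fun h => absurd h hi⟩
  have q2 : ∀ i, ∃ q : ℚ, i < k → b i < q ∧ (q : ℝ) < b i * (1 + t) := fun i => by
    by_cases hi : i < k
    · obtain ⟨q, hq⟩ := exists_rat_btwn (show b i < b i * (1 + t) by have := hb0 i hi; nlinarith)
      exact ⟨q, fun _ => hq⟩
    · exact ⟨0, fun h => absurd h hi⟩
  have q3 : ∀ i, ∃ q : ℚ, i < k → a i < q ∧ (q : ℝ) < a i * (1 + t) := fun i => by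
    by_cases hi : i < k
    · obtain ⟨q, hq⟩ := exists_rat_btwn (show a i < a i * (1 + t) by have := ha0 i hi; nlinarith)
      exact ⟨q, fun _ => hq⟩
    · exact ⟨0, fun h => absurd h hi⟩
  have q4 : ∀ i, ∃ q : ℚ, i < k → b i * (1 - t) < q ∧ (q : ℝ) < b i := fun i => by
    by_cases hi : i < k
    · obtain ⟨q, hq⟩ := exists_rat_btwn (show b i * (1 - t) < b i by have := hb0 i hi; nlinarith)
      exact ⟨q, fun _ => hq⟩
    · exact ⟨0, fun h => absurd h hi⟩
  choose f hf using q1
  choose g hg using q2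
  choose f' hf' using q3
  choose g' hg' using q4
  have hlog1 : Real.log (1 + t) ≤ t := by
    have := Real.log_le_sub_one_of_pos (show 0 < 1 + t by linarith)
    linarith
  have hlog2 : -(2 * t) ≤ Real.log (1 - t) := by
    have h3 := Real.one_sub_inv_le_log_of_pos (show 0 < 1 - t by linarith)
    have h4 : (1 - t)⁻¹ ≤ 1 + 2 * t := by
      rw [inv_le_comm₀ (by linarith) (by linarith), inv_le_comm₀ (by linarith) (by linarith)]
      rw [inv_le_iff_one_le_mul₀ (by linarith)]
      nlinarith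
    linarith
  -- outer windows
  have O1 := LQ.sh h k m f (fun i => g i * Rq) (R := R) hR
    (fun i hi => by
      obtain ⟨x1, x2⟩ := hf i hi
      obtain ⟨y1, y2⟩ := hg i hi
      have := t1 i hi
      push_cast
      rw [hRqc]
      refine ⟨by nlinarith, ?_⟩
      have h5 := (h0 i hi).2
      have h6 := hb0 i hi
      nlinarith)
    (fun i hi => by
      obtain ⟨x1, x2⟩ := hf i hi
      have := t1 i hi
      nlinarith)
    (fun i j hij hj => by
      obtain ⟨x1, x2⟩ := hf j hj
      obtain ⟨y1, y2⟩ := hg i (hij.trans hj)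
      have h5 := t2 i j hij hj
      push_cast
      rw [hRqc]
      have h6 := hb0 i (hij.trans hj)
      have h7 : (g i : ℝ) * R ≤ b i * (1 + t) ^ 2 := by
        calc (g i : ℝ) * R ≤ b i * (1 + t) * (1 + t) := by
              apply mul_le_mul y2.le hRt hR0.le
              positivity
          _ = _ := by ring
      linarith)
  -- inner windows
  have I1 := LQ.sh h k m (fun i => f' i * Rq) g' (R := R) hR
    (fun i hi => by
      obtain ⟨x1, x2⟩ := hf' i hi
      obtain ⟨y1, y2⟩ := hg' i hi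
      have h5 := ha0 i hi
      have h6 := t3 i hi
      push_cast
      rw [hRqc]
      refine ⟨by have : (0 : ℝ) < f' i := by linarith
                 positivity, ?_⟩
      calc (f' i : ℝ) * R ≤ a i * (1 + t) * (1 + t) := by
            apply mul_le_mul x2.le hRt hR0.le
            positivity
        _ = a i * (1 + t) ^ 2 := by ring
        _ < b i * (1 - t) := h6
        _ < g' i := y1)
    (fun i hi => by
      obtain ⟨x1, x2⟩ := hf' i hi
      have h5 := (h0 i hi).1
      push_cast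
      rw [hRqc]
      nlinarith)
    (fun i j hij hj => by
      obtain ⟨x1, x2⟩ := hf' j hj
      obtain ⟨y1, y2⟩ := hg' i (hij.trans hj)
      have h5 := h1 i j hij hj
      have h6 := ha0 j hj
      push_cast
      rw [hRqc]
      nlinarith)
  refine ⟨R, hR1, _, _, _, _, O1, I1, ?_, ?_, ?_, ?_⟩
  · refine le_trans (mul_le_mul_of_nonneg_left ?_ cc_pos.le) t5
    refine prod_le_prod (fun i hi => ?_) fun i hi => ?_
    · have hi' := mem_range.1 hi
      obtain ⟨x1, x2⟩ := hf i hi'
      obtain ⟨y1, y2⟩ := hg i hi'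
      have h5 := (h0 i hi').2
      have h6 := hb0 i hi'
      have h7 := t1 i hi'
      have hfi : (0 : ℝ) < f i := by nlinarith
      refine mul_nonneg cc_pos.le (Real.log_nonneg ?_)
      push_cast
      rw [hRqc, one_le_div hfi]
      nlinarith
    · have hi' := mem_range.1 hi
      obtain ⟨x1, x2⟩ := hf i hi'
      obtain ⟨y1, y2⟩ := hg i hi'
      have h6 := hb0 i hi'
      have h6' := ha0 i hi'
      have h7 := t1 i hi'
      have hfi : (0 : ℝ) < f i := by nlinarith
      have hgi : (0 : ℝ) < g i := by linarith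
      refine mul_le_mul_of_nonneg_left ?_ cc_pos.le
      push_cast
      rw [hRqc]
      have e1 : (g i : ℝ) * R / f i ≤ b i * (1 + t) * (1 + t) / (a i * (1 - t)) := by
        apply div_le_div₀ (by positivity) _ (mul_pos h6' (by linarith)) x1.le
        exact mul_le_mul y2.le hRt hR0.le (by positivity)
      have e2 := Real.log_le_log (by positivity) e1
      rw [Real.log_div (by positivity) (mul_pos h6' (by linarith)).ne', Real.log_mul (by positivity) (by positivity),
        Real.log_mul (by positivity) (by positivity), Real.log_mul h6'.ne' (by linarith)] at e2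
      rw [Real.log_div h6.ne' h6'.ne']
      linarith
  · refine le_trans t6 (mul_le_mul_of_nonneg_left ?_ cc_pos.le)
    refine prod_le_prod (fun i hi => ?_) fun i hi => ?_
    · have := t4 i (mem_range.1 hi)
      exact mul_nonneg cc_pos.le (by linarith)
    · have hi' := mem_range.1 hi
      obtain ⟨x1, x2⟩ := hf' i hi'
      obtain ⟨y1, y2⟩ := hg' i hi'
      have h6 := hb0 i hi'
      have h6' := ha0 i hi'
      have hfi : (0 : ℝ) < f' i := by linarith
      refine mul_le_mul_of_nonneg_left ?_ cc_pos.le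
      push_cast
      rw [hRqc]
      have hbt : 0 < b i * (1 - t) := mul_pos h6 (by linarith)
      have e1 : b i * (1 - t) / (a i * (1 + t) * (1 + t)) ≤ (g' i : ℝ) / (f' i * R) := by
        apply div_le_div₀ (by linarith) y1.le (by positivity)
        exact mul_le_mul x2.le hRt hR0.le (by positivity)
      have e2 := Real.log_le_log (by positivity) e1
      rw [Real.log_div hbt.ne' (by positivity), Real.log_mul h6.ne' (by linarith),
        Real.log_mul (by positivity) (by positivity), Real.log_mul h6'.ne' (by positivity)] at e2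
      rw [Real.log_div h6.ne' h6'.ne']
      linarith
  · intro n J _ hJ
    refine CS_upper hR1 (fun i hi => ?_) (fun i hi => ?_) u hJ
    · obtain ⟨x1, x2⟩ := hf i hi
      have := t1 i hi
      exact ⟨by nlinarith, x2.le⟩
    · obtain ⟨y1, y2⟩ := hg i hi
      refine ⟨hb0 i hi, ?_⟩
      push_cast
      rw [hRqc]
      exact mul_le_mul_of_nonneg_right y1.le hR0.le
  · intro n J _ hJ
    refine CS_lower hR1 (fun i hi => ?_) (fun i hi => ?_) u hJ
    · obtain ⟨x1, x2⟩ := hf' i hi
      refine ⟨ha0 i hi, ?_⟩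
      push_cast
      rw [hRqc]
      exact mul_le_mul_of_nonneg_right x1.le hR0.le
    · obtain ⟨y1, y2⟩ := hg' i hi
      have h6 := hb0 i hi
      exact ⟨by nlinarith, y2.le⟩

end Pool.Agent.H176R
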