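import Mathlib
import Pool.Agent.H176R.Pal2

set_option autoImplicit false

/-!
# The correlation functions for real bases
-/

namespace Pool.Agent.H176R

open Pool.Agent.H176M (Pr mem_Pr vT mertens_window silS bigO_set1 bigO_all1)
open Finset Filter Topology MeasureTheory Asymptotics
open Pool.Agent.H305R2 (roughPart NN ff)
open Pool.Agent.TH888.R (VS cS Near)
open Pool.Agent.W66X (ysh)

/-- the `p`-rough part of `⌊|β α ^ p + g p|⌋` -/
noncomputable def WR (α : ℝ) (g : ℕ → ℝ) (β : ℝ) (p : ℕ) : ℕ := roughPart p ⌊|β * α ^ p + g p|⌋₊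

/-- the number of exponents in a finite set -/
noncomputable def NR (α : ℝ) (g : ℕ → ℝ) (T : Finset ℕ) (β : ℝ) : ℕ :=
  (T.filter (fun p => (WR α g β p).Prime)).card

/-- the set of exponents in `(x, y]` -/
noncomputable def ER (α : ℝ) (g : ℕ → ℝ) (β x y : ℝ) : Finset ℕ :=
  (Finset.Ioc ⌊x⌋₊ ⌊y⌋₊).filter (fun p => p.Prime ∧ (WR α g β p).Prime)

lemma ff_log_abs {p : ℕ} {x : ℝ} (hx : ∀ m : ℤ, x ≠ m) :
    ff p (Real.log x) = if (roughPart p ⌊|x|⌋₊).Prime then 1 else 0 := by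
  have hx0 : x ≠ 0 := by simpa using hx 0
  unfold ff NN
  rw [Real.exp_log_eq_abs hx0]
  have hy : ∀ m : ℕ, |x| ≠ m := fun m hm => by
    rcases abs_choice x with h | h
    · exact hx m (by rw [← h, hm]; simp)
    · exact hx (-(m : ℤ)) (by push_cast; rw [← hm, h]; ring)
  have h1 : ⌈|x|⌉₊ = ⌊|x|⌋₊ + 1 := by
    apply le_antisymm (Nat.ceil_le_floor_add_one _)
    have h2 : ⌊|x|⌋₊ < ⌈|x|⌉₊ := by
      rw [Nat.lt_ceil]
      exact lt_of_le_of_ne (Nat.floor_le (abs_nonneg x)) (hy _).symm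
    omega
  rw [h1, Nat.add_sub_cancel]

lemma fp_WR [Rb] {β : ℝ} (hβ : 0 < β) {p : ℕ} (hx : ∀ m : ℤ, β * Rb.α ^ p + Rb.g p ≠ m) :
    fp p (Real.log β) = if (WR Rb.α Rb.g β p).Prime then 1 else 0 := by
  unfold fp WR yp ysh gr'
  rw [Real.exp_log hβ]
  exact ff_log_abs hx

lemma ER_eq (α : ℝ) (g : ℕ → ℝ) (β x y : ℝ) : ER α g β x y = (Pr x y).filter (fun p => (WR α g β p).Prime) := by
  unfold ER Pr
  rw [Finset.filter_filter]

lemma NR_card [Rb] {β : ℝ} (hβ : 0 < β) (hx : ∀ (p : ℕ) (m : ℤ), β * Rb.α ^ p + Rb.g p ≠ m) (T : Finset ℕ) :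
    (NR Rb.α Rb.g T β : ℝ) = cT T (Real.log β) := by
  unfold NR cT
  rw [Finset.card_eq_sum_ones, Finset.sum_filter]
  push_cast
  refine Finset.sum_congr rfl fun p _ => ?_
  rw [fp_WR hβ (hx p)]

lemma ER_card [Rb] {β : ℝ} (hβ : 0 < β) (hx : ∀ (p : ℕ) (m : ℤ), β * Rb.α ^ p + Rb.g p ≠ m) (x y : ℝ) :
    ((ER Rb.α Rb.g β x y).card : ℝ) = cT (Pr x y) (Real.log β) := by
  rw [ER_eq]
  exact NR_card hβ hx (Pr x y)

/-- almost no amplitude gives an integer -/
lemma ae_not_int {α : ℝ} (hα0 : 0 < α) (g : ℕ → ℝ) : ∀ᵐ t : ℝ, ∀ (p : ℕ) (m : ℤ), Real.exp t * α ^ p + g p ≠ m := by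
  have hnull : volume (⋃ p : ℕ, ⋃ m : ℤ, {t : ℝ | Real.exp t * α ^ p + g p = m}) = 0 := by
    refine Set.Countable.measure_zero ?_ volume
    refine Set.countable_iUnion fun p => Set.countable_iUnion fun m => ?_
    refine Set.Subsingleton.countable ?_
    intro s hs t ht
    simp only [Set.mem_ofPred_eq] at hs ht
    have h3 : Real.exp s * α ^ p = Real.exp t * α ^ p := by linarith
    exact Real.exp_injective (mul_right_cancel₀ (pow_pos hα0 p).ne' h3)
  have hae : ∀ᵐ t : ℝ, t ∉ ⋃ p : ℕ, ⋃ m : ℤ, {t : ℝ | Real.exp t * α ^ p + g p = m} := by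
    rw [ae_iff]
    refine measure_mono_null (fun t ht => ?_) hnull
    simpa only [Set.mem_ofPred_eq, not_not] using ht
  filter_upwards [hae] with t ht p m hm
  refine ht ?_
  simp only [Set.mem_iUnion]
  exact ⟨p, m, hm⟩

section

variable {α : ℝ} {g : ℕ → ℝ} {κ C : ℝ} (hα : 1 < α) (hκ0 : 0 ≤ κ) (hκ : κ < α)
  (hg : ∀ p, |g p| ≤ C * κ ^ p) (hnear : Near α g)

include hα hκ0 hκ hg hnear

/-- the correlation functions, for almost every amplitude -/
theorem corr_rb : ∀ᵐ β : ℝ, 0 < β → ∀ (k : ℕ) (c d : ℕ → ℝ),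
      (∀ i < k, 3 / 2 < c i ∧ c i < d i) → (∀ i j : ℕ, i < j → j < k → 3 / 2 * d i < c j) →
      Tendsto (fun n : ℕ => (∑ p ∈ ER α g β 0 n, ∏ i ∈ Finset.range k,
        ((ER α g β (c i * p) (d i * p)).card : ℝ)) / Real.log n) atTop
        (𝓝 (Real.exp Real.eulerMascheroniConstant / Real.log α * ∏ i ∈ Finset.range k,
          Real.exp Real.eulerMascheroniConstant / Real.log α * Real.log (d i / c i))) := by
  letI : Rb := ⟨α, g, κ, C, hα, hκ0, hκ, hg, hnear⟩
  have hα0 : 0 < α := by linarith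
  have h1 : ∀ᵐ β : ℝ, 0 < β → (LQ (Real.log β) ∧ ∀ (p : ℕ) (m : ℤ), β * α ^ p + g p ≠ m) :=
    Pool.Agent.W66X.ae_of_exp' (P := fun β : ℝ => LQ (Real.log β) ∧ ∀ (p : ℕ) (m : ℤ), β * α ^ p + g p ≠ m) (by
      filter_upwards [ae_LQ silS, ae_not_int hα0 g] with t ht ht2
      rw [Real.log_exp]
      exact ⟨ht, ht2⟩)
  filter_upwards [h1] with β hβ hβ0 k c d h2 h3
  have h4 := corr_of_LQ (hβ hβ0).1 h2 h3
  have hni := (hβ hβ0).2
  refine h4.congr fun n => ?_
  congr 1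
  unfold CS
  have e1 : ∀ x y : ℝ, ((ER α g β x y).card : ℝ) = cT (Pr x y) (Real.log β) := fun x y => ER_card hβ0 hni x y
  have e2 : ∀ p : ℕ, fp p (Real.log β) = if (WR α g β p).Prime then 1 else 0 := fun p =>
    fp_WR hβ0 (hni p)
  rw [ER_eq, Finset.sum_filter]
  refine Finset.sum_congr rfl fun p _ => ?_
  simp only [e1]
  rw [e2]
  split_ifs <;> simp

/-- the joint correlations in the mean, given the earlier exponents -/
theorem joint_rb (k A : ℕ) (ρ : ℝ) (c d : ℕ → ℝ) (hρ : 0 ≤ ρ)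
    (h0 : ∀ i < k, 0 < c i ∧ c i < d i) (h1 : ∀ i j : ℕ, i < j → j < k → 3 / 2 * d i < c j)
    (h2 : ∀ i < k, 3 / 2 * ρ < c i) (s t : ℝ) (hst : s ≤ t) (η : ℝ) (hη : 0 < η) : ∀ᶠ z : ℝ in atTop,
      ∀ T : ℕ → Finset ℕ, (∀ i < k, ∀ p ∈ T i, p.Prime ∧ c i * z < p ∧ (p : ℝ) ≤ d i * z) →
      ∀ F : Finset ℕ → ℝ, (∀ S, |F S| ≤ 1) →
        |(∫ u in s..t, F (ER α g (Real.exp u) 0 (ρ * z)) *
            ∏ i ∈ Finset.range k, (NR α g (T i) (Real.exp u) : ℝ)) -
          (∏ i ∈ Finset.range k, Real.exp Real.eulerMascheroniConstant / Real.log α * vT (T i)) *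
            ∫ u in s..t, F (ER α g (Real.exp u) 0 (ρ * z))| ≤
        η * (∏ i ∈ Finset.range k, vT (T i)) *
          ((∫ u in s..t, |F (ER α g (Real.exp u) 0 (ρ * z))|) + 1 / z ^ A) := by
  classical
  letI : Rb := ⟨α, g, κ, C, hα, hκ0, hκ, hg, hnear⟩
  have hα0 : 0 < α := by linarith
  filter_upwards [joint silS ρ hρ c d A k h0 h1 h2 hst η hη, eventually_gt_atTop 0] with z hz hz0 T hT F hF
  have hTs : ∀ i < k, T i ⊆ Pr (c i * z) (d i * z) := fun i hi p hp => by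
    obtain ⟨ai, abi⟩ := h0 i hi
    have bi : 0 < d i := ai.trans abi
    rw [mem_Pr (by positivity) (by positivity)]
    exact hT i hi p hp
  set X : ℝ → ℝ := fun u => F ((es ⌊ρ * z⌋₊ u).filter Nat.Prime) with hX
  have hXP : PF ⌊ρ * z⌋₊ X := ⟨fun S => F (S.filter Nat.Prime), fun u => rfl⟩
  have h3 := hz T hTs X hXP (fun u => hF _)
  unfold ZT at h3
  have hae := ae_not_int hα0 g
  have e1 : ∀ u : ℝ, (∀ (p : ℕ) (m : ℤ), Real.exp u * α ^ p + g p ≠ m) → X u = F (ER α g (Real.exp u) 0 (ρ * z)) := by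
    intro u hu
    simp only [hX]
    congr 1
    ext p
    have e2 : fp p u = if (WR α g (Real.exp u) p).Prime then 1 else 0 := by
      have := fp_WR (Real.exp_pos u) (hu p)
      rwa [Real.log_exp] at this
    rw [Finset.mem_filter, mem_es, e2]
    unfold ER
    rw [Finset.mem_filter, Finset.mem_Ioc, Nat.floor_zero]
    constructor
    · rintro ⟨⟨g1, g2⟩, g3⟩
      refine ⟨⟨g3.pos, g1⟩, g3, ?_⟩
      by_contra hcon
      rw [if_neg hcon] at g2
      exact zero_ne_one g2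
    · rintro ⟨⟨_, g1⟩, g3, g2⟩
      exact ⟨⟨g1, if_pos g2⟩, g3⟩
  have e3 : ∀ (T : Finset ℕ) (u : ℝ), (∀ (p : ℕ) (m : ℤ), Real.exp u * α ^ p + g p ≠ m) →
      cT T u = (NR α g T (Real.exp u) : ℝ) := fun T u hu => by
    have := NR_card (Real.exp_pos u) hu T
    rw [Real.log_exp] at this
    exact this.symm
  have i1 : ∫ u in Set.Ioc s t, F (ER α g (Real.exp u) 0 (ρ * z)) *
      ∏ i ∈ Finset.range k, (NR α g (T i) (Real.exp u) : ℝ) = ∫ u in Set.Ioc s t, X u * ∏ i ∈ range k, cT (T i) u := by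
    refine integral_congr_ae ?_
    filter_upwards [ae_restrict_of_ae hae] with u hu
    rw [e1 u hu]
    congr 1
    exact Finset.prod_congr rfl fun i _ => (e3 (T i) u hu).symm
  have i2 : ∫ u in Set.Ioc s t, F (ER α g (Real.exp u) 0 (ρ * z)) = ∫ u in Set.Ioc s t, X u := by
    refine integral_congr_ae ?_
    filter_upwards [ae_restrict_of_ae hae] with u hu
    exact (e1 u hu).symm
  have i3 : ∫ u in Set.Ioc s t, |F (ER α g (Real.exp u) 0 (ρ * z))| = ∫ u in Set.Ioc s t, |X u| := by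
    refine integral_congr_ae ?_
    filter_upwards [ae_restrict_of_ae hae] with u hu
    show |F (ER α g (Real.exp u) 0 (ρ * z))| = |X u|
    rw [e1 u hu]
  rw [intervalIntegral.integral_of_le hst, intervalIntegral.integral_of_le hst,
    intervalIntegral.integral_of_le hst, i1, i2, i3]
  exact h3

/-- the mean values of the correlations -/
theorem mean_rb (k : ℕ) (c d : ℕ → ℝ) (h0 : ∀ i < k, 0 < c i ∧ c i < d i)
    (h1 : ∀ i j : ℕ, i < j → j < k → 3 / 2 * d i < c j) (s t : ℝ) (hst : s ≤ t) :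
      Tendsto (fun z : ℝ => ∫ u in s..t,
        ∏ i ∈ Finset.range k, (NR α g (Pr (c i * z) (d i * z)) (Real.exp u) : ℝ)) atTop
        (𝓝 ((t - s) * ∏ i ∈ Finset.range k,
          Real.exp Real.eulerMascheroniConstant / Real.log α * Real.log (d i / c i))) := by
  have hv : Tendsto (fun z : ℝ => ∏ i ∈ Finset.range k, vT (Pr (c i * z) (d i * z))) atTop
      (𝓝 (∏ i ∈ Finset.range k, Real.log (d i / c i))) :=
    tendsto_finsetProd _ fun i hi => by
      obtain ⟨ai, abi⟩ := h0 i (Finset.mem_range.1 hi)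
      exact mertens_window ai abi
  have hvc : Tendsto (fun z : ℝ => (t - s) * ∏ i ∈ Finset.range k,
      Real.exp Real.eulerMascheroniConstant / Real.log α * vT (Pr (c i * z) (d i * z))) atTop
      (𝓝 ((t - s) * ∏ i ∈ Finset.range k,
        Real.exp Real.eulerMascheroniConstant / Real.log α * Real.log (d i / c i))) :=
    (tendsto_finsetProd _ fun i hi => by
      obtain ⟨ai, abi⟩ := h0 i (Finset.mem_range.1 hi)
      exact (mertens_window ai abi).const_mul _).const_mul _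
  rw [Metric.tendsto_nhds]
  intro η hη
  set Lv := ∏ i ∈ Finset.range k, Real.log (d i / c i) with hLv
  have hLv0 : 0 ≤ Lv := Finset.prod_nonneg fun i hi => by
    obtain ⟨ai, abi⟩ := h0 i (Finset.mem_range.1 hi)
    exact Real.log_nonneg ((one_le_div ai).2 abi.le)
  have hη' : 0 < η / (2 * ((Lv + 1) * (t - s + 1))) := by
    have : 0 ≤ t - s := by linarith
    positivity
  filter_upwards [joint_rb hα hκ0 hκ hg hnear k 0 0 c d le_rfl h0 h1
    (fun i hi => by have := (h0 i hi).1; linarith) s t hst _ hη',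
    (Metric.tendsto_nhds.1 hvc) (η / 2) (by linarith),
    hv.eventually_le_const (show Lv < Lv + 1 by linarith), eventually_gt_atTop 0] with z hz1 hz2 hz3 hz0
  have h3 := hz1 (fun i => Pr (c i * z) (d i * z)) (fun i hi p hp => by
      obtain ⟨ai, abi⟩ := h0 i hi
      have bi : 0 < d i := ai.trans abi
      rw [mem_Pr (by positivity) (by positivity)] at hp
      exact hp)
    (fun _ => 1) (fun n => by norm_num)
  have h4 : ∫ u in s..t, (1 : ℝ) = t - s := by simp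
  simp only [abs_one, h4, pow_zero, div_one, one_mul] at h3
  have h5 : η / (2 * ((Lv + 1) * (t - s + 1))) *
      (∏ i ∈ Finset.range k, vT (Pr (c i * z) (d i * z))) * (t - s + 1) ≤ η / 2 := by
    have hts : 0 < t - s + 1 := by linarith
    calc _ ≤ η / (2 * ((Lv + 1) * (t - s + 1))) * (Lv + 1) * (t - s + 1) := by
          refine mul_le_mul_of_nonneg_right (mul_le_mul_of_nonneg_left ?_ hη'.le) hts.le
          exact hz3
      _ = η / 2 := by field_simp
  have h6 := h3.trans h5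
  rw [Real.dist_eq]
  rw [Real.dist_eq] at hz2
  rw [abs_lt] at hz2 ⊢
  rw [abs_le] at h6
  constructor <;> linarith [h6.1, h6.2, hz2.1, hz2.2]

end

section

variable {α α' : ℝ} {P : ℤ}

/-- the near pair condition for quadratic units -/
lemma near_unit (hα : 1 < α) (hs : α + α' = P) (hm : α * α' = -1) (B : ℝ) :
    (∀ p : ℕ, |(fun p : ℕ => B * α' ^ p) p| ≤ |B| * (1 : ℝ) ^ p) ∧ Near α (fun p : ℕ => B * α' ^ p) := by
  have hc : |α'| < 1 := by
    have h0 : 0 < α := by linarith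
    have h1 : |α| * |α'| = 1 := by rw [← abs_mul, hm]; norm_num
    rw [abs_of_pos h0] at h1
    by_contra h
    nlinarith [abs_nonneg α', not_lt.1 h]
  have hg : ∀ p : ℕ, |(fun p : ℕ => B * α' ^ p) p| ≤ |B| * (1 : ℝ) ^ p := by
    intro p
    simp only
    rw [one_pow, abs_mul, abs_pow]
    exact mul_le_mul_of_nonneg_left (pow_le_one₀ (abs_nonneg _) hc.le) (abs_nonneg _)
  exact ⟨hg, fun b0 => Pool.Agent.W66V.near_irr hα zero_le_one hα hg le_rfl hα
      (fun h a b hh ha hb => Pool.Agent.H19P.dio_unit hα hs hm h a b hh ha hb) b0⟩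

end

end Pool.Agent.H176R
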